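import Pool.Agent.Helper206.PC.Rec2

set_option autoImplicit false

/-! C.e. open subsets of Cantor space: enumeration, lattices, and the invariant `Psi`. -/

namespace Pool.Agent.Helper206.PC

open Pool.Agent.Helper743 (RecT)
open Pool.Agent.H166R3.HD
open Nat.Partrec (Code)
open scoped Classical

/-! ### c.e. predicates -/

lemma re_of_rp {q : ℕ → Prop} (hq : RP ∅ q) : REPred (fun n => ∃ s, q (Nat.pair n s)) := by
  obtain ⟨f, hf, rfl⟩ := ComputablePred.computable_iff.1 (rp_iff_computablePred.1 hq)
  have h : Partrec fun n => Nat.rfind (fun s => (Part.some (f (Nat.pair n s)) : Part Bool)) :=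
    Partrec.rfind (p := fun n s => Part.some (f (Nat.pair n s)))
      ((hf.comp (Primrec₂.natPair.to_comp.comp Computable.fst Computable.snd)).to₂.partrec₂)
  refine (h.dom_re).of_eq fun n => ?_
  constructor
  · intro h
    obtain ⟨s, hs, -⟩ := Nat.rfind_dom'.1 h
    refine ⟨s, ?_⟩
    have h2 : true = f (Nat.pair n s) := by simpa using hs
    exact h2.symm
  · rintro ⟨s, hs⟩
    exact Nat.rfind_dom'.2 ⟨s, by simp [hs], fun _ => trivial⟩

/-- every c.e. predicate is the domain of a program -/
lemma exists_index {p : ℕ → Prop} (hp : REPred p) :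
    ∃ e : ℕ, ∀ n, p n ↔ ∃ s, (Code.evaln s (Denumerable.ofNat Code e) n).isSome = true := by
  have hf : Partrec (fun m : ℕ => (Part.assert (p m) fun _ => Part.some ()).map
      (fun _ => 0)) := Partrec.map hp (Computable.const 0).to₂
  obtain ⟨c, hc⟩ := Code.exists_code.1 (Partrec.nat_iff.1 hf)
  refine ⟨Encodable.encode c, fun n => ?_⟩
  rw [Denumerable.ofNat_encode]
  have h1 : (c.eval n).Dom ↔ p n := by
    rw [hc]
    simp [Part.map, Part.assert]
  rw [← h1]
  constructor
  · intro h
    obtain ⟨v, hv⟩ := Part.dom_iff_mem.1 h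
    obtain ⟨s, hs⟩ := Code.evaln_complete.1 hv
    exact ⟨s, by rw [Option.mem_def] at hs; rw [hs]; rfl⟩
  · rintro ⟨s, hs⟩
    obtain ⟨v, hv⟩ := Option.isSome_iff_exists.1 hs
    exact Part.dom_iff_mem.2 ⟨v, Code.evaln_complete.2 ⟨_, Option.mem_def.2 hv⟩⟩

lemma re_iff {p : ℕ → Prop} : REPred p ↔
    ∃ q : ℕ → Prop, RP ∅ q ∧ ∀ n, p n ↔ ∃ s, q (Nat.pair n s) := by
  constructor
  · intro hp
    obtain ⟨e, he⟩ := exists_index hp
    refine ⟨fun z => (Code.evaln z.unpair.2 (Denumerable.ofNat Code e) z.unpair.1).isSome = true,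
      by with_reducible repeat' first | assumption | exact recT_id | exact recT_const _ | exact RP.const _ | apply RecT.fst | apply RecT.snd | apply RecT.pair' | apply RecT.add | apply RecT.sub | apply RecT.mul | apply RecT.div | apply RecT.mod | apply RecT.twopow | apply RP.halt | apply RP.evalEq | apply RP.eq | apply RP.ne | apply RP.lt | apply RP.le | apply RP.and | apply RP.or | apply RP.not | apply RP.bex' | apply RP.ball' | apply RP.bexle | apply RP.ballle | apply RP.imp | apply RP.iff, fun n => ?_⟩
    simp only [Nat.unpair_pair]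
    exact he n
  · rintro ⟨q, hq, h⟩
    exact (re_of_rp hq).of_eq fun n => (h n).symm

lemma evaln_isSome_mono {s t : ℕ} {c : Code} {n : ℕ} (h : s ≤ t)
    (h1 : (Code.evaln s c n).isSome = true) : (Code.evaln t c n).isSome = true := by
  obtain ⟨v, hv⟩ := Option.isSome_iff_exists.1 h1
  have := Code.evaln_mono h (Option.mem_def.2 hv)
  rw [Option.mem_def] at this
  rw [this]; rfl

lemma REPred.subst {p : ℕ → Prop} (hp : REPred p) {f : ℕ → ℕ} (hf : RecT ∅ f) :
    REPred (fun n => p (f n)) := Partrec.comp hp (recT_computable hf)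

lemma rp_re {p : ℕ → Prop} (hp : RP ∅ p) : REPred p :=
  re_iff.2 ⟨fun z => p z.unpair.1, RP.comp hp (RecT.fst recT_id), fun n => by simp⟩

lemma REPred.and' {p q : ℕ → Prop} (hp : REPred p) (hq : REPred q) :
    REPred (fun n => p n ∧ q n) := by
  obtain ⟨r, hr, hpr⟩ := re_iff.1 hp
  obtain ⟨t, ht, hqt⟩ := re_iff.1 hq
  refine re_iff.2 ⟨fun z => r (Nat.pair z.unpair.1 z.unpair.2.unpair.1) ∧
    t (Nat.pair z.unpair.1 z.unpair.2.unpair.2), RP.and (RP.comp hr (by with_reducible repeat' first | assumption | exact recT_id | exact recT_const _ | exact RP.const _ | apply RecT.fst | apply RecT.snd | apply RecT.pair' | apply RecT.add | apply RecT.sub | apply RecT.mul | apply RecT.div | apply RecT.mod | apply RecT.twopow | apply RP.halt | apply RP.evalEq | apply RP.eq | apply RP.ne | apply RP.lt | apply RP.le | apply RP.and | apply RP.or | apply RP.not | apply RP.bex' | apply RP.ball' | apply RP.bexle | apply RP.ballle | apply RP.imp | apply RP.iff))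
    (RP.comp ht (by with_reducible repeat' first | assumption | exact recT_id | exact recT_const _ | exact RP.const _ | apply RecT.fst | apply RecT.snd | apply RecT.pair' | apply RecT.add | apply RecT.sub | apply RecT.mul | apply RecT.div | apply RecT.mod | apply RecT.twopow | apply RP.halt | apply RP.evalEq | apply RP.eq | apply RP.ne | apply RP.lt | apply RP.le | apply RP.and | apply RP.or | apply RP.not | apply RP.bex' | apply RP.ball' | apply RP.bexle | apply RP.ballle | apply RP.imp | apply RP.iff)), fun n => ?_⟩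
  rw [hpr, hqt]
  constructor
  · rintro ⟨⟨a, ha⟩, b, hb⟩
    exact ⟨Nat.pair a b, by simpa using ⟨ha, hb⟩⟩
  · rintro ⟨s, hs⟩
    simp only [Nat.unpair_pair] at hs
    exact ⟨⟨_, hs.1⟩, _, hs.2⟩

lemma REPred.or' {p q : ℕ → Prop} (hp : REPred p) (hq : REPred q) :
    REPred (fun n => p n ∨ q n) := by
  obtain ⟨r, hr, hpr⟩ := re_iff.1 hp
  obtain ⟨t, ht, hqt⟩ := re_iff.1 hq
  refine re_iff.2 ⟨fun z => r z ∨ t z, RP.or hr ht, fun n => ?_⟩
  rw [hpr, hqt, exists_or]

lemma REPred.ex {p : ℕ → Prop} (hp : REPred p) : REPred (fun n => ∃ m, p (Nat.pair n m)) := by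
  obtain ⟨r, hr, hpr⟩ := re_iff.1 hp
  refine re_iff.2 ⟨fun z => r (Nat.pair (Nat.pair z.unpair.1 z.unpair.2.unpair.1)
    z.unpair.2.unpair.2), RP.comp hr (by with_reducible repeat' first | assumption | exact recT_id | exact recT_const _ | exact RP.const _ | apply RecT.fst | apply RecT.snd | apply RecT.pair' | apply RecT.add | apply RecT.sub | apply RecT.mul | apply RecT.div | apply RecT.mod | apply RecT.twopow | apply RP.halt | apply RP.evalEq | apply RP.eq | apply RP.ne | apply RP.lt | apply RP.le | apply RP.and | apply RP.or | apply RP.not | apply RP.bex' | apply RP.ball' | apply RP.bexle | apply RP.ballle | apply RP.imp | apply RP.iff), fun n => ?_⟩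
  constructor
  · rintro ⟨m, hm⟩
    obtain ⟨s, hs⟩ := (hpr _).1 hm
    exact ⟨Nat.pair m s, by simpa using hs⟩
  · rintro ⟨s, hs⟩
    simp only [Nat.unpair_pair] at hs
    exact ⟨_, (hpr _).2 ⟨_, hs⟩⟩

lemma REPred.ex' {p : ℕ → ℕ → Prop} (hp : REPred (fun z : ℕ => p z.unpair.1 z.unpair.2)) :
    REPred (fun n => ∃ m, p n m) := by
  refine (REPred.ex hp).of_eq fun n => ?_
  simp

/-- bounded universal quantification of a c.e. predicate -/
lemma REPred.ball' {p : ℕ → ℕ → Prop} (hp : REPred (fun z : ℕ => p z.unpair.1 z.unpair.2))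
    {b : ℕ → ℕ} (hb : RecT ∅ b) : REPred (fun n => ∀ i < b n, p n i) := by
  obtain ⟨e, he⟩ := exists_index hp
  refine re_iff.2 ⟨fun z => ∀ i < b z.unpair.1,
    (Code.evaln z.unpair.2 (Denumerable.ofNat Code e) (Nat.pair z.unpair.1 i)).isSome = true,
    ?_, fun n => ?_⟩
  · have hb' : RecT ∅ (fun z => b z.unpair.1) := Pool.Agent.Helper743.RecT.comp hb (by with_reducible repeat' first | assumption | exact recT_id | exact recT_const _ | exact RP.const _ | apply RecT.fst | apply RecT.snd | apply RecT.pair' | apply RecT.add | apply RecT.sub | apply RecT.mul | apply RecT.div | apply RecT.mod | apply RecT.twopow | apply RP.halt | apply RP.evalEq | apply RP.eq | apply RP.ne | apply RP.lt | apply RP.le | apply RP.and | apply RP.or | apply RP.not | apply RP.bex' | apply RP.ball' | apply RP.bexle | apply RP.ballle | apply RP.imp | apply RP.iff)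
    with_reducible repeat' first | assumption | exact recT_id | exact recT_const _ | exact RP.const _ | apply RecT.fst | apply RecT.snd | apply RecT.pair' | apply RecT.add | apply RecT.sub | apply RecT.mul | apply RecT.div | apply RecT.mod | apply RecT.twopow | apply RP.halt | apply RP.evalEq | apply RP.eq | apply RP.ne | apply RP.lt | apply RP.le | apply RP.and | apply RP.or | apply RP.not | apply RP.bex' | apply RP.ball' | apply RP.bexle | apply RP.ballle | apply RP.imp | apply RP.iff
  · simp only [Nat.unpair_pair]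
    constructor
    · intro h
      have h2 : ∀ m, m ≤ b n → ∃ s, ∀ i < m,
          (Code.evaln s (Denumerable.ofNat Code e) (Nat.pair n i)).isSome = true := by
        intro m
        induction m with
        | zero => intro _; exact ⟨0, fun i hi => absurd hi (Nat.not_lt_zero _)⟩
        | succ m ih =>
          intro hm
          obtain ⟨s, hs⟩ := ih (by omega)
          have h3 := (he (Nat.pair n m)).1 (by simpa using h m (by omega))
          obtain ⟨t, ht⟩ := h3
          refine ⟨max s t, fun i hi => ?_⟩
          rcases Nat.lt_succ_iff_lt_or_eq.1 hi with h4 | h4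
          · exact evaln_isSome_mono (le_max_left _ _) (hs i h4)
          · subst h4; exact evaln_isSome_mono (le_max_right _ _) ht
      exact h2 _ le_rfl
    · rintro ⟨s, hs⟩ i hi
      have := (he (Nat.pair n i)).2 ⟨s, hs i hi⟩
      simpa using this

/-- a predicate which is c.e. together with its complement is recursive -/
lemma rp_of_re {p : ℕ → Prop} (h1 : REPred p) (h2 : REPred (fun n => ¬ p n)) : RP ∅ p :=
  rp_iff_computablePred.2 (ComputablePred.computable_iff_re_compl_re'.2 ⟨h1, h2⟩)

/-! ### c.e. open sets -/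

/-- stage predicate of the `e`-th c.e. open set; `k` codes a string of length `n` -/
def D (e n k : ℕ) : Prop :=
  ∃ m ≤ n, (Code.evaln n (Denumerable.ofNat Code e) (Nat.pair m (k % 2 ^ m))).isSome = true

lemma D_mono {e n n' k k' : ℕ} (h : D e n k) (hn : n ≤ n') (hk : k' % 2 ^ n = k % 2 ^ n) :
    D e n' k' := by
  obtain ⟨m, hm, h1⟩ := h
  refine ⟨m, hm.trans hn, ?_⟩
  have h2 : k' % 2 ^ m = k % 2 ^ m := by
    have h3 : 2 ^ m ∣ 2 ^ n := Nat.pow_dvd_pow 2 hm
    rw [← Nat.mod_mod_of_dvd k' h3, hk, Nat.mod_mod_of_dvd k h3]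
  rw [h2]
  exact evaln_isSome_mono hn h1

lemma rp_D {e n k : ℕ → ℕ} (he : RecT ∅ e) (hn : RecT ∅ n) (hk : RecT ∅ k) :
    RP ∅ (fun z => D (e z) (n z) (k z)) := by
  unfold D
  refine RP.bexle ?_ hn
  have h1 : RecT ∅ (fun z => e z.unpair.1) := Pool.Agent.Helper743.RecT.comp he (by with_reducible repeat' first | assumption | exact recT_id | exact recT_const _ | exact RP.const _ | apply RecT.fst | apply RecT.snd | apply RecT.pair' | apply RecT.add | apply RecT.sub | apply RecT.mul | apply RecT.div | apply RecT.mod | apply RecT.twopow | apply RP.halt | apply RP.evalEq | apply RP.eq | apply RP.ne | apply RP.lt | apply RP.le | apply RP.and | apply RP.or | apply RP.not | apply RP.bex' | apply RP.ball' | apply RP.bexle | apply RP.ballle | apply RP.imp | apply RP.iff)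
  have h2 : RecT ∅ (fun z => n z.unpair.1) := Pool.Agent.Helper743.RecT.comp hn (by with_reducible repeat' first | assumption | exact recT_id | exact recT_const _ | exact RP.const _ | apply RecT.fst | apply RecT.snd | apply RecT.pair' | apply RecT.add | apply RecT.sub | apply RecT.mul | apply RecT.div | apply RecT.mod | apply RecT.twopow | apply RP.halt | apply RP.evalEq | apply RP.eq | apply RP.ne | apply RP.lt | apply RP.le | apply RP.and | apply RP.or | apply RP.not | apply RP.bex' | apply RP.ball' | apply RP.bexle | apply RP.ballle | apply RP.imp | apply RP.iff)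
  have h3 : RecT ∅ (fun z => k z.unpair.1) := Pool.Agent.Helper743.RecT.comp hk (by with_reducible repeat' first | assumption | exact recT_id | exact recT_const _ | exact RP.const _ | apply RecT.fst | apply RecT.snd | apply RecT.pair' | apply RecT.add | apply RecT.sub | apply RecT.mul | apply RecT.div | apply RecT.mod | apply RecT.twopow | apply RP.halt | apply RP.evalEq | apply RP.eq | apply RP.ne | apply RP.lt | apply RP.le | apply RP.and | apply RP.or | apply RP.not | apply RP.bex' | apply RP.ball' | apply RP.bexle | apply RP.ballle | apply RP.imp | apply RP.iff)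
  with_reducible repeat' first | assumption | exact recT_id | exact recT_const _ | exact RP.const _ | apply RecT.fst | apply RecT.snd | apply RecT.pair' | apply RecT.add | apply RecT.sub | apply RecT.mul | apply RecT.div | apply RecT.mod | apply RecT.twopow | apply RP.halt | apply RP.evalEq | apply RP.eq | apply RP.ne | apply RP.lt | apply RP.le | apply RP.and | apply RP.or | apply RP.not | apply RP.bex' | apply RP.ball' | apply RP.bexle | apply RP.ballle | apply RP.imp | apply RP.iff

/-- the `e`-th c.e. open set -/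
def OO (e : ℕ) : Set (ℕ → Bool) := {x | ∃ n, D e n (enc x n)}

/-- c.e. open sets -/
def CO (X : Set (ℕ → Bool)) : Prop := ∃ e, X = OO e

lemma D_enc_mono {e n n' : ℕ} {x : ℕ → Bool} (h : D e n (enc x n)) (hn : n ≤ n') :
    D e n' (enc x n') :=
  D_mono h hn (by rw [enc_mod x hn, Nat.mod_eq_of_lt (enc_lt x n)])

lemma co_of_re {V : ℕ → Prop} (hV : REPred V) : CO {x | ∃ n, V (Nat.pair n (enc x n))} := by
  obtain ⟨e, he⟩ := exists_index hV
  refine ⟨e, Set.ext fun x => ?_⟩
  constructor
  · rintro ⟨n, hn⟩
    obtain ⟨s, hs⟩ := (he _).1 hn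
    refine ⟨max n s, n, le_max_left _ _, ?_⟩
    rw [enc_mod x (le_max_left n s)]
    exact evaln_isSome_mono (le_max_right _ _) hs
  · rintro ⟨n, m, hm, h⟩
    rw [enc_mod x hm] at h
    exact ⟨m, (he _).2 ⟨n, h⟩⟩

lemma co_of_re' {V : ℕ → ℕ → Prop} (hV : REPred (fun z : ℕ => V z.unpair.1 z.unpair.2)) :
    CO {x | ∃ n, V n (enc x n)} := by
  have := co_of_re hV
  simpa using this

lemma CO.union {X Y : Set (ℕ → Bool)} (hX : CO X) (hY : CO Y) : CO (X ∪ Y) := by
  obtain ⟨a, rfl⟩ := hX
  obtain ⟨b, rfl⟩ := hY
  have h : RP ∅ (fun z => D a z.unpair.1 z.unpair.2 ∨ D b z.unpair.1 z.unpair.2) :=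
    RP.or (rp_D (by with_reducible repeat' first | assumption | exact recT_id | exact recT_const _ | exact RP.const _ | apply RecT.fst | apply RecT.snd | apply RecT.pair' | apply RecT.add | apply RecT.sub | apply RecT.mul | apply RecT.div | apply RecT.mod | apply RecT.twopow | apply RP.halt | apply RP.evalEq | apply RP.eq | apply RP.ne | apply RP.lt | apply RP.le | apply RP.and | apply RP.or | apply RP.not | apply RP.bex' | apply RP.ball' | apply RP.bexle | apply RP.ballle | apply RP.imp | apply RP.iff) (by with_reducible repeat' first | assumption | exact recT_id | exact recT_const _ | exact RP.const _ | apply RecT.fst | apply RecT.snd | apply RecT.pair' | apply RecT.add | apply RecT.sub | apply RecT.mul | apply RecT.div | apply RecT.mod | apply RecT.twopow | apply RP.halt | apply RP.evalEq | apply RP.eq | apply RP.ne | apply RP.lt | apply RP.le | apply RP.and | apply RP.or | apply RP.not | apply RP.bex' | apply RP.ball' | apply RP.bexle | apply RP.ballle | apply RP.imp | apply RP.iff) (by with_reducible repeat' first | assumption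 | exact recT_id | exact recT_const _ | exact RP.const _ | apply RecT.fst | apply RecT.snd | apply RecT.pair' | apply RecT.add | apply RecT.sub | apply RecT.mul | apply RecT.div | apply RecT.mod | apply RecT.twopow | apply RP.halt | apply RP.evalEq | apply RP.eq | apply RP.ne | apply RP.lt | apply RP.le | apply RP.and | apply RP.or | apply RP.not | apply RP.bex' | apply RP.ball' | apply RP.bexle | apply RP.ballle | apply RP.imp | apply RP.iff)) (rp_D (by with_reducible repeat' first | assumption | exact recT_id | exact recT_const _ | exact RP.const _ | apply RecT.fst | apply RecT.snd | apply RecT.pair' | apply RecT.add | apply RecT.sub | apply RecT.mul | apply RecT.div | apply RecT.mod | apply RecT.twopow | apply RP.halt | apply RP.evalEq | apply RP.eq | apply RP.ne | apply RP.lt | apply RP.le | apply RP.and | apply RP.or | apply RP.not | apply RP.bex' | apply RP.ball' | apply RP.bexle | apply RP.ballle | apply RP.imp | apply RP.iff) (by with_reducible repeat' first | assumption | exact recT_id | exact recT_const _ | exact RP.const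 _ | apply RecT.fst | apply RecT.snd | apply RecT.pair' | apply RecT.add | apply RecT.sub | apply RecT.mul | apply RecT.div | apply RecT.mod | apply RecT.twopow | apply RP.halt | apply RP.evalEq | apply RP.eq | apply RP.ne | apply RP.lt | apply RP.le | apply RP.and | apply RP.or | apply RP.not | apply RP.bex' | apply RP.ball' | apply RP.bexle | apply RP.ballle | apply RP.imp | apply RP.iff) (by with_reducible repeat' first | assumption | exact recT_id | exact recT_const _ | exact RP.const _ | apply RecT.fst | apply RecT.snd | apply RecT.pair' | apply RecT.add | apply RecT.sub | apply RecT.mul | apply RecT.div | apply RecT.mod | apply RecT.twopow | apply RP.halt | apply RP.evalEq | apply RP.eq | apply RP.ne | apply RP.lt | apply RP.le | apply RP.and | apply RP.or | apply RP.not | apply RP.bex' | apply RP.ball' | apply RP.bexle | apply RP.ballle | apply RP.imp | apply RP.iff))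
  have h2 := co_of_re' (V := fun n k => D a n k ∨ D b n k) (rp_re h)
  have h3 : OO a ∪ OO b = {x | ∃ n, D a n (enc x n) ∨ D b n (enc x n)} := by
    ext x
    simp only [OO, Set.mem_union, Set.mem_ofPred_eq, exists_or]
  rw [h3]; exact h2

lemma CO.inter {X Y : Set (ℕ → Bool)} (hX : CO X) (hY : CO Y) : CO (X ∩ Y) := by
  obtain ⟨a, rfl⟩ := hX
  obtain ⟨b, rfl⟩ := hY
  have h : RP ∅ (fun z => D a z.unpair.1 z.unpair.2 ∧ D b z.unpair.1 z.unpair.2) :=
    RP.and (rp_D (by with_reducible repeat' first | assumption | exact recT_id | exact recT_const _ | exact RP.const _ | apply RecT.fst | apply RecT.snd | apply RecT.pair' | apply RecT.add | apply RecT.sub | apply RecT.mul | apply RecT.div | apply RecT.mod | apply RecT.twopow | apply RP.halt | apply RP.evalEq | apply RP.eq | apply RP.ne | apply RP.lt | apply RP.le | apply RP.and | apply RP.or | apply RP.not | apply RP.bex' | apply RP.ball' | apply RP.bexle | apply RP.ballle | apply RP.imp | apply RP.iff) (by with_reducible repeat' first | assumption | exact recT_id | exact recT_const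 _ | exact RP.const _ | apply RecT.fst | apply RecT.snd | apply RecT.pair' | apply RecT.add | apply RecT.sub | apply RecT.mul | apply RecT.div | apply RecT.mod | apply RecT.twopow | apply RP.halt | apply RP.evalEq | apply RP.eq | apply RP.ne | apply RP.lt | apply RP.le | apply RP.and | apply RP.or | apply RP.not | apply RP.bex' | apply RP.ball' | apply RP.bexle | apply RP.ballle | apply RP.imp | apply RP.iff) (by with_reducible repeat' first | assumption | exact recT_id | exact recT_const _ | exact RP.const _ | apply RecT.fst | apply RecT.snd | apply RecT.pair' | apply RecT.add | apply RecT.sub | apply RecT.mul | apply RecT.div | apply RecT.mod | apply RecT.twopow | apply RP.halt | apply RP.evalEq | apply RP.eq | apply RP.ne | apply RP.lt | apply RP.le | apply RP.and | apply RP.or | apply RP.not | apply RP.bex' | apply RP.ball' | apply RP.bexle | apply RP.ballle | apply RP.imp | apply RP.iff)) (rp_D (by with_reducible repeat' first | assumption | exact recT_id | exact recT_const _ | exact RP.const _ | apply RecT.fst | apply RecT.snd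 | apply RecT.pair' | apply RecT.add | apply RecT.sub | apply RecT.mul | apply RecT.div | apply RecT.mod | apply RecT.twopow | apply RP.halt | apply RP.evalEq | apply RP.eq | apply RP.ne | apply RP.lt | apply RP.le | apply RP.and | apply RP.or | apply RP.not | apply RP.bex' | apply RP.ball' | apply RP.bexle | apply RP.ballle | apply RP.imp | apply RP.iff) (by with_reducible repeat' first | assumption | exact recT_id | exact recT_const _ | exact RP.const _ | apply RecT.fst | apply RecT.snd | apply RecT.pair' | apply RecT.add | apply RecT.sub | apply RecT.mul | apply RecT.div | apply RecT.mod | apply RecT.twopow | apply RP.halt | apply RP.evalEq | apply RP.eq | apply RP.ne | apply RP.lt | apply RP.le | apply RP.and | apply RP.or | apply RP.not | apply RP.bex' | apply RP.ball' | apply RP.bexle | apply RP.ballle | apply RP.imp | apply RP.iff) (by with_reducible repeat' first | assumption | exact recT_id | exact recT_const _ | exact RP.const _ | apply RecT.fst | apply RecT.snd | apply RecT.pair' | apply RecT.add | apply RecT.sub | apply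 RecT.mul | apply RecT.div | apply RecT.mod | apply RecT.twopow | apply RP.halt | apply RP.evalEq | apply RP.eq | apply RP.ne | apply RP.lt | apply RP.le | apply RP.and | apply RP.or | apply RP.not | apply RP.bex' | apply RP.ball' | apply RP.bexle | apply RP.ballle | apply RP.imp | apply RP.iff))
  have h2 := co_of_re' (V := fun n k => D a n k ∧ D b n k) (rp_re h)
  have h3 : OO a ∩ OO b = {x | ∃ n, D a n (enc x n) ∧ D b n (enc x n)} := by
    ext x
    simp only [OO, Set.mem_inter_iff, Set.mem_ofPred_eq]
    constructor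
    · rintro ⟨⟨m, hm⟩, n, hn⟩
      exact ⟨max m n, D_enc_mono hm (le_max_left _ _), D_enc_mono hn (le_max_right _ _)⟩
    · rintro ⟨n, h1, h2⟩
      exact ⟨⟨n, h1⟩, n, h2⟩
  rw [h3]; exact h2

lemma CO.empty : CO ∅ := by
  have h := co_of_re' (V := fun _ _ => False) (rp_re (RP.const False))
  simpa using h

lemma CO.univ : CO Set.univ := by
  have h := co_of_re' (V := fun _ _ => True) (rp_re (RP.const True))
  simpa using h

lemma co_ne_zero : CO {x : ℕ → Bool | x ≠ fun _ => false} := by
  have h := co_of_re' (V := fun n k => k ≠ 0) (rp_re (by with_reducible repeat' first | assumption | exact recT_id | exact recT_const _ | exact RP.const _ | apply RecT.fst | apply RecT.snd | apply RecT.pair' | apply RecT.add | apply RecT.sub | apply RecT.mul | apply RecT.div | apply RecT.mod | apply RecT.twopow | apply RP.halt | apply RP.evalEq | apply RP.eq | apply RP.ne | apply RP.lt | apply RP.le | apply RP.and | apply RP.or | apply RP.not | apply RP.bex' | apply RP.ball' | apply RP.bexle | apply RP.ballle | apply RP.imp | apply RP.iff))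
  have h2 : {x : ℕ → Bool | x ≠ fun _ => false} = {x | ∃ n, enc x n ≠ 0} := by
    ext x
    simp only [Set.mem_ofPred_eq]
    have key : ∀ n, enc (fun _ => false) n = 0 := by
      intro n
      induction n with
      | zero => rfl
      | succ n ih => rw [enc, ih]; simp
    constructor
    · intro hx
      obtain ⟨i, hi⟩ := Function.ne_iff.1 hx
      refine ⟨i + 1, fun h => ?_⟩
      rw [← key (i + 1)] at h
      exact hi (enc_eq_iff.1 h i (Nat.lt_succ_self i))
    · rintro ⟨n, hn⟩ rfl
      exact hn (key n)
  rw [h2]; exact h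

/-! ### the two lattices -/

/-- c.e. open subsets of Cantor space -/
abbrev L1 : Type := {X : Set (ℕ → Bool) // CO X}

/-- c.e. open subsets of Cantor space which do not contain the zero sequence -/
abbrev L2 : Type := {X : Set (ℕ → Bool) // CO X ∧ (fun _ => false) ∉ X}

instance : Lattice L1 := Subtype.lattice (P := CO) (fun _ _ hx hy => hx.union hy)
  (fun _ _ hx hy => hx.inter hy)

instance : BoundedOrder L1 where
  top := ⟨Set.univ, CO.univ⟩
  le_top _ := Set.subset_univ _
  bot := ⟨∅, CO.empty⟩
  bot_le _ := Set.empty_subset _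

instance : Lattice L2 := Subtype.lattice (P := fun X => CO X ∧ (fun _ => false) ∉ X)
  (fun _ _ hx hy => ⟨hx.1.union hy.1, fun h => h.elim hx.2 hy.2⟩)
  (fun _ _ hx hy => ⟨hx.1.inter hy.1, fun h => hx.2 h.1⟩)

instance : BoundedOrder L2 where
  top := ⟨{x | x ≠ fun _ => false}, co_ne_zero, fun h => h rfl⟩
  le_top x := fun y hy h => x.2.2 (h ▸ hy)
  bot := ⟨∅, CO.empty, fun h => h⟩
  bot_le _ := Set.empty_subset _

@[simp] lemma L1.coe_sup (x y : L1) : ((x ⊔ y : L1) : Set (ℕ → Bool)) = x.1 ∪ y.1 := rfl
@[simp] lemma L1.coe_inf (x y : L1) : ((x ⊓ y : L1) : Set (ℕ → Bool)) = x.1 ∩ y.1 := rfl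
@[simp] lemma L1.coe_bot : ((⊥ : L1) : Set (ℕ → Bool)) = ∅ := rfl
@[simp] lemma L1.coe_top : ((⊤ : L1) : Set (ℕ → Bool)) = Set.univ := rfl
@[simp] lemma L2.coe_sup (x y : L2) : ((x ⊔ y : L2) : Set (ℕ → Bool)) = x.1 ∪ y.1 := rfl
@[simp] lemma L2.coe_inf (x y : L2) : ((x ⊓ y : L2) : Set (ℕ → Bool)) = x.1 ∩ y.1 := rfl
@[simp] lemma L2.coe_bot : ((⊥ : L2) : Set (ℕ → Bool)) = ∅ := rfl
@[simp] lemma L2.coe_top : ((⊤ : L2) : Set (ℕ → Bool)) = {x | x ≠ fun _ => false} := rfl
lemma L1.le_iff (x y : L1) : x ≤ y ↔ x.1 ⊆ y.1 := Iff.rfl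
lemma L2.le_iff (x y : L2) : x ≤ y ↔ x.1 ⊆ y.1 := Iff.rfl

/-! ### the invariant -/

section
variable {α β : Type} [Lattice α] [BoundedOrder α] [Lattice β] [BoundedOrder β]

/-- `X_i = Y_0 ⊔ ... ⊔ Y_{i-1}` -/
def Xs (Y : ℕ → α) : ℕ → α
  | 0 => ⊥
  | i + 1 => Xs Y i ⊔ Y i

/-- the invariant -/
def Psi (k : ℕ) (p A U : α) : Prop :=
  ∃ Y : ℕ → α, Y 0 = p ∧ (∀ i < k, IsGreatest {y | y ⊓ Y i ≤ Xs Y i} (Y (i + 1))) ∧
    ∀ b, IsComplemented b → b ≤ A ⊓ Xs Y (k + 1) →
      ∃ c d, IsComplemented c ∧ IsComplemented d ∧ b ≤ c ⊔ d ∧ c ≤ Xs Y k ∧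
        IsComplemented (d ⊓ U)

lemma Xs_map (f : α ≃o β) (Y : ℕ → α) (i : ℕ) : f (Xs Y i) = Xs (fun j => f (Y j)) i := by
  induction i with
  | zero => exact f.map_bot
  | succ i ih => show f (Xs Y i ⊔ Y i) = Xs (fun j => f (Y j)) i ⊔ f (Y i); rw [f.map_sup, ih]

lemma isComplemented_map (f : α ≃o β) {a : α} (h : IsComplemented a) : IsComplemented (f a) := by
  obtain ⟨b, hb⟩ := h
  exact ⟨f b, f.isCompl hb⟩

lemma Psi_map (f : α ≃o β) {k : ℕ} {p A U : α} (h : Psi k p A U) :
    Psi k (f p) (f A) (f U) := by
  obtain ⟨Y, h0, h1, h2⟩ := h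
  refine ⟨fun j => f (Y j), congrArg f h0, fun i hi => ?_, fun b hb hbA => ?_⟩
  · obtain ⟨h3, h4⟩ := h1 i hi
    refine ⟨?_, fun y hy => ?_⟩
    · show f (Y (i + 1)) ⊓ f (Y i) ≤ Xs (fun j => f (Y j)) i
      rw [← f.map_inf, ← Xs_map]
      exact f.monotone h3
    · have h5 : f.symm y ≤ Y (i + 1) := by
        refine h4 ?_
        show f.symm y ⊓ Y i ≤ Xs Y i
        have h6 : y ⊓ f (Y i) ≤ Xs (fun j => f (Y j)) i := hy
        rw [← Xs_map] at h6
        have h7 := f.symm.monotone h6
        rw [f.symm.map_inf, f.symm_apply_apply, f.symm_apply_apply] at h7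
        exact h7
      have h8 := f.monotone h5
      rwa [f.apply_symm_apply] at h8
  · rw [← Xs_map, ← f.map_inf] at hbA
    have hb2 : f.symm b ≤ A ⊓ Xs Y (k + 1) := by
      have h7 := f.symm.monotone hbA
      rwa [f.symm_apply_apply] at h7
    obtain ⟨c, d, hc, hd, hbcd, hck, hdU⟩ := h2 _ (isComplemented_map f.symm hb) hb2
    refine ⟨f c, f d, isComplemented_map f hc, isComplemented_map f hd, ?_, ?_, ?_⟩
    · rw [← f.map_sup]
      have h8 := f.monotone hbcd
      rwa [f.apply_symm_apply] at h8
    · rw [← Xs_map]; exact f.monotone hck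
    · rw [← f.map_inf]; exact isComplemented_map f hdU

lemma Psi_iff (f : α ≃o β) {k : ℕ} {p A U : α} :
    Psi k p A U ↔ Psi k (f p) (f A) (f U) := by
  refine ⟨Psi_map f, fun h => ?_⟩
  have := Psi_map f.symm h
  simpa using this

end

/-- the `e`-th element of `L1` -/
def oo (e : ℕ) : L1 := ⟨OO e, e, rfl⟩

end Pool.Agent.Helper206.PC
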