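import Pool.Agent.Helper206.PC.Tree

set_option autoImplicit false

/-! From the non-isomorphism of the two lattices of c.e. open sets to the posets of effectively
closed classes. -/

namespace Pool.Agent.Helper206.PC

open Pool.Agent.H166R3.HD

/-- effectively closed classes, as in the frozen statement -/
def PiC (S : Set (ℕ → Bool)) : Prop := ∃ T : List Bool → Bool, Computable T ∧
  S = {x : ℕ → Bool | ∀ n : ℕ, T ((List.range n).map x) = true}

lemma co_iff_compl (X : Set (ℕ → Bool)) : CO X ↔ PiC Xᶜ := co_iff X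

/-- supersets of the empty class are the duals of `L1` -/
def iso1 : {S : Set (ℕ → Bool) // PiC S ∧ (∅ : Set (ℕ → Bool)) ⊆ S}ᵒᵈ ≃o L1 where
  toFun S := ⟨(OrderDual.ofDual S).1ᶜ, by rw [co_iff_compl, compl_compl]; exact (OrderDual.ofDual S).2.1⟩
  invFun X := OrderDual.toDual ⟨X.1ᶜ, (co_iff_compl _).1 X.2, Set.empty_subset _⟩
  left_inv S := by
    apply OrderDual.ofDual.injective
    apply Subtype.ext
    exact compl_compl _
  right_inv X := by
    apply Subtype.ext
    exact compl_compl _
  map_rel_iff' := by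
    intro S T
    show (OrderDual.ofDual S).1ᶜ ⊆ (OrderDual.ofDual T).1ᶜ ↔ _
    rw [Set.compl_subset_compl]
    exact Iff.rfl

/-- supersets of the class of the zero sequence are the duals of `L2` -/
def iso2 : {S : Set (ℕ → Bool) // PiC S ∧ ({fun _ => false} : Set (ℕ → Bool)) ⊆ S}ᵒᵈ ≃o L2 where
  toFun S := ⟨(OrderDual.ofDual S).1ᶜ, by rw [co_iff_compl, compl_compl]; exact (OrderDual.ofDual S).2.1,
    fun h => h ((OrderDual.ofDual S).2.2 rfl)⟩
  invFun X := OrderDual.toDual ⟨X.1ᶜ, (co_iff_compl _).1 X.2.1, by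
    rintro x rfl; exact X.2.2⟩
  left_inv S := by
    apply OrderDual.ofDual.injective
    apply Subtype.ext
    exact compl_compl _
  right_inv X := by
    apply Subtype.ext
    exact compl_compl _
  map_rel_iff' := by
    intro S T
    show (OrderDual.ofDual S).1ᶜ ⊆ (OrderDual.ofDual T).1ᶜ ↔ _
    rw [Set.compl_subset_compl]
    exact Iff.rfl

lemma piC_zero : PiC ({fun _ => false} : Set (ℕ → Bool)) := by
  have h := (co_iff _).1 co_ne_zero
  have h2 : ({x : ℕ → Bool | x ≠ fun _ => false} : Set (ℕ → Bool))ᶜ = {fun _ => false} := by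
    ext x; simp
  rw [h2] at h
  exact h

lemma piC_empty : PiC (∅ : Set (ℕ → Bool)) := by
  have h := (co_iff _).1 CO.univ
  rw [Set.compl_univ] at h
  exact h

theorem final_of (hni : ¬ Nonempty (L2 ≃o L1)) :
    ¬ (∀ P Q : Set (ℕ → Bool),
      (∃ T : List Bool → Bool, Computable T ∧
          P = {x : ℕ → Bool | ∀ n : ℕ, T ((List.range n).map x) = true}) →
      (∃ T : List Bool → Bool, Computable T ∧
          Q = {x : ℕ → Bool | ∀ n : ℕ, T ((List.range n).map x) = true}) →
      P ≠ Set.univ → Q ≠ Set.univ →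
      Nonempty
        ({S : Set (ℕ → Bool) //
            (∃ T : List Bool → Bool, Computable T ∧
              S = {x : ℕ → Bool | ∀ n : ℕ, T ((List.range n).map x) = true}) ∧ P ⊆ S} ≃o
         {S : Set (ℕ → Bool) //
            (∃ T : List Bool → Bool, Computable T ∧
              S = {x : ℕ → Bool | ∀ n : ℕ, T ((List.range n).map x) = true}) ∧ Q ⊆ S})) := by
  intro h
  have hz : ({fun _ => false} : Set (ℕ → Bool)) ≠ Set.univ := by
    intro h1
    have h2 : (fun _ => true : ℕ → Bool) ∈ ({fun _ => false} : Set (ℕ → Bool)) := by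
      rw [h1]; trivial
    have h3 := congrFun (Set.mem_singleton_iff.1 h2) 0
    cases h3
  have he : (∅ : Set (ℕ → Bool)) ≠ Set.univ := by
    intro h1
    have h2 : (fun _ => true : ℕ → Bool) ∈ (∅ : Set (ℕ → Bool)) := by
      rw [h1]; trivial
    exact h2
  obtain ⟨f⟩ := h {fun _ => false} ∅ piC_zero piC_empty hz he
  exact hni ⟨(iso2.symm.trans f.dual).trans iso1⟩

end Pool.Agent.Helper206.PC
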