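import Pool.Agent.Helper206.PC.Base
import Pool.Agent.H166R3.LN.Sig

set_option autoImplicit false

namespace Pool.Agent.Helper206.PC

open Pool.Agent.Helper743 (RecT)
open Pool.Agent.H166R3.HD
open Pool.Agent.H166R3.LN (lget mk lget_mk)
open Nat.Partrec (Code)
open scoped Classical

namespace L1N

/-- monotone string predicates -/
def Mn (V : ℕ → ℕ → Prop) : Prop :=
  ∀ n n' k k', V n k → n ≤ n' → k' % 2 ^ n = k % 2 ^ n → V n' k'

/-- the string `(n, s)` is covered by `V` at some level -/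
def In (V : ℕ → ℕ → Prop) (n s : ℕ) : Prop := ∃ m, n ≤ m ∧ ∀ t < 2 ^ m, t % 2 ^ n = s → V m t

lemma Mn.enc {V : ℕ → ℕ → Prop} (hV : Mn V) {x : ℕ → Bool} {n m : ℕ} (h : V n (enc x n))
    (hm : n ≤ m) : V m (enc x m) :=
  hV n m _ _ h hm (by rw [enc_mod x hm, Nat.mod_eq_of_lt (enc_lt x n)])

lemma compact {V : ℕ → ℕ → Prop} (hV : Mn V) {K : Set (ℕ → Bool)} (hK : IsClosed K)
    (h : ∀ x ∈ K, ∃ m, V m (enc x m)) (n : ℕ) : ∃ m, n ≤ m ∧ ∀ x ∈ K, V m (enc x m) := by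
  obtain ⟨m, hm⟩ := hK.isCompact.elim_directed_cover (fun m => {x | V m (enc x m)})
    (fun m => isOpen_encset m (V m)) (fun x hx => Set.mem_iUnion.2 (h x hx))
    (by
      intro a b
      exact ⟨max a b, fun x hx => hV.enc hx (le_max_left _ _),
        fun x hx => hV.enc hx (le_max_right _ _)⟩)
  exact ⟨max n m, le_max_left _ _, fun x hx => hV.enc (hm hx) (le_max_right _ _)⟩

lemma in_iff {V : ℕ → ℕ → Prop} (hV : Mn V) {n s : ℕ} :
    In V n s ↔ ∀ x, enc x n = s → ∃ m, V m (enc x m) := by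
  constructor
  · rintro ⟨m, hm, h⟩ x hx
    exact ⟨m, h _ (enc_lt x m) (by rw [enc_mod x hm, hx])⟩
  · intro h
    obtain ⟨m, hm, h1⟩ := compact hV (isClosed_encset n (fun t => t = s)) h n
    refine ⟨m, hm, fun t ht hts => ?_⟩
    have h2 := enc_dec ht
    have h3 : enc (dec t) n = s := by
      rw [← enc_mod (dec t) hm, h2, hts]
    have h4 := h1 _ h3
    rwa [h2] at h4

/-- the union of the first `i` sets -/
def DX (a i n k : ℕ) : Prop := ∃ j < i, D (lget a j) n k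

lemma D_mn (e : ℕ) : Mn (D e) := fun _ _ _ _ h hn hk => D_mono h hn hk

lemma DX_mn (a i : ℕ) : Mn (DX a i) := by
  rintro n n' k k' ⟨j, hj, h⟩ hn hk
  exact ⟨j, hj, D_mono h hn hk⟩

/-- the sequence of sets coded by `a` -/
def YY (a : ℕ) : ℕ → L1 := fun j => oo (lget a j)

lemma mem_oo {e : ℕ} {x : ℕ → Bool} : x ∈ (oo e).1 ↔ ∃ n, D e n (enc x n) := Iff.rfl

lemma mem_Xs {a : ℕ} {x : ℕ → Bool} (i : ℕ) : x ∈ (Xs (YY a) i).1 ↔ ∃ n, DX a i n (enc x n) := by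
  induction i with
  | zero =>
    constructor
    · intro h; exact absurd h (Set.notMem_empty _)
    · rintro ⟨n, j, hj, _⟩; exact absurd hj (Nat.not_lt_zero _)
  | succ i ih =>
    have h1 : x ∈ (Xs (YY a) (i + 1)).1 ↔ x ∈ (Xs (YY a) i).1 ∨ x ∈ (YY a i).1 := Iff.rfl
    rw [h1, ih]
    constructor
    · rintro (⟨n, j, hj, h⟩ | ⟨n, h⟩)
      · exact ⟨n, j, by omega, h⟩
      · exact ⟨n, i, by omega, h⟩
    · rintro ⟨n, j, hj, h⟩
      rcases Nat.lt_succ_iff_lt_or_eq.1 hj with h2 | h2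
      · exact Or.inl ⟨n, j, h2, h⟩
      · subst h2; exact Or.inr ⟨n, h⟩

lemma rp_fin (F : ℕ → Prop) (N : ℕ) : RP ∅ (fun k => k < N ∧ F k) := by
  induction N with
  | zero => exact RP.congr (RP.const False) fun k => by simp
  | succ N ih =>
    refine RP.congr (RP.or ih (RP.and (RP.eq recT_id (recT_const N)) (RP.const (F N))))
      fun k => ?_
    constructor
    · rintro (⟨h1, h2⟩ | ⟨h1, h2⟩)
      · exact ⟨by omega, h2⟩
      · subst h1; exact ⟨by omega, h2⟩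
    · rintro ⟨h1, h2⟩
      rcases Nat.lt_succ_iff_lt_or_eq.1 h1 with h3 | h3
      · exact Or.inl ⟨h3, h2⟩
      · subst h3; exact Or.inr ⟨rfl, h2⟩

lemma co_level (m : ℕ) (F : ℕ → Prop) : CO {x | F (enc x m)} := by
  have h1 : RP ∅ (fun z : ℕ => z.unpair.1 = m ∧ (z.unpair.2 < 2 ^ m ∧ F z.unpair.2)) :=
    RP.and (RP.eq (RecT.fst recT_id) (recT_const m)) (RP.comp (rp_fin F (2 ^ m)) (RecT.snd recT_id))
  have h2 := co_of_re' (V := fun n k => n = m ∧ (k < 2 ^ m ∧ F k)) (rp_re h1)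
  have h3 : {x : ℕ → Bool | F (enc x m)} =
      {x | ∃ n, n = m ∧ (enc x n < 2 ^ m ∧ F (enc x n))} := by
    ext x
    constructor
    · intro h; exact ⟨m, rfl, enc_lt x m, h⟩
    · rintro ⟨n, rfl, _, h⟩; exact h
  rw [h3]; exact h2

/-- sets depending on the first `m` coordinates -/
def lev (m : ℕ) (F : ℕ → Prop) : L1 := ⟨{x | F (enc x m)}, co_level m F⟩

lemma mem_lev {m : ℕ} {F : ℕ → Prop} {x : ℕ → Bool} : x ∈ (lev m F).1 ↔ F (enc x m) := Iff.rfl

lemma lev_compl (m : ℕ) (F : ℕ → Prop) : IsComplemented (lev m F) := by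
  refine ⟨lev m fun k => ¬ F k, IsCompl.of_eq ?_ ?_⟩
  · apply Subtype.ext
    ext x
    constructor
    · rintro ⟨h1, h2⟩; exact absurd h1 h2
    · intro h; exact absurd h (Set.notMem_empty _)
  · apply Subtype.ext
    ext x
    constructor
    · intro _; trivial
    · intro _
      by_cases h : F (enc x m)
      · exact Or.inl h
      · exact Or.inr h

lemma compl_mem {b : L1} (hb : IsComplemented b) : ∃ b' : L1, ∀ x, x ∈ b'.1 ↔ x ∉ b.1 := by
  obtain ⟨b', h⟩ := hb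
  refine ⟨b', fun x => ?_⟩
  have h1 : (b ⊓ b').1 = (⊥ : L1).1 := congrArg Subtype.val h.inf_eq_bot
  have h2 : (b ⊔ b').1 = (⊤ : L1).1 := congrArg Subtype.val h.sup_eq_top
  constructor
  · intro h3 h4
    have : x ∈ (b ⊓ b').1 := ⟨h4, h3⟩
    rw [h1] at this
    exact this
  · intro h3
    have : x ∈ (b ⊔ b').1 := by rw [h2]; trivial
    exact this.resolve_left h3

/-! ### the clauses -/

/-- first clause -/
def G1 (a i : ℕ) : Prop :=
  ∀ n t, t < 2 ^ n → D (lget a (i + 1)) n t → D (lget a i) n t → In (DX a i) n t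

/-- second clause -/
def G2 (a i : ℕ) : Prop :=
  ∀ n s, s < 2 ^ n → (∃ m t, n ≤ m ∧ t < 2 ^ m ∧ t % 2 ^ n = s ∧ D (lget a i) m t ∧
    ¬ In (DX a i) m t) ∨ In (D (lget a (i + 1))) n s

/-- third clause -/
def G3 (k a A U : ℕ) : Prop :=
  ∀ n s, s < 2 ^ n → D A n s → DX a (k + 1) n s → ∃ m, n ≤ m ∧
    ∀ m' r, m ≤ m' → r < 2 ^ m' → r % 2 ^ n = s →
      DX a k m (r % 2 ^ m) ∨ D U m (r % 2 ^ m) ∨ ¬ D U m' r

lemma g12 (a i : ℕ) : IsGreatest {y : L1 | y ⊓ YY a i ≤ Xs (YY a) i} (YY a (i + 1)) ↔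
    G1 a i ∧ G2 a i := by
  constructor
  · rintro ⟨h1, h2⟩
    constructor
    · intro n t ht hD1 hD2
      rw [in_iff (DX_mn a i)]
      intro x hx
      rw [← mem_Xs]
      exact h1 ⟨⟨n, by rwa [hx]⟩, ⟨n, by rwa [hx]⟩⟩
    · intro n s hs
      by_cases hc : ∃ m t, n ≤ m ∧ t < 2 ^ m ∧ t % 2 ^ n = s ∧ D (lget a i) m t ∧
        ¬ In (DX a i) m t
      · exact Or.inl hc
      · refine Or.inr ((in_iff (D_mn _)).2 fun x hx => ?_)
        have h3 : lev n (fun t => t = s) ≤ YY a (i + 1) := by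
          refine h2 ?_
          rintro y ⟨hy1, hy2⟩
          obtain ⟨m, hm⟩ := mem_oo.1 hy2
          have hy1' : enc y n = s := hy1
          by_contra hcon
          apply hc
          refine ⟨max n m, enc y (max n m), le_max_left _ _, enc_lt _ _, ?_, ?_, ?_⟩
          · rw [enc_mod y (le_max_left _ _), hy1']
          · exact D_enc_mono hm (le_max_right _ _)
          · intro h4
            rw [in_iff (DX_mn a i)] at h4
            exact hcon ((mem_Xs i).2 (h4 y rfl))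
        exact h3 (show x ∈ (lev n (fun t => t = s)).1 from hx)
  · rintro ⟨h1, h2⟩
    constructor
    · rintro x ⟨hx1, hx2⟩
      obtain ⟨m, hm⟩ := mem_oo.1 hx1
      obtain ⟨n, hn⟩ := mem_oo.1 hx2
      have h3 := h1 (max m n) (enc x (max m n)) (enc_lt _ _) (D_enc_mono hm (le_max_left _ _))
        (D_enc_mono hn (le_max_right _ _))
      rw [in_iff (DX_mn a i)] at h3
      exact (mem_Xs i).2 (h3 x rfl)
    · intro y hy x hx
      obtain ⟨f, hf⟩ := y.2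
      have hx' := hx
      rw [hf] at hx'
      obtain ⟨n, hn⟩ := hx'
      rcases h2 n (enc x n) (enc_lt _ _) with ⟨m, t, hnm, ht, hts, hD, hI⟩ | h3
      · exfalso
        apply hI
        rw [in_iff (DX_mn a i)]
        intro z hz
        rw [← mem_Xs]
        refine hy ⟨?_, ⟨m, by rwa [hz]⟩⟩
        show z ∈ y.1
        rw [hf]
        refine ⟨m, D_mono hn hnm ?_⟩
        rw [hz, hts, Nat.mod_eq_of_lt (enc_lt x n)]
      · rw [in_iff (D_mn _)] at h3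
        exact h3 x rfl

lemma g3 (k a A U : ℕ) : (∀ b : L1, IsComplemented b → b ≤ oo A ⊓ Xs (YY a) (k + 1) →
      ∃ c d, IsComplemented c ∧ IsComplemented d ∧ b ≤ c ⊔ d ∧ c ≤ Xs (YY a) k ∧
        IsComplemented (d ⊓ oo U)) ↔ G3 k a A U := by
  constructor
  · intro h n s hs hA hX
    obtain ⟨c, d, _, _, hbcd, hck, hdU⟩ := h (lev n (fun t => t = s)) (lev_compl _ _) (by
      intro x hx
      have hx' : enc x n = s := hx
      exact ⟨⟨n, by rwa [hx']⟩, (mem_Xs _).2 ⟨n, by rwa [hx']⟩⟩)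
    obtain ⟨e, he⟩ := compl_mem hdU
    obtain ⟨g, hg⟩ := (d ⊓ e).2
    let V : ℕ → ℕ → Prop := fun m t => DX a k m t ∨ D U m t ∨
      ∀ m' r, m ≤ m' → r < 2 ^ m' → r % 2 ^ m = t % 2 ^ m → ¬ D U m' r
    have hV : Mn V := by
      rintro p p' q q' (hh | hh | hh) hpp hqq
      · exact Or.inl (DX_mn a k _ _ _ _ hh hpp hqq)
      · exact Or.inr (Or.inl (D_mono hh hpp hqq))
      · refine Or.inr (Or.inr fun m' r hm' hr hrq => hh m' r (hpp.trans hm') hr ?_)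
        have hdvd : 2 ^ p ∣ 2 ^ p' := Nat.pow_dvd_pow 2 hpp
        rw [← Nat.mod_mod_of_dvd r hdvd, hrq, Nat.mod_mod_of_dvd q' hdvd, hqq]
    obtain ⟨m, hnm, hm⟩ := compact hV (isClosed_encset n (fun t => t = s)) (by
      intro x hx
      have hx' : enc x n = s := hx
      have h1 : x ∈ (c ⊔ d).1 := hbcd (show x ∈ (lev n (fun t => t = s)).1 from hx)
      rcases h1 with h1 | h1
      · obtain ⟨m, hm⟩ := (mem_Xs k).1 (hck h1)
        exact ⟨m, Or.inl hm⟩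
      · by_cases hU : x ∈ (oo U).1
        · obtain ⟨m, hm⟩ := mem_oo.1 hU
          exact ⟨m, Or.inr (Or.inl hm)⟩
        · have h2 : x ∈ (d ⊓ e).1 := ⟨h1, (he x).2 fun h3 => hU h3.2⟩
          have h3 := h2
          rw [hg] at h3
          obtain ⟨m, hm⟩ := h3
          refine ⟨m, Or.inr (Or.inr fun m' r hm' hr hrx hD => ?_)⟩
          have h4 := enc_dec hr
          have h5 : dec r ∈ (d ⊓ e).1 := by
            rw [hg]
            refine ⟨m', D_mono hm hm' ?_⟩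
            rw [h4, hrx]
          have h6 : dec r ∈ (oo U).1 := ⟨m', by rwa [h4]⟩
          exact (he _).1 h5.2 ⟨h5.1, h6⟩) n
    refine ⟨m, hnm, fun m' r hmm hr hrs => ?_⟩
    have h4 : r % 2 ^ m < 2 ^ m := Nat.mod_lt _ (by positivity)
    have h5 := enc_dec h4
    have h6 : enc (dec (r % 2 ^ m)) n = s := by
      rw [← enc_mod (dec (r % 2 ^ m)) hnm, h5, Nat.mod_mod_of_dvd r (Nat.pow_dvd_pow 2 hnm), hrs]
    have h7 := hm _ h6
    rw [h5] at h7
    rcases h7 with h7 | h7 | h7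
    · exact Or.inl h7
    · exact Or.inr (Or.inl h7)
    · exact Or.inr (Or.inr (h7 m' r hmm hr (by rw [Nat.mod_mod])))
  · intro h b hb hbA
    obtain ⟨b', hb'⟩ := compl_mem hb
    obtain ⟨f, hf⟩ := b.2
    obtain ⟨f', hf'⟩ := b'.2
    let V : ℕ → ℕ → Prop := fun m t => DX a k m t ∨ D U m t ∨
      ∀ m' r, m ≤ m' → r < 2 ^ m' → r % 2 ^ m = t % 2 ^ m → ¬ D U m' r
    have hV : Mn V := by
      rintro p p' q q' (hh | hh | hh) hpp hqq
      · exact Or.inl (DX_mn a k _ _ _ _ hh hpp hqq)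
      · exact Or.inr (Or.inl (D_mono hh hpp hqq))
      · refine Or.inr (Or.inr fun m' r hm' hr hrq => hh m' r (hpp.trans hm') hr ?_)
        have hdvd : 2 ^ p ∣ 2 ^ p' := Nat.pow_dvd_pow 2 hpp
        rw [← Nat.mod_mod_of_dvd r hdvd, hrq, Nat.mod_mod_of_dvd q' hdvd, hqq]
    let W : ℕ → ℕ → Prop := fun m t => D f' m t ∨ (D f m t ∧ V m t)
    have hW : Mn W := by
      rintro p p' q q' (hh | ⟨hh1, hh2⟩) hpp hqq
      · exact Or.inl (D_mono hh hpp hqq)
      · exact Or.inr ⟨D_mono hh1 hpp hqq, hV _ _ _ _ hh2 hpp hqq⟩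
    obtain ⟨m, -, hm⟩ := compact hW isClosed_univ (by
      intro x _
      by_cases hx : x ∈ b.1
      · obtain ⟨hxA, hxX⟩ := hbA hx
        obtain ⟨n1, hn1⟩ := mem_oo.1 hxA
        obtain ⟨n2, hn2⟩ := (mem_Xs _).1 hxX
        have hxf := hx
        rw [hf] at hxf
        obtain ⟨n3, hn3⟩ := hxf
        set n := max n1 (max n2 n3) with hn
        have e1 : D A n (enc x n) := D_enc_mono hn1 (le_max_left _ _)
        have e2 : DX a (k + 1) n (enc x n) :=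
          (DX_mn a (k + 1)).enc hn2 ((le_max_left _ _).trans (le_max_right _ _))
        have e3 : D f n (enc x n) :=
          D_enc_mono hn3 ((le_max_right _ _).trans (le_max_right _ _))
        obtain ⟨m, hnm, hm⟩ := h n (enc x n) (enc_lt _ _) e1 e2
        refine ⟨m, Or.inr ⟨D_enc_mono e3 hnm, ?_⟩⟩
        by_cases c1 : DX a k m (enc x m)
        · exact Or.inl c1
        · by_cases c2 : D U m (enc x m)
          · exact Or.inr (Or.inl c2)
          · refine Or.inr (Or.inr fun m' r hm' hr hrx hD => ?_)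
            have hrm : r % 2 ^ m = enc x m := by
              rw [hrx, Nat.mod_eq_of_lt (enc_lt x m)]
            have hrn : r % 2 ^ n = enc x n := by
              rw [← Nat.mod_mod_of_dvd r (Nat.pow_dvd_pow 2 hnm), hrm, enc_mod x hnm]
            rcases hm m' r hm' hr hrn with c3 | c3 | c3
            · rw [hrm] at c3; exact c1 c3
            · rw [hrm] at c3; exact c2 c3
            · exact c3 hD
      · have hx' := (hb' x).2 hx
        rw [hf'] at hx'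
        obtain ⟨n, hn⟩ := hx'
        exact ⟨n, Or.inl hn⟩) 0
    have hmb : ∀ x, D f m (enc x m) → x ∈ b.1 := fun x hx => by rw [hf]; exact ⟨m, hx⟩
    have hmb' : ∀ x, x ∈ b.1 → ¬ D f' m (enc x m) := fun x hx hD => by
      have : x ∈ b'.1 := by rw [hf']; exact ⟨m, hD⟩
      exact (hb' x).1 this hx
    have hW' : ∀ x, x ∈ b.1 → D f m (enc x m) ∧ V m (enc x m) := fun x hx =>
      (hm x trivial).resolve_left (hmb' x hx)
    refine ⟨lev m fun t => D f m t ∧ DX a k m t, lev m fun t => D f m t ∧ ¬ DX a k m t,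
      lev_compl _ _, lev_compl _ _, ?_, ?_, ?_⟩
    · intro x hx
      obtain ⟨h1, _⟩ := hW' x hx
      by_cases c1 : DX a k m (enc x m)
      · exact Or.inl ⟨h1, c1⟩
      · exact Or.inr ⟨h1, c1⟩
    · intro x hx
      exact (mem_Xs k).2 ⟨m, hx.2⟩
    · have key : lev m (fun t => D f m t ∧ ¬ DX a k m t) ⊓ oo U =
          lev m (fun t => (D f m t ∧ ¬ DX a k m t) ∧ D U m t) := by
        apply Subtype.ext
        ext x
        constructor
        · rintro ⟨h1, h2⟩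
          refine ⟨h1, ?_⟩
          obtain ⟨_, h3⟩ := hW' x (hmb x h1.1)
          rcases h3 with h3 | h3 | h3
          · exact absurd h3 h1.2
          · exact h3
          · exfalso
            obtain ⟨n, hn⟩ := mem_oo.1 h2
            refine h3 (max m n) (enc x (max m n)) (le_max_left _ _) (enc_lt _ _) ?_
              (D_enc_mono hn (le_max_right _ _))
            rw [enc_mod x (le_max_left _ _), Nat.mod_eq_of_lt (enc_lt x m)]
        · rintro ⟨h1, h2⟩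
          exact ⟨h1, ⟨m, h2⟩⟩
      rw [key]
      exact lev_compl _ _

lemma Xs_congr {Y Y' : ℕ → L1} {i : ℕ} (h : ∀ j < i, Y j = Y' j) : Xs Y i = Xs Y' i := by
  induction i with
  | zero => rfl
  | succ i ih =>
    show Xs Y i ⊔ Y i = Xs Y' i ⊔ Y' i
    rw [ih fun j hj => h j (by omega), h i (by omega)]

lemma psi_iff (k k0 A U : ℕ) : Psi k (oo k0) (oo A) (oo U) ↔
    ∃ a, lget a 0 = k0 ∧ (∀ i < k, G1 a i ∧ G2 a i) ∧ G3 k a A U := by
  constructor
  · rintro ⟨Y, h0, h1, h2⟩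
    have hY : ∀ j, ∃ e, Y j = oo e := by
      intro j
      obtain ⟨e, he⟩ := (Y j).2
      exact ⟨e, Subtype.ext he⟩
    choose e he using hY
    let e' : ℕ → ℕ := fun j => if j = 0 then k0 else e j
    have he' : ∀ j, Y j = oo (e' j) := by
      intro j
      by_cases hj : j = 0
      · subst hj
        rw [h0]; rfl
      · rw [he j]
        simp only [e', if_neg hj]
    let a := mk (k + 1) e'
    have ha : ∀ j ≤ k, Y j = YY a j := by
      intro j hj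
      rw [he' j]
      show oo (e' j) = oo (lget (mk (k + 1) e') j)
      rw [lget_mk (by omega)]
    have hX : ∀ i ≤ k + 1, Xs Y i = Xs (YY a) i := fun i hi =>
      Xs_congr fun j hj => ha j (by omega)
    refine ⟨a, ?_, ?_, ?_⟩
    · show lget (mk (k + 1) e') 0 = k0
      rw [lget_mk (by omega)]
      rfl
    · intro i hi
      rw [← g12, ← ha (i + 1) (by omega), ← ha i (by omega), ← hX i (by omega)]
      exact h1 i hi
    · rw [← g3, ← hX (k + 1) le_rfl, ← hX k (by omega)]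
      exact h2
  · rintro ⟨a, h0, h1, h2⟩
    refine ⟨YY a, ?_, fun i hi => (g12 a i).2 (h1 i hi), (g3 k a A U).2 h2⟩
    show oo (lget a 0) = oo k0
    rw [h0]

/-! ### the negations -/

lemma not_In (V : ℕ → ℕ → Prop) (n s : ℕ) : ¬ In V n s ↔
    ∀ c, c < n ∨ ∃ r < 2 ^ c, r % 2 ^ n = s ∧ ¬ V c r := by
  unfold In
  constructor
  · intro h c
    by_cases hc : c < n
    · exact Or.inl hc
    · right
      by_contra h2
      apply h
      refine ⟨c, not_lt.1 hc, fun t ht hts => ?_⟩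
      by_contra h3
      exact h2 ⟨t, ht, hts, h3⟩
  · rintro h ⟨m, hm, h2⟩
    rcases h m with h3 | ⟨r, hr, hrs, hV⟩
    · omega
    · exact hV (h2 r hr hrs)

/-- matrix of the negation of the first clause -/
def M1 (a i n t c : ℕ) : Prop :=
  t < 2 ^ n ∧ D (lget a (i + 1)) n t ∧ D (lget a i) n t ∧
    (c < n ∨ ∃ r < 2 ^ c, r % 2 ^ n = t ∧ ¬ DX a i c r)

/-- matrix of the negation of the second clause -/
def M2 (a i n s u v : ℕ) : Prop :=
  s < 2 ^ n ∧ ((u < n ∨ ¬ v < 2 ^ u ∨ ¬ v % 2 ^ n = s ∨ ¬ D (lget a i) u v) ∨ In (DX a i) u v) ∧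
    (u < n ∨ ∃ r < 2 ^ u, r % 2 ^ n = s ∧ ¬ D (lget a (i + 1)) u r)

/-- matrix of the negation of the third clause -/
def M3 (k a A U n s c : ℕ) : Prop :=
  s < 2 ^ n ∧ D A n s ∧ DX a (k + 1) n s ∧ (c < n ∨ ∃ m, ∃ r < 2 ^ m, c ≤ m ∧ r % 2 ^ n = s ∧
    ¬ DX a k c (r % 2 ^ c) ∧ ¬ D U c (r % 2 ^ c) ∧ D U m r)

lemma not_G1 (a i : ℕ) : ¬ G1 a i ↔ ∃ n t, ∀ c, M1 a i n t c := by
  unfold G1 M1
  constructor
  · intro h
    push Not at h
    obtain ⟨n, t, h1, h2, h3, h4⟩ := h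
    rw [not_In] at h4
    exact ⟨n, t, fun c => ⟨h1, h2, h3, h4 c⟩⟩
  · rintro ⟨n, t, h⟩ h'
    have h1 := h 0
    have h2 := h' n t h1.1 h1.2.1 h1.2.2.1
    exact (not_In _ _ _).2 (fun c => (h c).2.2.2) h2

lemma not_G2 (a i : ℕ) : ¬ G2 a i ↔ ∃ n s, ∀ u v, M2 a i n s u v := by
  unfold G2 M2
  constructor
  · intro h
    push Not at h
    obtain ⟨n, s, h1, h2, h3⟩ := h
    rw [not_In] at h3
    refine ⟨n, s, fun u v => ⟨h1, ?_, h3 u⟩⟩
    by_cases c1 : u < n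
    · exact Or.inl (Or.inl c1)
    · by_cases c2 : v < 2 ^ u
      · by_cases c3 : v % 2 ^ n = s
        · by_cases c4 : D (lget a i) u v
          · exact Or.inr (h2 u v (not_lt.1 c1) c2 c3 c4)
          · exact Or.inl (Or.inr (Or.inr (Or.inr c4)))
        · exact Or.inl (Or.inr (Or.inr (Or.inl c3)))
      · exact Or.inl (Or.inr (Or.inl c2))
  · rintro ⟨n, s, h⟩ h'
    rcases h' n s (h 0 0).1 with ⟨m, t, h1, h2, h3, h4, h5⟩ | h1
    · rcases (h m t).2.1 with (h6 | h6 | h6 | h6) | h6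
      · omega
      · exact h6 h2
      · exact h6 h3
      · exact h6 h4
      · exact h5 h6
    · exact (not_In _ _ _).2 (fun c => (h c 0).2.2) h1

lemma not_G3 (k a A U : ℕ) : ¬ G3 k a A U ↔ ∃ n s, ∀ c, M3 k a A U n s c := by
  unfold G3 M3
  constructor
  · intro h
    push Not at h
    obtain ⟨n, s, h1, h2, h3, h4⟩ := h
    refine ⟨n, s, fun c => ⟨h1, h2, h3, ?_⟩⟩
    by_cases hc : c < n
    · exact Or.inl hc
    · obtain ⟨m, r, h5, h6, h7, h8, h9, h10⟩ := h4 c (not_lt.1 hc)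
      exact Or.inr ⟨m, r, h6, h5, h7, h8, h9, h10⟩
  · rintro ⟨n, s, h⟩ h'
    obtain ⟨m, h1, h2⟩ := h' n s (h 0).1 (h 0).2.1 (h 0).2.2.1
    rcases (h m).2.2.2 with h3 | ⟨m', r, h3, h4, h5, h6, h7, h8⟩
    · omega
    · rcases h2 m' r h4 h3 h5 with h9 | h9 | h9
      · exact h6 h9
      · exact h7 h9
      · exact h9 h8

/-- the matrix -/
def PM (k a b c : ℕ) : Prop :=
  (b.unpair.1 = 0 ∧ lget a 0 ≠ k.unpair.1) ∨
  (b.unpair.1 = 1 ∧ b.unpair.2.unpair.1 < k ∧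
    M1 a b.unpair.2.unpair.1 b.unpair.2.unpair.2.unpair.1 b.unpair.2.unpair.2.unpair.2 c) ∨
  (b.unpair.1 = 2 ∧ b.unpair.2.unpair.1 < k ∧
    M2 a b.unpair.2.unpair.1 b.unpair.2.unpair.2.unpair.1 b.unpair.2.unpair.2.unpair.2
      c.unpair.1 c.unpair.2) ∨
  (b.unpair.1 = 3 ∧ M3 k a k.unpair.2.unpair.1 k.unpair.2.unpair.2
    b.unpair.2.unpair.2.unpair.1 b.unpair.2.unpair.2.unpair.2 c)

lemma pm_iff (k a : ℕ) : ¬ (lget a 0 = k.unpair.1 ∧ (∀ i < k, G1 a i ∧ G2 a i) ∧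
    G3 k a k.unpair.2.unpair.1 k.unpair.2.unpair.2) ↔ ∃ b, ∀ c, PM k a b c := by
  constructor
  · intro h
    by_cases h0 : lget a 0 = k.unpair.1
    · by_cases h1 : ∀ i < k, G1 a i ∧ G2 a i
      · have h2 : ¬ G3 k a k.unpair.2.unpair.1 k.unpair.2.unpair.2 := fun h3 => h ⟨h0, h1, h3⟩
        obtain ⟨n, s, h3⟩ := (not_G3 _ _ _ _).1 h2
        refine ⟨Nat.pair 3 (Nat.pair 0 (Nat.pair n s)), fun c => Or.inr (Or.inr (Or.inr ?_))⟩
        simp only [Nat.unpair_pair]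
        exact ⟨trivial, h3 c⟩
      · push Not at h1
        obtain ⟨i, hi, h2⟩ := h1
        by_cases h3 : G1 a i
        · obtain ⟨n, s, h4⟩ := (not_G2 a i).1 (h2 h3)
          refine ⟨Nat.pair 2 (Nat.pair i (Nat.pair n s)), fun c => Or.inr (Or.inr (Or.inl ?_))⟩
          simp only [Nat.unpair_pair]
          exact ⟨trivial, hi, h4 _ _⟩
        · obtain ⟨n, s, h4⟩ := (not_G1 a i).1 h3
          refine ⟨Nat.pair 1 (Nat.pair i (Nat.pair n s)), fun c => Or.inr (Or.inl ?_)⟩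
          simp only [Nat.unpair_pair]
          exact ⟨trivial, hi, h4 _⟩
    · exact ⟨Nat.pair 0 0, fun c => Or.inl ⟨by simp only [Nat.unpair_pair], h0⟩⟩
  · rintro ⟨b, hb⟩ ⟨h0, h1, h2⟩
    rcases hb 0 with ⟨ht, h3⟩ | ⟨ht, hi, -⟩ | ⟨ht, hi, -⟩ | ⟨ht, -⟩
    · exact h3 h0
    · refine (not_G1 a _).2 ⟨b.unpair.2.unpair.2.unpair.1, b.unpair.2.unpair.2.unpair.2, fun c => ?_⟩ (h1 _ hi).1
      · rcases hb c with ⟨ht', _⟩ | ⟨_, _, h3⟩ | ⟨ht', _⟩ | ⟨ht', _⟩
        · omega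
        · exact h3
        · omega
        · omega
    · refine (not_G2 a _).2 ⟨b.unpair.2.unpair.2.unpair.1, b.unpair.2.unpair.2.unpair.2, fun u v => ?_⟩ (h1 _ hi).2
      · rcases hb (Nat.pair u v) with ⟨ht', _⟩ | ⟨ht', _⟩ | ⟨_, _, h3⟩ | ⟨ht', _⟩
        · omega
        · omega
        · simpa only [Nat.unpair_pair] using h3
        · omega
    · refine (not_G3 k a _ _).2 ⟨b.unpair.2.unpair.2.unpair.1, b.unpair.2.unpair.2.unpair.2, fun c => ?_⟩ h2
      · rcases hb c with ⟨ht', _⟩ | ⟨ht', _⟩ | ⟨ht', _⟩ | ⟨_, h3⟩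
        · omega
        · omega
        · omega
        · exact h3

/-! ### complexity -/

lemma c1 {f : ℕ → ℕ} (hf : RecT ∅ f) : RecT ∅ (fun w => f w.unpair.1) :=
  Pool.Agent.Helper743.RecT.comp hf (RecT.fst recT_id)

lemma rp_DX {a i n k : ℕ → ℕ} (ha : RecT ∅ a) (hi : RecT ∅ i) (hn : RecT ∅ n) (hk : RecT ∅ k) :
    RP ∅ (fun z => DX (a z) (i z) (n z) (k z)) := by
  unfold DX
  exact RP.bex' (p := fun z j => D (lget (a z) j) (n z) (k z))
    (rp_D (RecT.lget (c1 ha) (RecT.snd recT_id)) (c1 hn) (c1 hk)) hi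

lemma re_In {a i n s : ℕ → ℕ} (ha : RecT ∅ a) (hi : RecT ∅ i) (hn : RecT ∅ n) (hs : RecT ∅ s) :
    REPred (fun z => In (DX (a z) (i z)) (n z) (s z)) := by
  unfold In
  refine REPred.ex' (p := fun z m => n z ≤ m ∧ ∀ t < 2 ^ m, t % 2 ^ (n z) = s z →
    DX (a z) (i z) m t) (rp_re (RP.and (RP.le (c1 hn) (RecT.snd recT_id)) ?_))
  exact RP.ball' (p := fun w t => t % 2 ^ (n w.unpair.1) = s w.unpair.1 →
    DX (a w.unpair.1) (i w.unpair.1) w.unpair.2 t)
    (RP.imp (RP.eq (RecT.mod (RecT.snd recT_id) (RecT.twopow (c1 (c1 hn)))) (c1 (c1 hs)))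
      (rp_DX (c1 (c1 ha)) (c1 (c1 hi)) (RecT.snd (RecT.fst recT_id)) (RecT.snd recT_id)))
    (RecT.twopow (RecT.snd recT_id))

lemma rp_M1 {a i n t c : ℕ → ℕ} (ha : RecT ∅ a) (hi : RecT ∅ i) (hn : RecT ∅ n) (ht : RecT ∅ t)
    (hc : RecT ∅ c) : RP ∅ (fun z => M1 (a z) (i z) (n z) (t z) (c z)) := by
  unfold M1
  refine RP.and (RP.lt ht (RecT.twopow hn)) (RP.and
    (rp_D (RecT.lget ha (RecT.add hi (recT_const 1))) hn ht) (RP.and
    (rp_D (RecT.lget ha hi) hn ht) (RP.or (RP.lt hc hn) ?_)))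
  exact RP.bex' (p := fun z r => r % 2 ^ (n z) = t z ∧ ¬ DX (a z) (i z) (c z) r)
    (RP.and (RP.eq (RecT.mod (RecT.snd recT_id) (RecT.twopow (c1 hn))) (c1 ht))
      (RP.not (rp_DX (c1 ha) (c1 hi) (c1 hc) (RecT.snd recT_id)))) (RecT.twopow hc)

lemma re_M2 {a i n s u v : ℕ → ℕ} (ha : RecT ∅ a) (hi : RecT ∅ i) (hn : RecT ∅ n)
    (hs : RecT ∅ s) (hu : RecT ∅ u) (hv : RecT ∅ v) :
    REPred (fun z => M2 (a z) (i z) (n z) (s z) (u z) (v z)) := by
  unfold M2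
  refine REPred.and' (rp_re (RP.lt hs (RecT.twopow hn))) (REPred.and' (REPred.or' (rp_re ?_)
    (re_In ha hi hu hv)) (rp_re (RP.or (RP.lt hu hn) ?_)))
  · exact RP.or (RP.lt hu hn) (RP.or (RP.not (RP.lt hv (RecT.twopow hu))) (RP.or
      (RP.not (RP.eq (RecT.mod hv (RecT.twopow hn)) hs)) (RP.not (rp_D (RecT.lget ha hi) hu hv))))
  · exact RP.bex' (p := fun z r => r % 2 ^ (n z) = s z ∧ ¬ D (lget (a z) (i z + 1)) (u z) r)
      (RP.and (RP.eq (RecT.mod (RecT.snd recT_id) (RecT.twopow (c1 hn))) (c1 hs))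
        (RP.not (rp_D (RecT.lget (c1 ha) (RecT.add (c1 hi) (recT_const 1))) (c1 hu)
          (RecT.snd recT_id)))) (RecT.twopow hu)

lemma re_M3 {k a A U n s c : ℕ → ℕ} (hk : RecT ∅ k) (ha : RecT ∅ a) (hA : RecT ∅ A)
    (hU : RecT ∅ U) (hn : RecT ∅ n) (hs : RecT ∅ s) (hc : RecT ∅ c) :
    REPred (fun z => M3 (k z) (a z) (A z) (U z) (n z) (s z) (c z)) := by
  unfold M3
  refine REPred.and' (rp_re (RP.lt hs (RecT.twopow hn))) (REPred.and' (rp_re (rp_D hA hn hs))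
    (REPred.and' (rp_re (rp_DX ha (RecT.add hk (recT_const 1)) hn hs))
    (REPred.or' (rp_re (RP.lt hc hn)) ?_)))
  refine REPred.ex' (p := fun z m => ∃ r < 2 ^ m, c z ≤ m ∧ r % 2 ^ (n z) = s z ∧
    ¬ DX (a z) (k z) (c z) (r % 2 ^ (c z)) ∧ ¬ D (U z) (c z) (r % 2 ^ (c z)) ∧ D (U z) m r)
    (rp_re ?_)
  refine RP.bex' (p := fun w r => c w.unpair.1 ≤ w.unpair.2 ∧ r % 2 ^ (n w.unpair.1) = s w.unpair.1 ∧
    ¬ DX (a w.unpair.1) (k w.unpair.1) (c w.unpair.1) (r % 2 ^ (c w.unpair.1)) ∧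
    ¬ D (U w.unpair.1) (c w.unpair.1) (r % 2 ^ (c w.unpair.1)) ∧ D (U w.unpair.1) w.unpair.2 r)
    ?_ (RecT.twopow (RecT.snd recT_id))
  have hr : RecT ∅ (fun w : ℕ => w.unpair.2) := RecT.snd recT_id
  have hm : RecT ∅ (fun w : ℕ => w.unpair.1.unpair.2) := RecT.snd (RecT.fst recT_id)
  have hrc : RecT ∅ (fun w : ℕ => w.unpair.2 % 2 ^ (c w.unpair.1.unpair.1)) :=
    RecT.mod hr (RecT.twopow (c1 (c1 hc)))
  exact RP.and (RP.le (c1 (c1 hc)) hm) (RP.and (RP.eq (RecT.mod hr (RecT.twopow (c1 (c1 hn))))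
    (c1 (c1 hs))) (RP.and (RP.not (rp_DX (c1 (c1 ha)) (c1 (c1 hk)) (c1 (c1 hc)) hrc))
    (RP.and (RP.not (rp_D (c1 (c1 hU)) (c1 (c1 hc)) hrc)) (rp_D (c1 (c1 hU)) hm hr))))

lemma re_PM : REPred (fun z : ℕ => PM z.unpair.1 z.unpair.2.unpair.1 z.unpair.2.unpair.2.unpair.1
    z.unpair.2.unpair.2.unpair.2) := by
  have hk : RecT ∅ (fun z : ℕ => z.unpair.1) := RecT.fst recT_id
  have ha : RecT ∅ (fun z : ℕ => z.unpair.2.unpair.1) := RecT.fst (RecT.snd recT_id)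
  have hb : RecT ∅ (fun z : ℕ => z.unpair.2.unpair.2.unpair.1) :=
    RecT.fst (RecT.snd (RecT.snd recT_id))
  have hc : RecT ∅ (fun z : ℕ => z.unpair.2.unpair.2.unpair.2) :=
    RecT.snd (RecT.snd (RecT.snd recT_id))
  have hb1 := RecT.fst hb
  have hbi := RecT.fst (RecT.snd hb)
  have hbn := RecT.fst (RecT.snd (RecT.snd hb))
  have hbs := RecT.snd (RecT.snd (RecT.snd hb))
  unfold PM
  refine REPred.or' (rp_re (RP.and (RP.eq hb1 (recT_const 0)) (RP.ne (RecT.lget ha (recT_const 0))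
    (RecT.fst hk)))) (REPred.or' (rp_re ?_) (REPred.or' ?_ ?_))
  · exact RP.and (RP.eq hb1 (recT_const 1)) (RP.and (RP.lt hbi hk) (rp_M1 ha hbi hbn hbs hc))
  · exact REPred.and' (rp_re (RP.eq hb1 (recT_const 2))) (REPred.and' (rp_re (RP.lt hbi hk))
      (re_M2 ha hbi hbn hbs (RecT.fst hc) (RecT.snd hc)))
  · exact REPred.and' (rp_re (RP.eq hb1 (recT_const 3)))
      (re_M3 hk ha (RecT.fst (RecT.snd hk)) (RecT.snd (RecT.snd hk)) hbn hbs hc)

end L1N

open L1N in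
theorem l1_normal : ∃ P : ℕ → Prop, REPred P ∧ ∀ k : ℕ,
    (¬ Psi k (oo k.unpair.1) (oo k.unpair.2.unpair.1) (oo k.unpair.2.unpair.2)) ↔
      ∀ a, ∃ b, ∀ c, P (Nat.pair k (Nat.pair a (Nat.pair b c))) := by
  refine ⟨_, re_PM, fun k => ?_⟩
  rw [psi_iff, not_exists]
  refine forall_congr' fun a => ?_
  rw [pm_iff]
  refine exists_congr fun b => forall_congr' fun c => ?_
  simp only [Nat.unpair_pair]

end Pool.Agent.Helper206.PC
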