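import Pool.Agent.Helper206.PC.Base

set_option autoImplicit false

/-! The state machine and the ladder in `L2`. -/

namespace Pool.Agent.Helper206.PC

open Pool.Agent.Helper743 (RecT)
open Pool.Agent.H166R3.HD
open Nat.Partrec (Code)
open scoped Classical

/-- new state -/
def fnx (j i : ℕ) : ℕ := if i.unpair.1 + 2 ≤ j then i.unpair.1 else j

/-- one step of the machine: `s = pair 0 i`: no one has been read, `s = pair (j+1) i`: the state is
`j`, and `i` zeros have been read since the last one -/
def stp (s b : ℕ) : ℕ :=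
  if b = 0 then Nat.pair s.unpair.1 (s.unpair.2 + 1)
  else if s.unpair.1 = 0 then Nat.pair (s.unpair.2.unpair.1 + 1) 0
  else Nat.pair (fnx (s.unpair.1 - 1) s.unpair.2 + 1) 0

/-- the state of the machine after reading `n` bits of `x` -/
def St (x : ℕ → Bool) : ℕ → ℕ
  | 0 => Nat.pair 0 0
  | n + 1 => stp (St x n) (x n).toNat

/-- the same, from the code of the string -/
def Sn (k : ℕ) : ℕ → ℕ
  | 0 => Nat.pair 0 0
  | n + 1 => stp (Sn k n) (k / 2 ^ n % 2)

lemma St_eq (x : ℕ → Bool) {m n : ℕ} (h : n ≤ m) : Sn (enc x m) n = St x n := by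
  induction n with
  | zero => rfl
  | succ n ih => rw [Sn, St, ih (by omega), enc_bit x (by omega)]

lemma St_congr {x y : ℕ → Bool} {n : ℕ} (h : ∀ i < n, x i = y i) : St x n = St y n := by
  rw [← St_eq x le_rfl, ← St_eq y le_rfl, enc_congr h]

lemma recT_Sn : RecT ∅ (fun z : ℕ => Sn z.unpair.1 z.unpair.2) := by
  have h1 : RecT ∅ (fun w : ℕ => stp w.unpair.2.unpair.2 (w.unpair.1 / 2 ^ w.unpair.2.unpair.1 % 2)) := by
    unfold stp fnx
    refine RecT.ite' (by with_reducible repeat' first | assumption | exact recT_id | exact recT_const _ | exact RP.const _ | apply RecT.fst | apply RecT.snd | apply RecT.pair' | apply RecT.add | apply RecT.sub | apply RecT.mul | apply RecT.div | apply RecT.mod | apply RecT.twopow | apply RP.halt | apply RP.evalEq | apply RP.eq | apply RP.ne | apply RP.lt | apply RP.le | apply RP.and | apply RP.or | apply RP.not | apply RP.bex' | apply RP.ball' | apply RP.bexle | apply RP.ballle | apply RP.imp | apply RP.iff) (by with_reducible repeat' first | assumption | exact recT_id | exact recT_const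 _ | exact RP.const _ | apply RecT.fst | apply RecT.snd | apply RecT.pair' | apply RecT.add | apply RecT.sub | apply RecT.mul | apply RecT.div | apply RecT.mod | apply RecT.twopow | apply RP.halt | apply RP.evalEq | apply RP.eq | apply RP.ne | apply RP.lt | apply RP.le | apply RP.and | apply RP.or | apply RP.not | apply RP.bex' | apply RP.ball' | apply RP.bexle | apply RP.ballle | apply RP.imp | apply RP.iff) (RecT.ite' (by with_reducible repeat' first | assumption | exact recT_id | exact recT_const _ | exact RP.const _ | apply RecT.fst | apply RecT.snd | apply RecT.pair' | apply RecT.add | apply RecT.sub | apply RecT.mul | apply RecT.div | apply RecT.mod | apply RecT.twopow | apply RP.halt | apply RP.evalEq | apply RP.eq | apply RP.ne | apply RP.lt | apply RP.le | apply RP.and | apply RP.or | apply RP.not | apply RP.bex' | apply RP.ball' | apply RP.bexle | apply RP.ballle | apply RP.imp | apply RP.iff) (by with_reducible repeat' first | assumption | exact recT_id | exact recT_const _ | exact RP.const _ | apply RecT.fst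 | apply RecT.snd | apply RecT.pair' | apply RecT.add | apply RecT.sub | apply RecT.mul | apply RecT.div | apply RecT.mod | apply RecT.twopow | apply RP.halt | apply RP.evalEq | apply RP.eq | apply RP.ne | apply RP.lt | apply RP.le | apply RP.and | apply RP.or | apply RP.not | apply RP.bex' | apply RP.ball' | apply RP.bexle | apply RP.ballle | apply RP.imp | apply RP.iff) ?_)
    refine RecT.pair' (RecT.add (RecT.ite' (by with_reducible repeat' first | assumption | exact recT_id | exact recT_const _ | exact RP.const _ | apply RecT.fst | apply RecT.snd | apply RecT.pair' | apply RecT.add | apply RecT.sub | apply RecT.mul | apply RecT.div | apply RecT.mod | apply RecT.twopow | apply RP.halt | apply RP.evalEq | apply RP.eq | apply RP.ne | apply RP.lt | apply RP.le | apply RP.and | apply RP.or | apply RP.not | apply RP.bex' | apply RP.ball' | apply RP.bexle | apply RP.ballle | apply RP.imp | apply RP.iff) (by with_reducible repeat' first | assumption | exact recT_id | exact recT_const _ | exact RP.const _ | apply RecT.fst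 | apply RecT.snd | apply RecT.pair' | apply RecT.add | apply RecT.sub | apply RecT.mul | apply RecT.div | apply RecT.mod | apply RecT.twopow | apply RP.halt | apply RP.evalEq | apply RP.eq | apply RP.ne | apply RP.lt | apply RP.le | apply RP.and | apply RP.or | apply RP.not | apply RP.bex' | apply RP.ball' | apply RP.bexle | apply RP.ballle | apply RP.imp | apply RP.iff) (by with_reducible repeat' first | assumption | exact recT_id | exact recT_const _ | exact RP.const _ | apply RecT.fst | apply RecT.snd | apply RecT.pair' | apply RecT.add | apply RecT.sub | apply RecT.mul | apply RecT.div | apply RecT.mod | apply RecT.twopow | apply RP.halt | apply RP.evalEq | apply RP.eq | apply RP.ne | apply RP.lt | apply RP.le | apply RP.and | apply RP.or | apply RP.not | apply RP.bex' | apply RP.ball' | apply RP.bexle | apply RP.ballle | apply RP.imp | apply RP.iff)) (by with_reducible repeat' first | assumption | exact recT_id | exact recT_const _ | exact RP.const _ | apply RecT.fst | apply RecT.snd | apply RecT.pair' | apply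 RecT.add | apply RecT.sub | apply RecT.mul | apply RecT.div | apply RecT.mod | apply RecT.twopow | apply RP.halt | apply RP.evalEq | apply RP.eq | apply RP.ne | apply RP.lt | apply RP.le | apply RP.and | apply RP.or | apply RP.not | apply RP.bex' | apply RP.ball' | apply RP.bexle | apply RP.ballle | apply RP.imp | apply RP.iff)) (by with_reducible repeat' first | assumption | exact recT_id | exact recT_const _ | exact RP.const _ | apply RecT.fst | apply RecT.snd | apply RecT.pair' | apply RecT.add | apply RecT.sub | apply RecT.mul | apply RecT.div | apply RecT.mod | apply RecT.twopow | apply RP.halt | apply RP.evalEq | apply RP.eq | apply RP.ne | apply RP.lt | apply RP.le | apply RP.and | apply RP.or | apply RP.not | apply RP.bex' | apply RP.ball' | apply RP.bexle | apply RP.ballle | apply RP.imp | apply RP.iff)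
  have h2 := Pool.Agent.Helper743.RecT.prec (recT_const (O := ∅) (Nat.pair 0 0)) h1
  refine RecT.congr h2 fun z => ?_
  simp only [Nat.unpair_pair]
  generalize z.unpair.2 = n
  induction n with
  | zero => rfl
  | succ n ih => simp only [ih]; rfl

/-- the state shifted by one; zero: none -/
def st (x : ℕ → Bool) (n : ℕ) : ℕ := (St x n).unpair.1
/-- the counter -/
def ct (x : ℕ → Bool) (n : ℕ) : ℕ := (St x n).unpair.2

lemma st_false {x : ℕ → Bool} {n : ℕ} (h : x n = false) : st x (n + 1) = st x n := by
  unfold st; rw [St]; simp [stp, h]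

lemma ct_false {x : ℕ → Bool} {n : ℕ} (h : x n = false) : ct x (n + 1) = ct x n + 1 := by
  unfold ct; rw [St]; simp [stp, h]

lemma st_true0 {x : ℕ → Bool} {n : ℕ} (h : x n = true) (h0 : st x n = 0) :
    st x (n + 1) = (ct x n).unpair.1 + 1 := by
  unfold st at h0
  unfold st ct; rw [St]; simp [stp, h, h0]

lemma st_true {x : ℕ → Bool} {n j : ℕ} (h : x n = true) (h0 : st x n = j + 1) :
    st x (n + 1) = fnx j (ct x n) + 1 := by
  unfold st at h0
  unfold st ct; rw [St]; simp [stp, h, h0]

lemma fnx_spec (j i : ℕ) : fnx j i = j ∨ fnx j i + 2 ≤ j := by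
  unfold fnx
  split_ifs with h
  · right; exact h
  · left; rfl

lemma st_step {x : ℕ → Bool} {n j : ℕ} (h : st x n = j + 1) :
    ∃ j', st x (n + 1) = j' + 1 ∧ (j' = j ∨ j' + 2 ≤ j) := by
  cases hx : x n with
  | false => exact ⟨j, by rw [st_false hx, h], Or.inl rfl⟩
  | true => exact ⟨_, st_true hx h, fnx_spec _ _⟩

lemma st_mono {x : ℕ → Bool} {n j : ℕ} (h : st x n = j + 1) {m : ℕ} (hm : n ≤ m) :
    ∃ j', st x m = j' + 1 ∧ (j' = j ∨ j' + 2 ≤ j) := by
  induction m, hm using Nat.le_induction with
  | base => exact ⟨j, h, Or.inl rfl⟩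
  | succ m _ ih =>
    obtain ⟨j1, h1, h2⟩ := ih
    obtain ⟨j2, h3, h4⟩ := st_step h1
    exact ⟨j2, h3, by omega⟩

/-- continue with zeros -/
lemma reach0 {x : ℕ → Bool} {N j : ℕ} (h : st x N = j + 1) :
    ∃ x' : ℕ → Bool, (∀ i < N, x' i = x i) ∧ ∀ n ≥ N, st x' n = j + 1 := by
  refine ⟨fun i => if i < N then x i else false, fun i hi => by simp [hi], fun n hn => ?_⟩
  induction n, hn using Nat.le_induction with
  | base =>
    rw [← h]; unfold st
    rw [St_congr (y := x)]
    intro i hi; simp [hi]
  | succ n hn ih =>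
    rw [st_false (by simp; omega), ih]

/-- every lower state except the next one is reachable -/
lemma reach {x : ℕ → Bool} {N j r : ℕ} (h : st x N = j + 1) (hr : r = j ∨ r + 2 ≤ j) :
    ∃ x' : ℕ → Bool, (∀ i < N, x' i = x i) ∧ ∃ N' ≥ N, ∀ n ≥ N', st x' n = r + 1 := by
  rcases hr with rfl | hr
  · obtain ⟨x', h1, h2⟩ := reach0 h
    exact ⟨x', h1, N, le_rfl, h2⟩
  · set q := Nat.pair r (ct x N) - ct x N with hq
    let y : ℕ → Bool := fun i => if i < N then x i else decide (i = N + q)
    have hy : ∀ i < N, y i = x i := fun i hi => by simp [y, hi]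
    have h3 : ∀ t ≤ q, st y (N + t) = j + 1 ∧ ct y (N + t) = ct x N + t := by
      intro t
      induction t with
      | zero =>
        intro _
        rw [Nat.add_zero, ← h]
        unfold st ct
        rw [St_congr hy]
        exact ⟨rfl, rfl⟩
      | succ t ih =>
        intro ht
        obtain ⟨h4, h5⟩ := ih (by omega)
        have h6 : y (N + t) = false := by
          have h7 : ¬ (N + t < N) := by omega
          have h8 : ¬ (t = q) := by omega
          simp [y, h8]
        rw [← Nat.add_assoc, st_false h6, ct_false h6, h4, h5]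
        exact ⟨rfl, by omega⟩
    obtain ⟨h4, h5⟩ := h3 q le_rfl
    have h6 : y (N + q) = true := by simp [y]
    have h7 := st_true h6 h4
    have h8 : ct x N ≤ Nat.pair r (ct x N) := Nat.right_le_pair _ _
    have h9 : ct x N + q = Nat.pair r (ct x N) := by omega
    rw [h5, h9] at h7
    have h10 : fnx j (Nat.pair r (ct x N)) = r := by
      unfold fnx
      rw [Nat.unpair_pair]
      exact if_pos hr
    rw [h10] at h7
    obtain ⟨x', h11, h12⟩ := reach0 h7
    exact ⟨x', fun i hi => by rw [h11 i (by omega), hy i hi], N + q + 1, by omega, h12⟩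

/-- the open set of the points which reach a state in `G` -/
def OG (G : ℕ → Prop) : Set (ℕ → Bool) := {x | ∃ n j, st x n = j + 1 ∧ G j}

lemma co_OG {G : ℕ → Prop} (hG : RP ∅ G) : CO (OG G) := by
  have h1 : OG G = {x | ∃ n, (Sn (enc x n) n).unpair.1 ≠ 0 ∧ G ((Sn (enc x n) n).unpair.1 - 1)} := by
    ext x
    unfold OG
    simp only [Set.mem_ofPred_eq]
    refine exists_congr fun n => ?_
    rw [St_eq x le_rfl]
    show _ ↔ st x n ≠ 0 ∧ G (st x n - 1)
    constructor
    · rintro ⟨j, h, hj⟩
      rw [h]; exact ⟨by omega, by simpa using hj⟩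
    · rintro ⟨h, hj⟩
      exact ⟨st x n - 1, by omega, hj⟩
  rw [h1]
  refine co_of_re' (V := fun n k => (Sn k n).unpair.1 ≠ 0 ∧ G ((Sn k n).unpair.1 - 1)) (rp_re ?_)
  have h2 : RecT ∅ (fun z : ℕ => (Sn z.unpair.2 z.unpair.1).unpair.1) := by
    refine RecT.fst ?_
    refine RecT.congr (Pool.Agent.Helper743.RecT.comp recT_Sn
      (RecT.pair' (RecT.snd recT_id) (RecT.fst recT_id))) fun z => ?_
    simp
  exact RP.and (RP.ne h2 (recT_const 0)) (RP.comp hG (RecT.sub h2 (recT_const 1)))

lemma st_zero (n : ℕ) : st (fun _ => false) n = 0 := by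
  induction n with
  | zero => simp [st, St]
  | succ n ih => rw [st_false rfl, ih]

lemma zero_not_mem_OG (G : ℕ → Prop) : (fun _ => false) ∉ OG G := by
  rintro ⟨n, j, h, -⟩
  rw [st_zero] at h
  omega

/-- the elements of the ladder -/
def YY (i : ℕ) : L2 := ⟨OG (fun j => j + 2 ≤ i ∨ j = i), co_OG (by with_reducible repeat' first | assumption | exact recT_id | exact recT_const _ | exact RP.const _ | apply RecT.fst | apply RecT.snd | apply RecT.pair' | apply RecT.add | apply RecT.sub | apply RecT.mul | apply RecT.div | apply RecT.mod | apply RecT.twopow | apply RP.halt | apply RP.evalEq | apply RP.eq | apply RP.ne | apply RP.lt | apply RP.le | apply RP.and | apply RP.or | apply RP.not | apply RP.bex' | apply RP.ball' | apply RP.bexle | apply RP.ballle | apply RP.imp | apply RP.iff), zero_not_mem_OG _⟩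

/-- their sums -/
def XX (i : ℕ) : L2 := ⟨OG (fun j => j < i), co_OG (by with_reducible repeat' first | assumption | exact recT_id | exact recT_const _ | exact RP.const _ | apply RecT.fst | apply RecT.snd | apply RecT.pair' | apply RecT.add | apply RecT.sub | apply RecT.mul | apply RecT.div | apply RecT.mod | apply RecT.twopow | apply RP.halt | apply RP.evalEq | apply RP.eq | apply RP.ne | apply RP.lt | apply RP.le | apply RP.and | apply RP.or | apply RP.not | apply RP.bex' | apply RP.ball' | apply RP.bexle | apply RP.ballle | apply RP.imp | apply RP.iff), zero_not_mem_OG _⟩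

lemma Xs_YY (i : ℕ) : Xs YY i = XX i := by
  induction i with
  | zero =>
    refine Subtype.ext ?_
    show (∅ : Set (ℕ → Bool)) = OG (fun j => j < 0)
    symm
    rw [Set.eq_empty_iff_forall_notMem]
    rintro x ⟨n, j, -, h⟩
    exact absurd h (Nat.not_lt_zero _)
  | succ i ih =>
    refine Subtype.ext ?_
    show (Xs YY i).1 ∪ (YY i).1 = OG (fun j => j < i + 1)
    rw [ih]
    ext x
    constructor
    · rintro (⟨n, j, h1, h2⟩ | ⟨n, j, h1, h2⟩)
      · exact ⟨n, j, h1, by omega⟩
      · exact ⟨n, j, h1, by omega⟩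
    · rintro ⟨n, j, h1, h2⟩
      rcases Nat.lt_succ_iff_lt_or_eq.1 h2 with h3 | h3
      · exact Or.inl ⟨n, j, h1, h3⟩
      · exact Or.inr ⟨n, j, h1, Or.inr h3⟩

/-- points of a c.e. open set have a neighbourhood in it -/
lemma CO.nbhd {X : Set (ℕ → Bool)} (hX : CO X) {x : ℕ → Bool} (hx : x ∈ X) :
    ∃ N, ∀ x' : ℕ → Bool, (∀ i < N, x' i = x i) → x' ∈ X := by
  obtain ⟨e, rfl⟩ := hX
  obtain ⟨N, hN⟩ := hx
  exact ⟨N, fun x' h => ⟨N, by rw [enc_congr h]; exact hN⟩⟩

/-- before the first one the state is none -/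
lemma exists_st {x : ℕ → Bool} (hx : x ≠ fun _ => false) : ∃ n j, st x n = j + 1 := by
  by_contra hcon
  push Not at hcon
  have h0 : ∀ n, st x n = 0 := by
    intro n
    by_contra h
    exact hcon n (st x n - 1) (by omega)
  obtain ⟨i, hi⟩ := Function.ne_iff.1 hx
  have h1 : x i = true := by simpa using hi
  have := st_true0 h1 (h0 i)
  rw [h0] at this
  omega

theorem isGreatest_YY (i : ℕ) : IsGreatest {y : L2 | y ⊓ YY i ≤ Xs YY i} (YY (i + 1)) := by
  rw [Xs_YY]
  constructor
  · show (YY (i + 1)).1 ∩ (YY i).1 ⊆ (XX i).1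
    rintro x ⟨⟨n, j, h1, h2⟩, ⟨m, l, h3, h4⟩⟩
    obtain ⟨j1, h5, h6⟩ := st_mono h1 (le_max_left n m)
    obtain ⟨l1, h7, h8⟩ := st_mono h3 (le_max_right n m)
    rw [h5] at h7
    refine ⟨max n m, j1, h5, ?_⟩
    show j1 < i
    omega
  · rintro ⟨y, hy, hy0⟩ hyi x hx
    have hyi' : ∀ z, z ∈ y → z ∈ (YY i).1 → z ∈ (XX i).1 := fun z h1 h2 => hyi ⟨h1, h2⟩
    by_contra hcon
    have hx0 : x ≠ fun _ => false := fun h => hy0 (h ▸ hx)
    obtain ⟨n0, j0, hj0⟩ := exists_st hx0
    obtain ⟨N, hN⟩ := hy.nbhd hx
    obtain ⟨j, hj, -⟩ := st_mono hj0 (le_max_left n0 N)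
    have hj2 : ¬ (j + 2 ≤ i + 1 ∨ j = i + 1) := fun h => hcon ⟨_, j, hj, h⟩
    obtain ⟨x', h1, N', hN', h2⟩ := reach (r := i) hj (by omega)
    have h3 : x' ∈ y := hN x' fun t ht => h1 t (lt_of_lt_of_le ht (le_max_right _ _))
    have h4 : x' ∈ (YY i).1 := ⟨N', i, h2 N' le_rfl, Or.inr rfl⟩
    obtain ⟨m, l, h5, h6⟩ := hyi' x' h3 h4
    obtain ⟨l', h7, h8⟩ := st_mono h5 (le_max_left m N')
    rw [h2 _ (le_max_right m N')] at h7
    have h9 : l < i := h6
    omega

/-- the chain is unique -/
theorem chain_unique {k : ℕ} {Y : ℕ → L2} (h0 : Y 0 = YY 0)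
    (h1 : ∀ i < k, IsGreatest {y | y ⊓ Y i ≤ Xs Y i} (Y (i + 1))) :
    ∀ i ≤ k, Y i = YY i ∧ Xs Y i = Xs YY i := by
  intro i
  induction i with
  | zero => intro _; exact ⟨h0, rfl⟩
  | succ i ih =>
    intro hi
    obtain ⟨h2, h3⟩ := ih (by omega)
    have h4 := h1 i (by omega)
    rw [h2, h3] at h4
    refine ⟨h4.unique (isGreatest_YY i), ?_⟩
    show Xs Y i ⊔ Y i = Xs YY i ⊔ YY i
    rw [h2, h3]

theorem Psi_L2_iff (k : ℕ) (A U : L2) : Psi k (YY 0) A U ↔
    ∀ b : L2, IsComplemented b → b ≤ A ⊓ XX (k + 1) →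
      ∃ c d, IsComplemented c ∧ IsComplemented d ∧ b ≤ c ⊔ d ∧ c ≤ XX k ∧
        IsComplemented (d ⊓ U) := by
  constructor
  · rintro ⟨Y, h0, h1, h2⟩
    have h3 := chain_unique h0 h1
    have h4 : Xs Y k = XX k := by rw [(h3 k le_rfl).2, Xs_YY]
    have h5 : Xs Y (k + 1) = XX (k + 1) := by
      rw [← Xs_YY]
      show Xs Y k ⊔ Y k = Xs YY k ⊔ YY k
      rw [(h3 k le_rfl).2, (h3 k le_rfl).1]
    rw [h4, h5] at h2
    exact h2
  · intro h
    refine ⟨YY, rfl, fun i _ => isGreatest_YY i, ?_⟩
    rw [Xs_YY, Xs_YY]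
    exact h

end Pool.Agent.Helper206.PC
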