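import Pool.Agent.Helper206.PC.L2a

set_option autoImplicit false

/-! The lattice `L2` realises the conditions given by pairs of c.e. sets. -/

namespace Pool.Agent.Helper206.PC

open Pool.Agent.Helper743 (RecT)
open Pool.Agent.H166R3.HD
open Nat.Partrec (Code)
open scoped Classical

/-- the first one of `x` is at place `m` -/
def Fib (x : ℕ → Bool) (m : ℕ) : Prop := x m = true ∧ ∀ i < m, x i = false

lemma Fib.unique {x : ℕ → Bool} {m n : ℕ} (h : Fib x m) (h' : Fib x n) : m = n := by
  rcases lt_trichotomy m n with h1 | h1 | h1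
  · have := h'.2 m h1; rw [h.1] at this; cases this
  · exact h1
  · have := h.2 n h1; rw [h'.1] at this; cases this

lemma Fib.exists {x : ℕ → Bool} (hx : x ≠ fun _ => false) : ∃ m, Fib x m := by
  obtain ⟨i, hi⟩ := Function.ne_iff.1 hx
  have h1 : ∃ i, x i = true := ⟨i, by simpa using hi⟩
  exact ⟨Nat.find h1, Nat.find_spec h1, fun j hj => by simpa using Nat.find_min h1 hj⟩

lemma Fib.ne {x : ℕ → Bool} {m : ℕ} (h : Fib x m) : x ≠ fun _ => false := by
  rintro rfl; exact absurd h.1 (by simp)

lemma enc_zeros {x : ℕ → Bool} {m : ℕ} (h : ∀ i < m, x i = false) : enc x m = 0 := by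
  have : enc x m = enc (fun _ => false) m := enc_congr h
  rw [this]
  clear this h
  induction m with
  | zero => rfl
  | succ n ih => rw [enc, ih]; simp

/-- the string `0^m 1 0^s` -/
def bas (m s : ℕ) : Set (ℕ → Bool) := {x | Fib x m ∧ ∀ i, m < i → i < m + 1 + s → x i = false}

/-- the point `0^m 1 0^ω` -/
def rpt (m : ℕ) : ℕ → Bool := fun i => decide (i = m)

lemma fib_rpt (m : ℕ) : Fib (rpt m) m := ⟨by simp [rpt], fun i hi => by simp [rpt]; omega⟩

lemma enc_rpt (m n : ℕ) : enc (rpt m) n = if m < n then 2 ^ m else 0 := by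
  induction n with
  | zero => rfl
  | succ n ih =>
    rw [enc, ih]
    rcases lt_trichotomy m n with h | h | h
    · have h1 : rpt m n = false := by simp [rpt]; omega
      rw [if_pos h, if_pos (by omega), h1]; simp
    · subst h
      have h1 : rpt m m = true := by simp [rpt]
      rw [if_neg (lt_irrefl _), if_pos (by omega), h1]; simp
    · have h1 : rpt m n = false := by simp [rpt]; omega
      rw [if_neg (by omega), if_neg (by omega), h1]; simp

lemma mem_bas_iff {x : ℕ → Bool} {m s : ℕ} : x ∈ bas m s ↔ enc x (m + 1 + s) = 2 ^ m := by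
  have h1 : 2 ^ m = enc (rpt m) (m + 1 + s) := by rw [enc_rpt, if_pos (by omega)]
  rw [h1, enc_eq_iff]
  unfold bas Fib rpt
  simp only [Set.mem_ofPred_eq]
  constructor
  · rintro ⟨⟨h2, h3⟩, h4⟩ i hi
    rcases lt_trichotomy i m with h | h | h
    · rw [h3 i h]; symm; simp; omega
    · subst h; rw [h2]; simp
    · rw [h4 i h hi]; symm; simp; omega
  · intro h
    refine ⟨⟨by rw [h m (by omega)]; simp, fun i hi => ?_⟩, fun i hi hi2 => ?_⟩
    · rw [h i (by omega)]; simp; omega
    · rw [h i hi2]; simp; omega

lemma fib_iff {x : ℕ → Bool} {m : ℕ} : Fib x m ↔ enc x (m + 1) = 2 ^ m := by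
  have h := mem_bas_iff (x := x) (m := m) (s := 0)
  rw [Nat.add_zero] at h
  rw [← h]
  unfold bas
  simp only [Set.mem_ofPred_eq, Nat.add_zero]
  exact ⟨fun h => ⟨h, fun i h1 h2 => by omega⟩, fun h => h.1⟩

/-- fibre sets -/
def FS (E : ℕ → Prop) : Set (ℕ → Bool) := {x | ∃ m, Fib x m ∧ E m}

lemma co_FS {E : ℕ → Prop} (hE : REPred E) : CO (FS E) := by
  have h1 : FS E = {x | ∃ n, (0 < n ∧ enc x n = 2 ^ (n - 1)) ∧ E (n - 1)} := by
    ext x
    unfold FS
    simp only [Set.mem_ofPred_eq]
    constructor
    · rintro ⟨m, hm, hE⟩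
      exact ⟨m + 1, ⟨by omega, by rw [fib_iff.1 hm]; simp⟩, by simpa using hE⟩
    · rintro ⟨n, ⟨hn, h⟩, hE⟩
      refine ⟨n - 1, ?_, hE⟩
      rw [fib_iff]
      have : n - 1 + 1 = n := by omega
      rw [this]; exact h
  rw [h1]
  refine co_of_re' (V := fun n k => (0 < n ∧ k = 2 ^ (n - 1)) ∧ E (n - 1)) ?_
  exact REPred.and' (rp_re (by with_reducible repeat' first | assumption | exact recT_id | exact recT_const _ | exact RP.const _ | apply RecT.fst | apply RecT.snd | apply RecT.pair' | apply RecT.add | apply RecT.sub | apply RecT.mul | apply RecT.div | apply RecT.mod | apply RecT.twopow | apply RP.halt | apply RP.evalEq | apply RP.eq | apply RP.ne | apply RP.lt | apply RP.le | apply RP.and | apply RP.or | apply RP.not | apply RP.bex' | apply RP.ball' | apply RP.bexle | apply RP.ballle | apply RP.imp | apply RP.iff)) (REPred.subst hE (by with_reducible repeat' first | assumption | exact recT_id | exact recT_const _ | exact RP.const _ | apply RecT.fst | apply RecT.snd | apply RecT.pair' | apply RecT.add | apply RecT.sub | apply RecT.mul | apply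 RecT.div | apply RecT.mod | apply RecT.twopow | apply RP.halt | apply RP.evalEq | apply RP.eq | apply RP.ne | apply RP.lt | apply RP.le | apply RP.and | apply RP.or | apply RP.not | apply RP.bex' | apply RP.ball' | apply RP.bexle | apply RP.ballle | apply RP.imp | apply RP.iff))

lemma zero_not_mem_FS (E : ℕ → Prop) : (fun _ => false) ∉ FS E := by
  rintro ⟨m, hm, -⟩
  exact hm.ne rfl

/-- complemented elements of `L2` -/
lemma compl_iff (x : L2) : IsComplemented x ↔ CO {z | z ≠ (fun _ => false) ∧ z ∉ x.1} := by
  constructor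
  · rintro ⟨y, hy⟩
    have h1 : {z | z ≠ (fun _ => false) ∧ z ∉ x.1} = y.1 := by
      ext z
      constructor
      · rintro ⟨h2, h3⟩
        have h4 : z ∈ (x ⊔ y).1 := by
          rw [hy.sup_eq_top]; exact h2
        rcases h4 with h4 | h4
        · exact absurd h4 h3
        · exact h4
      · intro h2
        refine ⟨fun h => y.2.2 (h ▸ h2), fun h3 => ?_⟩
        have h4 : z ∈ (x ⊓ y).1 := ⟨h3, h2⟩
        rw [hy.inf_eq_bot] at h4
        exact h4
    rw [h1]; exact y.2.1
  · intro h
    refine ⟨⟨_, h, fun h' => h'.1 rfl⟩, ?_⟩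
    refine IsCompl.of_eq (Subtype.ext ?_) (Subtype.ext ?_)
    · ext z
      constructor
      · rintro ⟨h1, -, h2⟩; exact absurd h1 h2
      · intro h; exact absurd h (Set.notMem_empty _)
    · ext z
      constructor
      · rintro (h1 | h1)
        · exact fun h2 => x.2.2 (h2 ▸ h1)
        · exact h1.1
      · intro h1
        by_cases h2 : z ∈ x.1
        · exact Or.inl h2
        · exact Or.inr ⟨h1, h2⟩

/-- the stage set for `U` -/
lemma co_U {q : ℕ → Prop} (hq : RP ∅ q) :
    CO {x : ℕ → Bool | ∃ m s, x ∈ bas m s ∧ q (Nat.pair m s)} := by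
  have h1 : {x : ℕ → Bool | ∃ m s, x ∈ bas m s ∧ q (Nat.pair m s)} =
      {x | ∃ n, ∃ m < n, ∃ s < n, n = m + 1 + s ∧ enc x n = 2 ^ m ∧ q (Nat.pair m s)} := by
    ext x
    simp only [Set.mem_ofPred_eq, mem_bas_iff]
    constructor
    · rintro ⟨m, s, h1, h2⟩
      exact ⟨m + 1 + s, m, by omega, s, by omega, rfl, h1, h2⟩
    · rintro ⟨n, m, -, s, -, rfl, h1, h2⟩
      exact ⟨m, s, h1, h2⟩
  rw [h1]
  refine co_of_re' (V := fun n k => ∃ m < n, ∃ s < n, n = m + 1 + s ∧ k = 2 ^ m ∧
    q (Nat.pair m s)) (rp_re ?_)
  refine RP.bex' (RP.bex' (RP.and (by with_reducible repeat' first | assumption | exact recT_id | exact recT_const _ | exact RP.const _ | apply RecT.fst | apply RecT.snd | apply RecT.pair' | apply RecT.add | apply RecT.sub | apply RecT.mul | apply RecT.div | apply RecT.mod | apply RecT.twopow | apply RP.halt | apply RP.evalEq | apply RP.eq | apply RP.ne | apply RP.lt | apply RP.le | apply RP.and | apply RP.or | apply RP.not | apply RP.bex' | apply RP.ball' | apply RP.bexle | apply RP.ballle | apply RP.imp | apply RP.iff) (RP.and (by with_reducible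 repeat' first | assumption | exact recT_id | exact recT_const _ | exact RP.const _ | apply RecT.fst | apply RecT.snd | apply RecT.pair' | apply RecT.add | apply RecT.sub | apply RecT.mul | apply RecT.div | apply RecT.mod | apply RecT.twopow | apply RP.halt | apply RP.evalEq | apply RP.eq | apply RP.ne | apply RP.lt | apply RP.le | apply RP.and | apply RP.or | apply RP.not | apply RP.bex' | apply RP.ball' | apply RP.bexle | apply RP.ballle | apply RP.imp | apply RP.iff) ?_)) (by with_reducible repeat' first | assumption | exact recT_id | exact recT_const _ | exact RP.const _ | apply RecT.fst | apply RecT.snd | apply RecT.pair' | apply RecT.add | apply RecT.sub | apply RecT.mul | apply RecT.div | apply RecT.mod | apply RecT.twopow | apply RP.halt | apply RP.evalEq | apply RP.eq | apply RP.ne | apply RP.lt | apply RP.le | apply RP.and | apply RP.or | apply RP.not | apply RP.bex' | apply RP.ball' | apply RP.bexle | apply RP.ballle | apply RP.imp | apply RP.iff)) (by with_reducible repeat' first | assumption | exact recT_id | exact recT_const _ | exact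 RP.const _ | apply RecT.fst | apply RecT.snd | apply RecT.pair' | apply RecT.add | apply RecT.sub | apply RecT.mul | apply RecT.div | apply RecT.mod | apply RecT.twopow | apply RP.halt | apply RP.evalEq | apply RP.eq | apply RP.ne | apply RP.lt | apply RP.le | apply RP.and | apply RP.or | apply RP.not | apply RP.bex' | apply RP.ball' | apply RP.bexle | apply RP.ballle | apply RP.imp | apply RP.iff)
  exact RP.comp hq (by with_reducible repeat' first | assumption | exact recT_id | exact recT_const _ | exact RP.const _ | apply RecT.fst | apply RecT.snd | apply RecT.pair' | apply RecT.add | apply RecT.sub | apply RecT.mul | apply RecT.div | apply RecT.mod | apply RecT.twopow | apply RP.halt | apply RP.evalEq | apply RP.eq | apply RP.ne | apply RP.lt | apply RP.le | apply RP.and | apply RP.or | apply RP.not | apply RP.bex' | apply RP.ball' | apply RP.bexle | apply RP.ballle | apply RP.imp | apply RP.iff)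

/-- the points outside `U` whose tail is not zero -/
def V4 (q : ℕ → Prop) : Set (ℕ → Bool) :=
  {x | ∃ m i, Fib x m ∧ x (m + 1 + i) = true ∧ ∀ s ≤ i, ¬ q (Nat.pair m s)}

lemma co_V4 {q : ℕ → Prop} (hq : RP ∅ q) : CO {x : ℕ → Bool | ∃ m i, (Fib x m ∧
    x (m + 1 + i) = true ∧ ∀ j < i, x (m + 1 + j) = false) ∧ ∀ s ≤ i, ¬ q (Nat.pair m s)} := by
  have key : ∀ (x : ℕ → Bool) (m i : ℕ), (Fib x m ∧ x (m + 1 + i) = true ∧
      ∀ j < i, x (m + 1 + j) = false) ↔ enc x (m + 1 + i + 1) = 2 ^ m + 2 ^ (m + 1 + i) := by
    intro x m i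
    let y : ℕ → Bool := fun t => decide (t = m ∨ t = m + 1 + i)
    have h1 : enc y (m + 1 + i + 1) = 2 ^ m + 2 ^ (m + 1 + i) := by
      rw [enc]
      have h2 : enc y (m + 1 + i) = enc (rpt m) (m + 1 + i) := by
        refine enc_congr fun t ht => ?_
        show decide (t = m ∨ t = m + 1 + i) = decide (t = m)
        rw [decide_eq_decide]; omega
      have h3 : y (m + 1 + i) = true := by
        show decide _ = true
        simp
      rw [h2, enc_rpt, if_pos (by omega), h3]
      simp
    rw [← h1, enc_eq_iff]
    constructor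
    · rintro ⟨⟨h2, h3⟩, h4, h5⟩ t ht
      show x t = decide (t = m ∨ t = m + 1 + i)
      by_cases ht1 : t = m ∨ t = m + 1 + i
      · rw [decide_eq_true ht1]
        rcases ht1 with rfl | rfl
        · exact h2
        · exact h4
      · rw [decide_eq_false ht1]
        rcases lt_or_ge t m with h | h
        · exact h3 t h
        · have := h5 (t - (m + 1)) (by omega)
          have h6 : m + 1 + (t - (m + 1)) = t := by omega
          rwa [h6] at this
    · intro h
      have h' : ∀ t < m + 1 + i + 1, x t = decide (t = m ∨ t = m + 1 + i) := h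
      refine ⟨⟨?_, fun t ht => ?_⟩, ?_, fun j hj => ?_⟩
      · rw [h' m (by omega)]; simp
      · rw [h' t (by omega)]; simp; omega
      · rw [h' _ (by omega)]; simp
      · rw [h' _ (by omega)]; simp; omega
  have h1 : {x : ℕ → Bool | ∃ m i, (Fib x m ∧ x (m + 1 + i) = true ∧
      ∀ j < i, x (m + 1 + j) = false) ∧ ∀ s ≤ i, ¬ q (Nat.pair m s)} =
      {x | ∃ n, ∃ m < n, ∃ i < n, n = m + 1 + i + 1 ∧ enc x n = 2 ^ m + 2 ^ (m + 1 + i) ∧
        ∀ s ≤ i, ¬ q (Nat.pair m s)} := by
    ext x
    simp only [Set.mem_ofPred_eq, key]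
    constructor
    · rintro ⟨m, s, h1, h2⟩
      exact ⟨m + 1 + s + 1, m, by omega, s, by omega, rfl, h1, h2⟩
    · rintro ⟨n, m, -, s, -, rfl, h1, h2⟩
      exact ⟨m, s, h1, h2⟩
  rw [h1]
  refine co_of_re' (V := fun n k => ∃ m < n, ∃ i < n, n = m + 1 + i + 1 ∧
    k = 2 ^ m + 2 ^ (m + 1 + i) ∧ ∀ s ≤ i, ¬ q (Nat.pair m s)) (rp_re ?_)
  refine RP.bex' (RP.bex' (RP.and (by with_reducible repeat' first | assumption | exact recT_id | exact recT_const _ | exact RP.const _ | apply RecT.fst | apply RecT.snd | apply RecT.pair' | apply RecT.add | apply RecT.sub | apply RecT.mul | apply RecT.div | apply RecT.mod | apply RecT.twopow | apply RP.halt | apply RP.evalEq | apply RP.eq | apply RP.ne | apply RP.lt | apply RP.le | apply RP.and | apply RP.or | apply RP.not | apply RP.bex' | apply RP.ball' | apply RP.bexle | apply RP.ballle | apply RP.imp | apply RP.iff) (RP.and (by with_reducible repeat' first | assumption | exact recT_id | exact recT_const _ | exact RP.const _ | apply RecT.fst | apply RecT.snd | apply RecT.pair' | apply RecT.add | apply RecT.sub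 | apply RecT.mul | apply RecT.div | apply RecT.mod | apply RecT.twopow | apply RP.halt | apply RP.evalEq | apply RP.eq | apply RP.ne | apply RP.lt | apply RP.le | apply RP.and | apply RP.or | apply RP.not | apply RP.bex' | apply RP.ball' | apply RP.bexle | apply RP.ballle | apply RP.imp | apply RP.iff) (RP.ballle (RP.not ?_) (by with_reducible repeat' first | assumption | exact recT_id | exact recT_const _ | exact RP.const _ | apply RecT.fst | apply RecT.snd | apply RecT.pair' | apply RecT.add | apply RecT.sub | apply RecT.mul | apply RecT.div | apply RecT.mod | apply RecT.twopow | apply RP.halt | apply RP.evalEq | apply RP.eq | apply RP.ne | apply RP.lt | apply RP.le | apply RP.and | apply RP.or | apply RP.not | apply RP.bex' | apply RP.ball' | apply RP.bexle | apply RP.ballle | apply RP.imp | apply RP.iff))))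
    (by with_reducible repeat' first | assumption | exact recT_id | exact recT_const _ | exact RP.const _ | apply RecT.fst | apply RecT.snd | apply RecT.pair' | apply RecT.add | apply RecT.sub | apply RecT.mul | apply RecT.div | apply RecT.mod | apply RecT.twopow | apply RP.halt | apply RP.evalEq | apply RP.eq | apply RP.ne | apply RP.lt | apply RP.le | apply RP.and | apply RP.or | apply RP.not | apply RP.bex' | apply RP.ball' | apply RP.bexle | apply RP.ballle | apply RP.imp | apply RP.iff)) (by with_reducible repeat' first | assumption | exact recT_id | exact recT_const _ | exact RP.const _ | apply RecT.fst | apply RecT.snd | apply RecT.pair' | apply RecT.add | apply RecT.sub | apply RecT.mul | apply RecT.div | apply RecT.mod | apply RecT.twopow | apply RP.halt | apply RP.evalEq | apply RP.eq | apply RP.ne | apply RP.lt | apply RP.le | apply RP.and | apply RP.or | apply RP.not | apply RP.bex' | apply RP.ball' | apply RP.bexle | apply RP.ballle | apply RP.imp | apply RP.iff)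
  exact RP.comp hq (by with_reducible repeat' first | assumption | exact recT_id | exact recT_const _ | exact RP.const _ | apply RecT.fst | apply RecT.snd | apply RecT.pair' | apply RecT.add | apply RecT.sub | apply RecT.mul | apply RecT.div | apply RecT.mod | apply RecT.twopow | apply RP.halt | apply RP.evalEq | apply RP.eq | apply RP.ne | apply RP.lt | apply RP.le | apply RP.and | apply RP.or | apply RP.not | apply RP.bex' | apply RP.ball' | apply RP.bexle | apply RP.ballle | apply RP.imp | apply RP.iff)

/-- the machine on a point with first one at `m` -/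
lemma st_before {x : ℕ → Bool} {m : ℕ} (h : ∀ i < m, x i = false) : st x m = 0 ∧ ct x m = m := by
  induction m with
  | zero => simp [st, ct, St]
  | succ n ih =>
    obtain ⟨h1, h2⟩ := ih fun i hi => h i (by omega)
    rw [st_false (h n (by omega)), ct_false (h n (by omega)), h1, h2]
    exact ⟨rfl, rfl⟩

lemma Fib.st {x : ℕ → Bool} {m : ℕ} (h : Fib x m) : st x (m + 1) = m.unpair.1 + 1 := by
  obtain ⟨h1, h2⟩ := st_before h.2
  rw [st_true0 h.1 h1, h2]

lemma Fib.st_zero {x : ℕ → Bool} {m n : ℕ} (h : Fib x m) (hn : n ≤ m) : PC.st x n = 0 :=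
  (st_before fun i hi => h.2 i (by omega)).1

/-- all states along `x` are at most the label -/
lemma Fib.st_le {x : ℕ → Bool} {m n j : ℕ} (h : Fib x m) (hn : PC.st x n = j + 1) :
    j ≤ m.unpair.1 := by
  rcases Nat.lt_or_ge m n with h1 | h1
  · obtain ⟨j', h2, h3⟩ := st_mono h.st (show m + 1 ≤ n by omega)
    omega
  · rw [h.st_zero h1] at hn; omega

lemma st_rpt {m n : ℕ} (h : m < n) : st (rpt m) n = m.unpair.1 + 1 := by
  have h1 : m + 1 ≤ n := h
  induction n, h1 using Nat.le_induction with
  | base => exact (fib_rpt m).st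
  | succ n hn ih =>
    rw [st_false (by simp [rpt]; omega), ih (by omega)]

lemma rpt_mem_XX {m k : ℕ} : rpt m ∈ (XX k).1 ↔ m.unpair.1 < k := by
  constructor
  · rintro ⟨n, j, h1, h2⟩
    have h3 : j < k := h2
    rcases Nat.lt_or_ge m n with h | h
    · rw [st_rpt h] at h1; omega
    · rw [(fib_rpt m).st_zero h] at h1; omega
  · intro h
    exact ⟨m + 1, m.unpair.1, st_rpt (Nat.lt_succ_self m), h⟩

lemma fib_mem_XX {x : ℕ → Bool} {m k : ℕ} (h : Fib x m) (hk : m.unpair.1 < k) :
    x ∈ (XX k).1 := ⟨m + 1, m.unpair.1, h.st, hk⟩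

/-- membership of the points `rpt m` in a c.e. open set is c.e. -/
lemma re_rpt {X : Set (ℕ → Bool)} (hX : CO X) : REPred (fun m => rpt m ∈ X) := by
  obtain ⟨e, rfl⟩ := hX
  have h1 : RP ∅ (fun z : ℕ => D e z.unpair.2 (if z.unpair.1 < z.unpair.2 then 2 ^ z.unpair.1 else 0)) :=
    rp_D (by with_reducible repeat' first | assumption | exact recT_id | exact recT_const _ | exact RP.const _ | apply RecT.fst | apply RecT.snd | apply RecT.pair' | apply RecT.add | apply RecT.sub | apply RecT.mul | apply RecT.div | apply RecT.mod | apply RecT.twopow | apply RP.halt | apply RP.evalEq | apply RP.eq | apply RP.ne | apply RP.lt | apply RP.le | apply RP.and | apply RP.or | apply RP.not | apply RP.bex' | apply RP.ball' | apply RP.bexle | apply RP.ballle | apply RP.imp | apply RP.iff) (by with_reducible repeat' first | assumption | exact recT_id | exact recT_const _ | exact RP.const _ | apply RecT.fst | apply RecT.snd | apply RecT.pair' | apply RecT.add | apply RecT.sub | apply RecT.mul | apply RecT.div | apply RecT.mod | apply RecT.twopow | apply RP.halt | apply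 RP.evalEq | apply RP.eq | apply RP.ne | apply RP.lt | apply RP.le | apply RP.and | apply RP.or | apply RP.not | apply RP.bex' | apply RP.ball' | apply RP.bexle | apply RP.ballle | apply RP.imp | apply RP.iff) (RecT.ite' (by with_reducible repeat' first | assumption | exact recT_id | exact recT_const _ | exact RP.const _ | apply RecT.fst | apply RecT.snd | apply RecT.pair' | apply RecT.add | apply RecT.sub | apply RecT.mul | apply RecT.div | apply RecT.mod | apply RecT.twopow | apply RP.halt | apply RP.evalEq | apply RP.eq | apply RP.ne | apply RP.lt | apply RP.le | apply RP.and | apply RP.or | apply RP.not | apply RP.bex' | apply RP.ball' | apply RP.bexle | apply RP.ballle | apply RP.imp | apply RP.iff) (by with_reducible repeat' first | assumption | exact recT_id | exact recT_const _ | exact RP.const _ | apply RecT.fst | apply RecT.snd | apply RecT.pair' | apply RecT.add | apply RecT.sub | apply RecT.mul | apply RecT.div | apply RecT.mod | apply RecT.twopow | apply RP.halt | apply RP.evalEq | apply RP.eq | apply RP.ne | apply RP.lt | apply RP.le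 | apply RP.and | apply RP.or | apply RP.not | apply RP.bex' | apply RP.ball' | apply RP.bexle | apply RP.ballle | apply RP.imp | apply RP.iff) (by with_reducible repeat' first | assumption | exact recT_id | exact recT_const _ | exact RP.const _ | apply RecT.fst | apply RecT.snd | apply RecT.pair' | apply RecT.add | apply RecT.sub | apply RecT.mul | apply RecT.div | apply RecT.mod | apply RecT.twopow | apply RP.halt | apply RP.evalEq | apply RP.eq | apply RP.ne | apply RP.lt | apply RP.le | apply RP.and | apply RP.or | apply RP.not | apply RP.bex' | apply RP.ball' | apply RP.bexle | apply RP.ballle | apply RP.imp | apply RP.iff))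
  refine (REPred.ex (rp_re h1)).of_eq fun m => ?_
  simp only [Nat.unpair_pair]
  show _ ↔ ∃ n, D e n (enc (rpt m) n)
  refine exists_congr fun n => ?_
  rw [enc_rpt]

/-- for complemented elements it is recursive -/
lemma rp_rpt {x : L2} (hx : IsComplemented x) : RP ∅ (fun m => rpt m ∈ x.1) := by
  refine rp_of_re (re_rpt x.2.1) ((re_rpt ((compl_iff x).1 hx)).of_eq fun m => ?_)
  constructor
  · rintro ⟨-, h⟩; exact h
  · intro h; exact ⟨(fib_rpt m).ne, h⟩

theorem l2_realise (W Z : ℕ → Prop) (hW : REPred W) (hZ : REPred Z) : ∃ p A U : L2, ∀ k : ℕ,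
    Psi k p A U ↔
      (∀ R : ℕ → Prop, RP ∅ R → (∀ z, R z → W z) → RP ∅ (fun z => R z ∧ Z (Nat.pair k z))) := by
  obtain ⟨q, hq, hZq⟩ := re_iff.1 hZ
  have hA : CO (FS (fun m => W m.unpair.2)) := co_FS (REPred.subst hW (by with_reducible repeat' first | assumption | exact recT_id | exact recT_const _ | exact RP.const _ | apply RecT.fst | apply RecT.snd | apply RecT.pair' | apply RecT.add | apply RecT.sub | apply RecT.mul | apply RecT.div | apply RecT.mod | apply RecT.twopow | apply RP.halt | apply RP.evalEq | apply RP.eq | apply RP.ne | apply RP.lt | apply RP.le | apply RP.and | apply RP.or | apply RP.not | apply RP.bex' | apply RP.ball' | apply RP.bexle | apply RP.ballle | apply RP.imp | apply RP.iff))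
  let A : L2 := ⟨FS (fun m => W m.unpair.2), hA, zero_not_mem_FS _⟩
  let U : L2 := ⟨{x : ℕ → Bool | ∃ m s, x ∈ bas m s ∧ q (Nat.pair m s)}, co_U hq, by
    rintro ⟨m, s, h, -⟩; exact h.1.ne rfl⟩
  have hrU : ∀ m, rpt m ∈ U.1 ↔ Z m := by
    intro m
    rw [hZq]
    constructor
    · rintro ⟨m', s, h1, h2⟩
      have := h1.1.unique (fib_rpt m)
      subst this
      exact ⟨s, h2⟩
    · rintro ⟨s, hs⟩
      exact ⟨m, s, ⟨fib_rpt m, fun i h1 _ => by simp [rpt]; omega⟩, hs⟩
  refine ⟨YY 0, A, U, fun k => ?_⟩
  rw [Psi_L2_iff]
  constructor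
  · -- from the lattice condition to the sets
    intro h R hR hRW
    let E : ℕ → Prop := fun m => m.unpair.1 = k ∧ R m.unpair.2
    have hE : RP ∅ E := RP.and (by with_reducible repeat' first | assumption | exact recT_id | exact recT_const _ | exact RP.const _ | apply RecT.fst | apply RecT.snd | apply RecT.pair' | apply RecT.add | apply RecT.sub | apply RecT.mul | apply RecT.div | apply RecT.mod | apply RecT.twopow | apply RP.halt | apply RP.evalEq | apply RP.eq | apply RP.ne | apply RP.lt | apply RP.le | apply RP.and | apply RP.or | apply RP.not | apply RP.bex' | apply RP.ball' | apply RP.bexle | apply RP.ballle | apply RP.imp | apply RP.iff) (RP.comp hR (by with_reducible repeat' first | assumption | exact recT_id | exact recT_const _ | exact RP.const _ | apply RecT.fst | apply RecT.snd | apply RecT.pair' | apply RecT.add | apply RecT.sub | apply RecT.mul | apply RecT.div | apply RecT.mod | apply RecT.twopow | apply RP.halt | apply RP.evalEq | apply RP.eq | apply RP.ne | apply RP.lt | apply RP.le | apply RP.and | apply RP.or | apply RP.not |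 apply RP.bex' | apply RP.ball' | apply RP.bexle | apply RP.ballle | apply RP.imp | apply RP.iff))
    let b : L2 := ⟨FS E, co_FS (rp_re hE), zero_not_mem_FS _⟩
    have hb : IsComplemented b := by
      rw [compl_iff]
      have h1 : {z | z ≠ (fun _ => false) ∧ z ∉ b.1} = FS (fun m => ¬ E m) := by
        ext z
        constructor
        · rintro ⟨h1, h2⟩
          obtain ⟨m, hm⟩ := Fib.exists h1
          exact ⟨m, hm, fun h3 => h2 ⟨m, hm, h3⟩⟩
        · rintro ⟨m, hm, h1⟩
          refine ⟨hm.ne, ?_⟩
          rintro ⟨m', hm', h2⟩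
          rw [hm.unique hm'] at h1
          exact h1 h2
      rw [h1]
      exact co_FS (rp_re (RP.not hE))
    have hbA : b ≤ A ⊓ XX (k + 1) := by
      show FS E ⊆ A.1 ∩ (XX (k + 1)).1
      rintro x ⟨m, hm, h1, h2⟩
      exact ⟨⟨m, hm, hRW _ h2⟩, fib_mem_XX hm (by omega)⟩
    obtain ⟨c, d, hc, hd, hbcd, hck, hdU⟩ := h b hb hbA
    have hT := rp_rpt hdU
    have h2 : ∀ z, R z → (Z (Nat.pair k z) ↔ rpt (Nat.pair k z) ∈ (d ⊓ U).1) := by
      intro z hz
      have h3 : rpt (Nat.pair k z) ∈ b.1 := ⟨_, fib_rpt _, by simpa [E] using hz⟩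
      have h4 : rpt (Nat.pair k z) ∈ d.1 := by
        rcases hbcd h3 with h5 | h5
        · have h6 := rpt_mem_XX.1 (hck h5)
          simp at h6
        · exact h5
      rw [← hrU]
      exact ⟨fun h5 => ⟨h4, h5⟩, fun h5 => h5.2⟩
    refine RP.congr (RP.and hR (RP.comp hT (f := fun z => Nat.pair k z) (by with_reducible repeat' first | assumption | exact recT_id | exact recT_const _ | exact RP.const _ | apply RecT.fst | apply RecT.snd | apply RecT.pair' | apply RecT.add | apply RecT.sub | apply RecT.mul | apply RecT.div | apply RecT.mod | apply RecT.twopow | apply RP.halt | apply RP.evalEq | apply RP.eq | apply RP.ne | apply RP.lt | apply RP.le | apply RP.and | apply RP.or | apply RP.not | apply RP.bex' | apply RP.ball' | apply RP.bexle | apply RP.ballle | apply RP.imp | apply RP.iff))) fun z => ?_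
    constructor
    · rintro ⟨h3, h4⟩; exact ⟨h3, (h2 z h3).2 h4⟩
    · rintro ⟨h3, h4⟩; exact ⟨h3, (h2 z h3).1 h4⟩
  · -- from the sets to the lattice condition
    intro h b hb hbA
    have hbC := (compl_iff b).1 hb
    have hbA' : ∀ x ∈ b.1, x ∈ A.1 ∧ x ∈ (XX (k + 1)).1 := fun x hx => hbA hx
    let R : ℕ → Prop := fun z => rpt (Nat.pair k z) ∈ b.1
    have hR : RP ∅ R := RP.comp (rp_rpt hb) (f := fun z => Nat.pair k z) (by with_reducible repeat' first | assumption | exact recT_id | exact recT_const _ | exact RP.const _ | apply RecT.fst | apply RecT.snd | apply RecT.pair' | apply RecT.add | apply RecT.sub | apply RecT.mul | apply RecT.div | apply RecT.mod | apply RecT.twopow | apply RP.halt | apply RP.evalEq | apply RP.eq | apply RP.ne | apply RP.lt | apply RP.le | apply RP.and | apply RP.or | apply RP.not | apply RP.bex' | apply RP.ball' | apply RP.bexle | apply RP.ballle | apply RP.imp | apply RP.iff)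
    have hRW : ∀ z, R z → W z := by
      intro z hz
      obtain ⟨m, hm, h1⟩ := (hbA' _ hz).1
      rw [hm.unique (fib_rpt _)] at h1
      simpa using h1
    have hRZ := h R hR hRW
    -- the two pieces
    have hlt : RP ∅ (fun m : ℕ => m.unpair.1 < k) := by with_reducible repeat' first | assumption | exact recT_id | exact recT_const _ | exact RP.const _ | apply RecT.fst | apply RecT.snd | apply RecT.pair' | apply RecT.add | apply RecT.sub | apply RecT.mul | apply RecT.div | apply RecT.mod | apply RecT.twopow | apply RP.halt | apply RP.evalEq | apply RP.eq | apply RP.ne | apply RP.lt | apply RP.le | apply RP.and | apply RP.or | apply RP.not | apply RP.bex' | apply RP.ball' | apply RP.bexle | apply RP.ballle | apply RP.imp | apply RP.iff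
    have hge : RP ∅ (fun m : ℕ => ¬ m.unpair.1 < k) := RP.not hlt
    let c : L2 := b ⊓ ⟨FS (fun m => m.unpair.1 < k), co_FS (rp_re hlt), zero_not_mem_FS _⟩
    let d : L2 := b ⊓ ⟨FS (fun m => ¬ m.unpair.1 < k), co_FS (rp_re hge), zero_not_mem_FS _⟩
    refine ⟨c, d, ?_, ?_, ?_, ?_, ?_⟩
    · rw [compl_iff]
      have h1 : {z | z ≠ (fun _ => false) ∧ z ∉ c.1} =
          {z | z ≠ (fun _ => false) ∧ z ∉ b.1} ∪ FS (fun m => ¬ m.unpair.1 < k) := by
        ext z
        constructor
        · rintro ⟨h1, h2⟩
          by_cases h3 : z ∈ b.1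
          · obtain ⟨m, hm⟩ := Fib.exists h1
            exact Or.inr ⟨m, hm, fun h4 => h2 ⟨h3, m, hm, h4⟩⟩
          · exact Or.inl ⟨h1, h3⟩
        · rintro (⟨h1, h2⟩ | ⟨m, hm, h1⟩)
          · exact ⟨h1, fun h3 => h2 h3.1⟩
          · refine ⟨hm.ne, ?_⟩
            rintro ⟨-, m', hm', h2⟩
            rw [hm.unique hm'] at h1
            exact h1 h2
      rw [h1]
      exact hbC.union (co_FS (rp_re hge))
    · rw [compl_iff]
      have h1 : {z | z ≠ (fun _ => false) ∧ z ∉ d.1} =
          {z | z ≠ (fun _ => false) ∧ z ∉ b.1} ∪ FS (fun m => m.unpair.1 < k) := by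
        ext z
        constructor
        · rintro ⟨h1, h2⟩
          by_cases h3 : z ∈ b.1
          · obtain ⟨m, hm⟩ := Fib.exists h1
            refine Or.inr ⟨m, hm, ?_⟩
            by_contra h4
            exact h2 ⟨h3, m, hm, h4⟩
          · exact Or.inl ⟨h1, h3⟩
        · rintro (⟨h1, h2⟩ | ⟨m, hm, h1⟩)
          · exact ⟨h1, fun h3 => h2 h3.1⟩
          · refine ⟨hm.ne, ?_⟩
            rintro ⟨-, m', hm', h2⟩
            rw [hm.unique hm'] at h1
            exact h2 h1
      rw [h1]
      exact hbC.union (co_FS (rp_re hlt))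
    · show b.1 ⊆ c.1 ∪ d.1
      intro z hz
      have hz0 : z ≠ fun _ => false := by
        rintro rfl; exact b.2.2 hz
      obtain ⟨m, hm⟩ := Fib.exists hz0
      by_cases h3 : m.unpair.1 < k
      · exact Or.inl ⟨hz, m, hm, h3⟩
      · exact Or.inr ⟨hz, m, hm, h3⟩
    · show c.1 ⊆ (XX k).1
      rintro z ⟨-, m, hm, h3⟩
      exact fib_mem_XX hm h3
    · rw [compl_iff]
      have hE : RP ∅ (fun m : ℕ => m.unpair.1 = k ∧ R m.unpair.2 ∧
          ¬ (R m.unpair.2 ∧ Z (Nat.pair k m.unpair.2))) :=
        RP.and (by with_reducible repeat' first | assumption | exact recT_id | exact recT_const _ | exact RP.const _ | apply RecT.fst | apply RecT.snd | apply RecT.pair' | apply RecT.add | apply RecT.sub | apply RecT.mul | apply RecT.div | apply RecT.mod | apply RecT.twopow | apply RP.halt | apply RP.evalEq | apply RP.eq | apply RP.ne | apply RP.lt | apply RP.le | apply RP.and | apply RP.or | apply RP.not | apply RP.bex' | apply RP.ball' | apply RP.bexle | apply RP.ballle | apply RP.imp | apply RP.iff) (RP.and (RP.comp hR (by with_reducible repeat' first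 | assumption | exact recT_id | exact recT_const _ | exact RP.const _ | apply RecT.fst | apply RecT.snd | apply RecT.pair' | apply RecT.add | apply RecT.sub | apply RecT.mul | apply RecT.div | apply RecT.mod | apply RecT.twopow | apply RP.halt | apply RP.evalEq | apply RP.eq | apply RP.ne | apply RP.lt | apply RP.le | apply RP.and | apply RP.or | apply RP.not | apply RP.bex' | apply RP.ball' | apply RP.bexle | apply RP.ballle | apply RP.imp | apply RP.iff)) (RP.not (RP.comp hRZ
          (f := fun m : ℕ => m.unpair.2) (by with_reducible repeat' first | assumption | exact recT_id | exact recT_const _ | exact RP.const _ | apply RecT.fst | apply RecT.snd | apply RecT.pair' | apply RecT.add | apply RecT.sub | apply RecT.mul | apply RecT.div | apply RecT.mod | apply RecT.twopow | apply RP.halt | apply RP.evalEq | apply RP.eq | apply RP.ne | apply RP.lt | apply RP.le | apply RP.and | apply RP.or | apply RP.not | apply RP.bex' | apply RP.ball' | apply RP.bexle | apply RP.ballle | apply RP.imp | apply RP.iff))))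
      have h1 : {z | z ≠ (fun _ => false) ∧ z ∉ (d ⊓ U).1} =
          ({z | z ≠ (fun _ => false) ∧ z ∉ b.1} ∪ FS (fun m => m.unpair.1 < k)) ∪
          (FS (fun m : ℕ => m.unpair.1 = k ∧ R m.unpair.2 ∧
            ¬ (R m.unpair.2 ∧ Z (Nat.pair k m.unpair.2))) ∪
          {x : ℕ → Bool | ∃ m i, (Fib x m ∧ x (m + 1 + i) = true ∧
            ∀ j < i, x (m + 1 + j) = false) ∧ ∀ s ≤ i, ¬ q (Nat.pair m s)}) := by
        ext z
        constructor
        · rintro ⟨h1, h2⟩
          by_cases h3 : z ∈ b.1
          · obtain ⟨m, hm⟩ := Fib.exists h1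
            by_cases h4 : m.unpair.1 < k
            · exact Or.inl (Or.inr ⟨m, hm, h4⟩)
            · have h5 : z ∉ U.1 := fun h6 => h2 ⟨⟨h3, m, hm, h4⟩, h6⟩
              refine Or.inr ?_
              by_cases h6 : ∃ i, z (m + 1 + i) = true
              · right
                refine ⟨m, Nat.find h6, ⟨hm, Nat.find_spec h6, fun j hj => ?_⟩, fun s hs hqs => ?_⟩
                · simpa using Nat.find_min h6 hj
                · refine h5 ⟨m, s, ⟨hm, fun i hi hi2 => ?_⟩, hqs⟩
                  have h7 := Nat.find_min h6 (m := i - (m + 1)) (by omega)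
                  have h8 : m + 1 + (i - (m + 1)) = i := by omega
                  rw [h8] at h7
                  simpa using h7
              · left
                have h7 : z = rpt m := by
                  funext i
                  rcases lt_trichotomy i m with h | h | h
                  · rw [hm.2 i h]; simp [rpt]; omega
                  · rw [h, hm.1]; simp [rpt]
                  · have h8 : ¬ z (m + 1 + (i - (m + 1))) = true := fun h => h6 ⟨_, h⟩
                    have h9 : m + 1 + (i - (m + 1)) = i := by omega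
                    rw [h9] at h8
                    have h10 : z i = false := by simpa using h8
                    rw [h10]; simp [rpt]; omega
                subst h7
                have h8 : m.unpair.1 < k + 1 := rpt_mem_XX.1 (hbA' _ h3).2
                have h9 : m.unpair.1 = k := by omega
                have h10 : Nat.pair k m.unpair.2 = m := by rw [← h9, Nat.pair_unpair]
                refine ⟨m, hm, h9, ?_, ?_⟩
                · show rpt (Nat.pair k m.unpair.2) ∈ b.1
                  rw [h10]; exact h3
                · rintro ⟨-, h11⟩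
                  rw [h10] at h11
                  exact h5 ((hrU m).2 h11)
          · exact Or.inl (Or.inl ⟨h1, h3⟩)
        · rintro ((⟨h1, h2⟩ | ⟨m, hm, h1⟩) | (⟨m, hm, h1, h2, h3⟩ | ⟨m, i, ⟨hm, h1, h2⟩, h3⟩))
          · exact ⟨h1, fun h3 => h2 h3.1.1⟩
          · refine ⟨hm.ne, ?_⟩
            rintro ⟨⟨-, m', hm', h2⟩, -⟩
            rw [hm.unique hm'] at h1
            exact h2 h1
          · refine ⟨hm.ne, ?_⟩
            rintro ⟨-, m', s, h4, h5⟩
            have h6 := h4.1.unique hm
            subst h6
            have h10 : Nat.pair k m'.unpair.2 = m' := by rw [← h1, Nat.pair_unpair]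
            refine h3 ⟨h2, ?_⟩
            rw [h10, hZq]
            exact ⟨s, h5⟩
          · refine ⟨hm.ne, ?_⟩
            rintro ⟨-, m', s, h4, h5⟩
            have h6 := h4.1.unique hm
            subst h6
            refine h3 s ?_ h5
            by_contra h7
            have h8 := h4.2 (m' + 1 + i) (by omega) (by omega)
            rw [h1] at h8
            cases h8
      rw [h1]
      exact (hbC.union (co_FS (rp_re hlt))).union ((co_FS (rp_re hE)).union (co_V4 hq))

end Pool.Agent.Helper206.PC
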