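import Pool.Agent.Helper206.PC.Base

set_option autoImplicit false

namespace Pool.Agent.Helper206.PC

open Pool.Agent.Helper743 (RecT)
open Pool.Agent.H166R3.HD
open Nat.Partrec (Code)
open scoped Classical

namespace LemA


/-- `e ∈ d` -/
def mem (e d : ℕ) : Prop := d / 2 ^ e % 2 = 1

/-- `φ_e(x)` halts within `s` steps -/
def H (s e x : ℕ) : Prop := (Code.evaln s (Denumerable.ofNat Code e) x).isSome = true

/-- `φ_e(x) = y` within `s` steps -/
def V (s e x y : ℕ) : Prop := Code.evaln s (Denumerable.ofNat Code e) x = some y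

lemma H_mono {s t e x : ℕ} (h : s ≤ t) (h1 : H s e x) : H t e x := evaln_isSome_mono h h1

lemma V_mono {s t e x y : ℕ} (h : s ≤ t) (h1 : V s e x y) : V t e x y := by
  have := Code.evaln_mono h (Option.mem_def.2 h1)
  exact Option.mem_def.1 this

lemma V.H {s e x y : ℕ} (h : V s e x y) : H s e x := by
  unfold V at h; unfold LemA.H; rw [h]; rfl

lemma H.V {s e x : ℕ} (h : H s e x) : ∃ y, V s e x y := Option.isSome_iff_exists.1 h

lemma V_unique {s t e x y y' : ℕ} (h : V s e x y) (h' : V t e x y') : y = y' := by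
  have h1 := V_mono (le_max_left s t) h
  have h2 := V_mono (le_max_right s t) h'
  unfold V at h1 h2
  rw [h1] at h2
  exact Option.some.inj h2

lemma exists_guess (T : ℕ → Prop) (a : ℕ) : ∃ d < 2 ^ a, ∀ e < a, (mem e d ↔ T e) := by
  induction a with
  | zero => exact ⟨0, by simp, fun e he => absurd he (Nat.not_lt_zero _)⟩
  | succ a ih =>
    obtain ⟨d, hd, h⟩ := ih
    by_cases hT : T a
    · refine ⟨d + 2 ^ a, by rw [pow_succ]; omega, fun e he => ?_⟩
      rcases Nat.lt_succ_iff_lt_or_eq.1 he with h1 | h1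
      · rw [← h e h1]
        unfold mem
        have h2 : (d + 2 ^ a) / 2 ^ e = d / 2 ^ e + 2 ^ (a - e) := by
          have h3 : 2 ^ a = 2 ^ (a - e) * 2 ^ e := by
            rw [← pow_add]; congr 1; omega
          rw [h3, Nat.add_mul_div_right _ _ (by positivity)]
        have h4 : 2 ^ (a - e) = 2 * 2 ^ (a - e - 1) := by
          rw [← pow_succ']; congr 1; omega
        rw [h2, h4]
        omega
      · subst h1
        unfold mem
        have h2 : (d + 2 ^ e) / 2 ^ e = 1 := by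
          rw [Nat.add_div_right _ (by positivity), Nat.div_eq_of_lt hd]
        rw [h2]
        simpa using hT
    · refine ⟨d, by rw [pow_succ]; omega, fun e he => ?_⟩
      rcases Nat.lt_succ_iff_lt_or_eq.1 he with h1 | h1
      · exact h e h1
      · subst h1
        unfold mem
        rw [Nat.div_eq_of_lt hd]
        simpa using hT

/-! ### recursive predicates, tools -/

lemma rp_finite {F : Set ℕ} (hF : F.Finite) : RP ∅ (fun z => z ∈ F) := by
  induction F, hF using Set.Finite.induction_on with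
  | empty => simpa using RP.const False
  | insert _ _ ih =>
    rename_i a s _ _
    refine RP.congr (RP.or (RP.eq recT_id (recT_const a)) ih) fun n => ?_
    simp

lemma rp_exists_lt {q : ℕ → ℕ → Prop} (n : ℕ) (hq : ∀ i < n, RP ∅ (q i)) :
    RP ∅ (fun z => ∃ i < n, q i z) := by
  induction n with
  | zero => exact RP.congr (RP.const False) fun z => by simp
  | succ n ih =>
    refine RP.congr (RP.or (ih fun i hi => hq i (by omega)) (hq n (by omega))) fun z => ?_
    constructor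
    · rintro (⟨i, hi, h⟩ | h)
      · exact ⟨i, by omega, h⟩
      · exact ⟨n, by omega, h⟩
    · rintro ⟨i, hi, h⟩
      rcases Nat.lt_succ_iff_lt_or_eq.1 hi with h1 | h1
      · exact Or.inl ⟨i, h1, h⟩
      · subst h1; exact Or.inr h

/-- a c.e. predicate is recursive on a recursive piece on which the search can be bounded -/
lemma rp_bounded {S : ℕ → Prop} {T Q : ℕ → ℕ → Prop} (hS : RP ∅ S)
    (hT : RP ∅ (fun w => T w.unpair.1 w.unpair.2)) (hQ : RP ∅ (fun w => Q w.unpair.1 w.unpair.2))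
    (h1 : ∀ z, S z → ∃ s, T z s) (h2 : ∀ z s s', S z → T z s → s ≤ s' → ¬ Q z s') :
    RP ∅ (fun z => S z ∧ ∃ s, Q z s) := by
  obtain ⟨g, hg, hg'⟩ := RecT.search (p := fun w => ¬ S w.unpair.1 ∨ T w.unpair.1 w.unpair.2)
    (RP.or (RP.not (RP.comp hS (RecT.fst recT_id))) hT) (fun z => by
      by_cases hz : S z
      · obtain ⟨s, hs⟩ := h1 z hz
        exact ⟨s, Or.inr (by simpa using hs)⟩
      · exact ⟨0, Or.inl (by simpa using hz)⟩)
  refine RP.congr (RP.and hS (RP.bex' hQ hg)) fun z => ?_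
  constructor
  · rintro ⟨h3, s, -, h4⟩; exact ⟨h3, s, h4⟩
  · rintro ⟨h3, s, h4⟩
    refine ⟨h3, s, ?_, h4⟩
    by_contra h5
    have h6 := hg' z
    simp only [Nat.unpair_pair] at h6
    exact h2 z (g z) s h3 (h6.resolve_left (fun h => h h3)) (by omega) h4

/-! ### the construction -/

/-- `u = pair z' t` shows that `z'` guesses `e` total and `φ_e(z') = 1` -/
def Cand (e u : ℕ) : Prop :=
  u.unpair.1.unpair.1.unpair.2 < 2 ^ u.unpair.1.unpair.1.unpair.1 ∧
    e < u.unpair.1.unpair.1.unpair.1 ∧ mem e u.unpair.1.unpair.1.unpair.2 ∧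
    V u.unpair.2 e u.unpair.1 1

def First (e u : ℕ) : Prop := Cand e u ∧ ∀ u' < u, ¬ Cand e u'

lemma First.unique {e u u' : ℕ} (h : First e u) (h' : First e u') : u = u' := by
  rcases lt_trichotomy u u' with h1 | h1 | h1
  · exact absurd h.1 (h'.2 u h1)
  · exact h1
  · exact absurd h'.1 (h.2 u' h1)

lemma exists_first {e u : ℕ} (h : Cand e u) : ∃ u', First e u' := by
  have hex : ∃ u, Cand e u := ⟨u, h⟩
  exact ⟨Nat.find hex, Nat.find_spec hex, fun u' hu' => Nat.find_min hex hu'⟩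

def Wst (z s : ℕ) : Prop :=
  z.unpair.1.unpair.2 < 2 ^ z.unpair.1.unpair.1 ∧
    ∀ e < z.unpair.1.unpair.1, mem e z.unpair.1.unpair.2 → ∃ v ≤ s, V s e z v ∧
      (v = 1 → ∃ u ≤ s, First e u ∧ u.unpair.1 ≠ z)

def W (z : ℕ) : Prop := ∃ s, Wst z s

lemma rp_Wst : RP ∅ (fun w => Wst w.unpair.1 w.unpair.2) := by
  unfold Wst First Cand mem V
  with_reducible repeat' first | assumption | exact recT_id | exact recT_const _ | exact RP.const _ | apply RecT.fst | apply RecT.snd | apply RecT.pair' | apply RecT.add | apply RecT.sub | apply RecT.mul | apply RecT.div | apply RecT.mod | apply RecT.twopow | apply RP.halt | apply RP.evalEq | apply RP.eq | apply RP.ne | apply RP.lt | apply RP.le | apply RP.and | apply RP.or | apply RP.not | apply RP.bex' | apply RP.ball' | apply RP.bexle | apply RP.ballle | apply RP.imp | apply RP.iff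

lemma re_W : REPred W := by
  refine (re_of_rp rp_Wst).of_eq fun n => ?_
  unfold W
  simp only [Nat.unpair_pair]

/-- activity of `z` at stage `s`, `p` is an index of `P` -/
def Act (p k z s : ℕ) : Prop :=
  z.unpair.1.unpair.2 < 2 ^ z.unpair.1.unpair.1 ∧
  (∀ e < z.unpair.1.unpair.1, mem e z.unpair.1.unpair.2 →
    ∀ y ≤ z.unpair.2.unpair.1 + z.unpair.2.unpair.2, H s e y) ∧
  (∀ e < z.unpair.1.unpair.1, ¬ mem e z.unpair.1.unpair.2 →
    ∃ x ≤ z.unpair.2.unpair.2, ¬ H s e x) ∧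
  (∀ b < z.unpair.2.unpair.1, ∃ x ≤ z.unpair.2.unpair.2,
    ¬ H s p (Nat.pair k (Nat.pair z.unpair.1.unpair.1 (Nat.pair b x)))) ∧
  (z.unpair.2.unpair.2 = 0 ∨
    (∃ e < z.unpair.1.unpair.1, ¬ mem e z.unpair.1.unpair.2 ∧
      ∀ x < z.unpair.2.unpair.2, H s e x) ∨
    (∃ b < z.unpair.2.unpair.1, ∀ x < z.unpair.2.unpair.2,
      H s p (Nat.pair k (Nat.pair z.unpair.1.unpair.1 (Nat.pair b x)))))

def Zst (p k z s : ℕ) : Prop := Act p k z s ∧ V s z.unpair.2.unpair.1.unpair.1 z 0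

lemma rp_Zst (p : ℕ) :
    RP ∅ (fun w => Zst p w.unpair.1.unpair.1 w.unpair.1.unpair.2 w.unpair.2) := by
  unfold Zst Act mem V H
  with_reducible repeat' first | assumption | exact recT_id | exact recT_const _ | exact RP.const _ | apply RecT.fst | apply RecT.snd | apply RecT.pair' | apply RecT.add | apply RecT.sub | apply RecT.mul | apply RecT.div | apply RecT.mod | apply RecT.twopow | apply RP.halt | apply RP.evalEq | apply RP.eq | apply RP.ne | apply RP.lt | apply RP.le | apply RP.and | apply RP.or | apply RP.not | apply RP.bex' | apply RP.ball' | apply RP.bexle | apply RP.ballle | apply RP.imp | apply RP.iff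

lemma rp_Zst' (p k : ℕ) : RP ∅ (fun w => Zst p k w.unpair.1 w.unpair.2) := by
  unfold Zst Act mem V H
  with_reducible repeat' first | assumption | exact recT_id | exact recT_const _ | exact RP.const _ | apply RecT.fst | apply RecT.snd | apply RecT.pair' | apply RecT.add | apply RecT.sub | apply RecT.mul | apply RecT.div | apply RecT.mod | apply RecT.twopow | apply RP.halt | apply RP.evalEq | apply RP.eq | apply RP.ne | apply RP.lt | apply RP.le | apply RP.and | apply RP.or | apply RP.not | apply RP.bex' | apply RP.ball' | apply RP.bexle | apply RP.ballle | apply RP.imp | apply RP.iff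

def Z (p w : ℕ) : Prop := ∃ s, Zst p w.unpair.1 w.unpair.2 s

lemma re_Z (p : ℕ) : REPred (Z p) := by
  refine (re_of_rp (rp_Zst p)).of_eq fun n => ?_
  unfold Z
  simp only [Nat.unpair_pair]

/-! ### first direction -/

lemma H_bound {T : ℕ → Prop} {Q : ℕ → ℕ → Prop} (hQ : ∀ x s t, s ≤ t → Q x s → Q x t) (n : ℕ)
    (h : ∀ x < n, T x → ∃ s, Q x s) : ∃ s, ∀ x < n, T x → Q x s := by
  induction n with
  | zero => exact ⟨0, fun x hx => absurd hx (Nat.not_lt_zero _)⟩
  | succ n ih =>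
    obtain ⟨s, hs⟩ := ih fun x hx hT => h x (by omega) hT
    by_cases hT : T n
    · obtain ⟨t, ht⟩ := h n (by omega) hT
      refine ⟨max s t, fun x hx hTx => ?_⟩
      rcases Nat.lt_succ_iff_lt_or_eq.1 hx with h1 | h1
      · exact hQ x _ _ (le_max_left _ _) (hs x h1 hTx)
      · subst h1; exact hQ _ _ _ (le_max_right _ _) ht
    · refine ⟨s, fun x hx hTx => ?_⟩
      rcases Nat.lt_succ_iff_lt_or_eq.1 hx with h1 | h1
      · exact hs x h1 hTx
      · subst h1; exact absurd hTx hT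

lemma exists_char_index {Q : ℕ → Prop} (hQ : RP ∅ Q) :
    ∃ j : ℕ, ∀ z, ∃ s, V s j z (if Q z then 1 else 0) := by
  have h1 : Computable (fun z => if Q z then 1 else 0) := recT_computable hQ
  obtain ⟨c, hc⟩ := Code.exists_code.1 (Partrec.nat_iff.1 h1)
  refine ⟨Encodable.encode c, fun z => ?_⟩
  unfold V
  rw [Denumerable.ofNat_encode]
  have h2 : (if Q z then 1 else 0) ∈ c.eval z := by
    rw [hc]
    exact Part.mem_some _
  obtain ⟨s, hs⟩ := Code.evaln_complete.1 h2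
  exact ⟨s, Option.mem_def.1 hs⟩

lemma first_dir {P : ℕ → Prop} {p : ℕ} (hp : ∀ n, P n ↔ ∃ s, H s p n) (k : ℕ)
    (h : ∀ R : ℕ → Prop, RP ∅ R → (∀ z, R z → W z) → RP ∅ (fun z => R z ∧ Z p (Nat.pair k z))) :
    ∀ a, ∃ b, ∀ c, P (Nat.pair k (Nat.pair a (Nat.pair b c))) := by
  intro a
  by_contra hcon
  push Not at hcon
  -- the true guess
  obtain ⟨d, hd, hdT⟩ := exists_guess (fun e => ∀ x, ∃ s, H s e x) a
  -- the finite set of forbidden elements
  have hF : {z : ℕ | ∃ e < a, ∃ u, First e u ∧ u.unpair.1 = z}.Finite := by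
    have h1 : {z : ℕ | ∃ e < a, ∃ u, First e u ∧ u.unpair.1 = z} ⊆
        (Finset.range a).image (fun e => if he : ∃ u, First e u then he.choose.unpair.1 else 0) := by
      rintro z ⟨e, he, u, hu, rfl⟩
      simp only [Finset.coe_image, Finset.coe_range, Set.mem_image, Set.mem_Iio]
      refine ⟨e, he, ?_⟩
      have h2 : ∃ u, First e u := ⟨u, hu⟩
      rw [dif_pos h2, First.unique h2.choose_spec hu]
    exact (Finset.finite_toSet _).subset h1
  obtain ⟨F, hFdef⟩ : ∃ F, F = {z : ℕ | ∃ e < a, ∃ u, First e u ∧ u.unpair.1 = z} := ⟨_, rfl⟩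
  rw [← hFdef] at hF
  obtain ⟨R, hRdef⟩ : ∃ R : ℕ → Prop, R = fun z => z.unpair.1 = Nat.pair a d ∧ ¬ z ∈ F := ⟨_, rfl⟩
  have hR : RP ∅ R := by
    rw [hRdef]
    exact RP.and (RP.eq (RecT.fst recT_id) (recT_const _)) (RP.not (rp_finite hF))
  have hRW : ∀ z, R z → W z := by
    intro z hz
    rw [hRdef] at hz
    obtain ⟨hz1, hz2⟩ := hz
    -- gather the stages
    have hkey : ∀ e < a, mem e d → ∃ s, ∃ v ≤ s, V s e z v ∧
        (v = 1 → ∃ u ≤ s, First e u ∧ u.unpair.1 ≠ z) := by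
      intro e he hmem
      obtain ⟨s, hs⟩ := (hdT e he).1 hmem z
      obtain ⟨v, hv⟩ := hs.V
      by_cases hv1 : v = 1
      · subst hv1
        have hc : Cand e (Nat.pair z s) := by
          unfold Cand
          simp only [Nat.unpair_pair, hz1]
          exact ⟨hd, he, hmem, hv⟩
        obtain ⟨u, hu⟩ := exists_first hc
        refine ⟨max s (max 1 u), 1, le_max_of_le_right (le_max_left _ _),
          V_mono (le_max_left _ _) hv, fun _ => ⟨u, le_max_of_le_right (le_max_right _ _), hu, ?_⟩⟩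
        intro huz
        refine hz2 ?_
        rw [hFdef]
        exact ⟨e, he, u, hu, huz⟩
      · exact ⟨max s v, v, le_max_right _ _, V_mono (le_max_left _ _) hv, fun h => absurd h hv1⟩
    obtain ⟨s, hs⟩ := H_bound (T := fun e => mem e d) (Q := fun e s => ∃ v ≤ s, V s e z v ∧
        (v = 1 → ∃ u ≤ s, First e u ∧ u.unpair.1 ≠ z)) (by
      rintro e s t hst ⟨v, hv, hV, hu⟩
      refine ⟨v, hv.trans hst, V_mono hst hV, fun h1 => ?_⟩
      obtain ⟨u, hu1, hu2⟩ := hu h1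
      exact ⟨u, hu1.trans hst, hu2⟩) a hkey
    refine ⟨s, ?_⟩
    unfold Wst
    simp only [hz1, Nat.unpair_pair]
    exact ⟨hd, hs⟩
  have hQ' := h R hR hRW
  obtain ⟨Q, hQdef⟩ : ∃ Q : ℕ → Prop, Q = fun z => R z ∧ Z p (Nat.pair k z) := ⟨_, rfl⟩
  have hQ : RP ∅ Q := by rw [hQdef]; exact hQ'
  -- an index of the characteristic function
  obtain ⟨j, hj⟩ := exists_char_index hQ
  have hj : ∀ z, ∃ s, V s j z (if Q z then 1 else 0) := hj
  -- the parameter b
  obtain ⟨N, hN⟩ : ∃ N, ∀ z ∈ F, z < N := by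
    obtain ⟨N, hN⟩ := hF.bddAbove
    exact ⟨N + 1, fun z hz => Nat.lt_succ_of_le (hN hz)⟩
  obtain ⟨b, hb⟩ : ∃ b, b = Nat.pair j N := ⟨_, rfl⟩
  -- the least common witness
  have hex : ∃ m, (∀ e < a, ¬ mem e d → ∃ x ≤ m, ∀ s, ¬ H s e x) ∧
      (∀ b' < b, ∃ x ≤ m, ∀ s, ¬ H s p (Nat.pair k (Nat.pair a (Nat.pair b' x)))) := by
    have h1 : ∀ e < a, ¬ mem e d → ∃ m, ∃ x ≤ m, ∀ s, ¬ H s e x := by
      intro e he hne
      have h2 := (not_congr (hdT e he)).1 hne
      push Not at h2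
      obtain ⟨x, hx⟩ := h2
      exact ⟨x, x, le_rfl, hx⟩
    have h2 : ∀ b' < b, True → ∃ m, ∃ x ≤ m,
        ∀ s, ¬ H s p (Nat.pair k (Nat.pair a (Nat.pair b' x))) := by
      intro b' _ _
      obtain ⟨c, hc⟩ := hcon b'
      refine ⟨c, c, le_rfl, fun s hs => hc ((hp _).2 ⟨s, hs⟩)⟩
    obtain ⟨m1, hm1⟩ := H_bound (T := fun e => ¬ mem e d)
      (Q := fun e m => ∃ x ≤ m, ∀ s, ¬ H s e x)
      (fun e s t hst ⟨x, hx, hx'⟩ => ⟨x, hx.trans hst, hx'⟩) a h1
    obtain ⟨m2, hm2⟩ := H_bound (T := fun _ => True)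
      (Q := fun b' m => ∃ x ≤ m, ∀ s, ¬ H s p (Nat.pair k (Nat.pair a (Nat.pair b' x))))
      (fun e s t hst ⟨x, hx, hx'⟩ => ⟨x, hx.trans hst, hx'⟩) b h2
    refine ⟨max m1 m2, fun e he hne => ?_, fun b' hb' => ?_⟩
    · obtain ⟨x, hx, hx'⟩ := hm1 e he hne
      exact ⟨x, hx.trans (le_max_left _ _), hx'⟩
    · obtain ⟨x, hx, hx'⟩ := hm2 b' hb' trivial
      exact ⟨x, hx.trans (le_max_right _ _), hx'⟩
  obtain ⟨m, hm, hmin⟩ : ∃ m, ((∀ e < a, ¬ mem e d → ∃ x ≤ m, ∀ s, ¬ H s e x) ∧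
      (∀ b' < b, ∃ x ≤ m, ∀ s, ¬ H s p (Nat.pair k (Nat.pair a (Nat.pair b' x))))) ∧
      ∀ m' < m, ¬ ((∀ e < a, ¬ mem e d → ∃ x ≤ m', ∀ s, ¬ H s e x) ∧
      (∀ b' < b, ∃ x ≤ m', ∀ s, ¬ H s p (Nat.pair k (Nat.pair a (Nat.pair b' x))))) :=
    ⟨Nat.find hex, Nat.find_spec hex, fun m' hm' => Nat.find_min hex hm'⟩
  obtain ⟨z, hz⟩ : ∃ z, z = Nat.pair (Nat.pair a d) (Nat.pair b m) := ⟨_, rfl⟩
  have hz1 : z.unpair.1.unpair.1 = a := by rw [hz]; simp
  have hz2 : z.unpair.1.unpair.2 = d := by rw [hz]; simp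
  have hz3 : z.unpair.2.unpair.1 = b := by rw [hz]; simp
  have hz4 : z.unpair.2.unpair.2 = m := by rw [hz]; simp
  have hzR : R z := by
    rw [hRdef]
    refine ⟨by rw [hz]; simp, fun hzF => ?_⟩
    have h1 := hN z hzF
    have h2 : N ≤ b := by rw [hb]; exact Nat.right_le_pair _ _
    have h3 : b ≤ Nat.pair b m := Nat.left_le_pair _ _
    have h4 : Nat.pair b m ≤ z := by rw [hz]; exact Nat.right_le_pair _ _
    omega
  -- activity
  have hact : ∃ s0, ∀ s, s0 ≤ s → Act p k z s := by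
    -- (i)
    obtain ⟨s1, hs1⟩ : ∃ s1, ∀ e < a, mem e d → ∀ y ≤ b + m, H s1 e y := by
      refine H_bound (T := fun e => mem e d) (Q := fun e s => ∀ y ≤ b + m, H s e y)
        (fun e s t hst hs y hy => H_mono hst (hs y hy)) a fun e he hmem => ?_
      obtain ⟨s, hs⟩ := H_bound (T := fun _ => True) (Q := fun y s => H s e y)
        (fun y s t hst hs => H_mono hst hs) (b + m + 1)
        (fun y _ _ => (hdT e he).1 hmem y)
      exact ⟨s, fun y hy => hs y (by omega) trivial⟩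
    -- (iv)
    obtain ⟨s2, hs2⟩ : ∃ s2, m = 0 ∨ (∃ e < a, ¬ mem e d ∧ ∀ x < m, H s2 e x) ∨
        (∃ b' < b, ∀ x < m, H s2 p (Nat.pair k (Nat.pair a (Nat.pair b' x)))) := by
      rcases Nat.eq_zero_or_pos m with h0 | h0
      · exact ⟨0, Or.inl h0⟩
      · have h1 := hmin (m - 1) (by omega)
        rw [not_and_or] at h1
        rcases h1 with h1 | h1
        · push Not at h1
          obtain ⟨e, he, hne, h2⟩ := h1
          obtain ⟨s, hs⟩ := H_bound (T := fun _ => True) (Q := fun y s => H s e y)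
            (fun y s t hst hs => H_mono hst hs) m (fun y hy _ => h2 y (by omega))
          exact ⟨s, Or.inr (Or.inl ⟨e, he, hne, fun x hx => hs x hx trivial⟩)⟩
        · push Not at h1
          obtain ⟨b', hb', h2⟩ := h1
          obtain ⟨s, hs⟩ := H_bound (T := fun _ => True)
            (Q := fun y s => H s p (Nat.pair k (Nat.pair a (Nat.pair b' y))))
            (fun y s t hst hs => H_mono hst hs) m (fun y hy _ => h2 y (by omega))
          exact ⟨s, Or.inr (Or.inr ⟨b', hb', fun x hx => hs x hx trivial⟩)⟩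
    refine ⟨max s1 s2, fun s hs => ?_⟩
    unfold Act
    rw [hz1, hz2, hz3, hz4]
    refine ⟨hd, fun e he hmem y hy => H_mono ((le_max_left _ _).trans hs) (hs1 e he hmem y hy),
      fun e he hne => ?_, fun b' hb' => ?_, ?_⟩
    · obtain ⟨x, hx, hx'⟩ := hm.1 e he hne
      exact ⟨x, hx, hx' s⟩
    · obtain ⟨x, hx, hx'⟩ := hm.2 b' hb'
      exact ⟨x, hx, hx' s⟩
    · rcases hs2 with h1 | ⟨e, he, hne, h1⟩ | ⟨b', hb', h1⟩
      · exact Or.inl h1
      · exact Or.inr (Or.inl ⟨e, he, hne, fun x hx =>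
          H_mono ((le_max_right _ _).trans hs) (h1 x hx)⟩)
      · exact Or.inr (Or.inr ⟨b', hb', fun x hx =>
          H_mono ((le_max_right _ _).trans hs) (h1 x hx)⟩)
  obtain ⟨s0, hs0⟩ := hact
  obtain ⟨s1, hs1⟩ := hj z
  have hbj : z.unpair.2.unpair.1.unpair.1 = j := by rw [hz3, hb]; simp
  by_cases hZ : Z p (Nat.pair k z)
  · -- then phi_j(z) = 1, but z entered because phi_j(z) = 0
    rw [if_pos (by rw [hQdef]; exact ⟨hzR, hZ⟩)] at hs1
    obtain ⟨s, hs⟩ := hZ
    unfold Zst at hs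
    simp only [Nat.unpair_pair] at hs
    have h1 := hs.2
    rw [hbj] at h1
    exact absurd (V_unique hs1 h1) one_ne_zero
  · rw [if_neg (by rw [hQdef]; exact fun h => hZ h.2)] at hs1
    refine hZ ⟨max s0 s1, ?_⟩
    unfold Zst
    simp only [Nat.unpair_pair]
    refine ⟨hs0 _ (le_max_left _ _), ?_⟩
    rw [hbj]
    exact V_mono (le_max_right _ _) hs1

/-! ### second direction -/

lemma finite_box (c B M : ℕ) :
    {z : ℕ | z.unpair.1 = c ∧ z.unpair.2.unpair.1 ≤ B ∧ z.unpair.2.unpair.2 ≤ M}.Finite := by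
  have h1 : {z : ℕ | z.unpair.1 = c ∧ z.unpair.2.unpair.1 ≤ B ∧ z.unpair.2.unpair.2 ≤ M} ⊆
      (fun q : ℕ × ℕ => Nat.pair c (Nat.pair q.1 q.2)) '' (Set.Iic B ×ˢ Set.Iic M) := by
    rintro z ⟨h1, h2, h3⟩
    refine ⟨(z.unpair.2.unpair.1, z.unpair.2.unpair.2), ⟨h2, h3⟩, ?_⟩
    simp only [Nat.pair_unpair]
    rw [← h1, Nat.pair_unpair]
  exact (((Set.finite_Iic B).prod (Set.finite_Iic M)).image _).subset h1

/-- the search is bounded when some `e`, guessed partial, is total -/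
lemma piece_total (p k e : ℕ) {S : ℕ → Prop} (hS : RP ∅ S)
    (hS1 : ∀ z, S z → e < z.unpair.1.unpair.1 ∧ ¬ mem e z.unpair.1.unpair.2)
    (he : ∀ x, ∃ s, H s e x) : RP ∅ (fun z => S z ∧ ∃ s, Zst p k z s) := by
  refine rp_bounded (T := fun z s => ∀ x ≤ z.unpair.2.unpair.2, H s e x) hS
    (by unfold H; with_reducible repeat' first | assumption | exact recT_id | exact recT_const _ | exact RP.const _ | apply RecT.fst | apply RecT.snd | apply RecT.pair' | apply RecT.add | apply RecT.sub | apply RecT.mul | apply RecT.div | apply RecT.mod | apply RecT.twopow | apply RP.halt | apply RP.evalEq | apply RP.eq | apply RP.ne | apply RP.lt | apply RP.le | apply RP.and | apply RP.or | apply RP.not | apply RP.bex' | apply RP.ball' | apply RP.bexle | apply RP.ballle | apply RP.imp | apply RP.iff) (rp_Zst' p k) ?_ ?_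
  · intro z _
    obtain ⟨s, hs⟩ := H_bound (T := fun _ => True) (Q := fun y s => H s e y)
      (fun y s t hst hs => H_mono hst hs) (z.unpair.2.unpair.2 + 1) (fun y _ _ => he y)
    exact ⟨s, fun x hx => hs x (by omega) trivial⟩
  · intro z s s' hz hT hss hQ
    obtain ⟨x, hx, hx'⟩ := hQ.1.2.2.1 e (hS1 z hz).1 (hS1 z hz).2
    exact hx' (H_mono hss (hT x hx))

/-- the search is bounded when the statement with number `b1` is true -/
lemma piece_true (p k a b1 : ℕ) {S : ℕ → Prop} (hS : RP ∅ S)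
    (hS1 : ∀ z, S z → z.unpair.1.unpair.1 = a ∧ b1 < z.unpair.2.unpair.1)
    (hb : ∀ x, ∃ s, H s p (Nat.pair k (Nat.pair a (Nat.pair b1 x)))) :
    RP ∅ (fun z => S z ∧ ∃ s, Zst p k z s) := by
  refine rp_bounded
    (T := fun z s => ∀ x ≤ z.unpair.2.unpair.2, H s p (Nat.pair k (Nat.pair a (Nat.pair b1 x)))) hS
    (by unfold H; with_reducible repeat' first | assumption | exact recT_id | exact recT_const _ | exact RP.const _ | apply RecT.fst | apply RecT.snd | apply RecT.pair' | apply RecT.add | apply RecT.sub | apply RecT.mul | apply RecT.div | apply RecT.mod | apply RecT.twopow | apply RP.halt | apply RP.evalEq | apply RP.eq | apply RP.ne | apply RP.lt | apply RP.le | apply RP.and | apply RP.or | apply RP.not | apply RP.bex' | apply RP.ball' | apply RP.bexle | apply RP.ballle | apply RP.imp | apply RP.iff) (rp_Zst' p k) ?_ ?_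
  · intro z _
    obtain ⟨s, hs⟩ := H_bound (T := fun _ => True)
      (Q := fun y s => H s p (Nat.pair k (Nat.pair a (Nat.pair b1 y))))
      (fun y s t hst hs => H_mono hst hs) (z.unpair.2.unpair.2 + 1) (fun y _ _ => hb y)
    exact ⟨s, fun x hx => hs x (by omega) trivial⟩
  · intro z s s' hz hT hss hQ
    obtain ⟨x, hx, hx'⟩ := hQ.1.2.2.2.1 b1 (hS1 z hz).2
    rw [(hS1 z hz).1] at hx'
    exact hx' (H_mono hss (hT x hx))

lemma piece (p k a d : ℕ)
    (hPa : ∃ b, ∀ c, ∃ s, H s p (Nat.pair k (Nat.pair a (Nat.pair b c)))) :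
    RP ∅ (fun z => z.unpair.1 = Nat.pair a d ∧ ∃ s, Zst p k z s) := by
  have hS : RP ∅ (fun z => z.unpair.1 = Nat.pair a d) := RP.eq (RecT.fst recT_id) (recT_const _)
  by_cases c1 : ∃ e < a, ¬ mem e d ∧ ∀ x, ∃ s, H s e x
  · obtain ⟨e, he, hne, htot⟩ := c1
    refine piece_total p k e hS (fun z hz => ?_) htot
    rw [hz]
    simp only [Nat.unpair_pair]
    exact ⟨he, hne⟩
  by_cases c2 : ∃ e < a, mem e d ∧ ∃ x, ∀ s, ¬ H s e x
  · obtain ⟨e, he, hmem, x, hx⟩ := c2
    refine rp_finite (F := {z | z.unpair.1 = Nat.pair a d ∧ ∃ s, Zst p k z s})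
      ((finite_box (Nat.pair a d) x x).subset ?_)
    rintro z ⟨hz, s, hs⟩
    have h1 := hs.1.2.1 e (by rw [hz]; simpa using he) (by rw [hz]; simpa using hmem)
    have h2 : z.unpair.2.unpair.1 + z.unpair.2.unpair.2 < x := by
      by_contra h3
      exact hx s (h1 x (by omega))
    exact ⟨hz, by omega, by omega⟩
  push Not at c1 c2
  obtain ⟨b1, hb1, hmin⟩ : ∃ b1, (∀ c, ∃ s, H s p (Nat.pair k (Nat.pair a (Nat.pair b1 c)))) ∧
      ∀ b' < b1, ¬ (∀ c, ∃ s, H s p (Nat.pair k (Nat.pair a (Nat.pair b' c)))) :=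
    ⟨Nat.find hPa, Nat.find_spec hPa, fun b' hb' => Nat.find_min hPa hb'⟩
  obtain ⟨m1, hm1⟩ := H_bound (T := fun e => ¬ mem e d)
    (Q := fun e m => ∃ x ≤ m, ∀ s, ¬ H s e x)
    (fun e s t hst ⟨x, hx, hx'⟩ => ⟨x, hx.trans hst, hx'⟩) a (fun e he hne => by
      obtain ⟨x, hx⟩ := c1 e he hne
      exact ⟨x, x, le_rfl, hx⟩)
  obtain ⟨m2, hm2⟩ := H_bound (T := fun _ => True)
    (Q := fun b' m => ∃ x ≤ m, ∀ s, ¬ H s p (Nat.pair k (Nat.pair a (Nat.pair b' x))))
    (fun e s t hst ⟨x, hx, hx'⟩ => ⟨x, hx.trans hst, hx'⟩) b1 (fun b' hb' _ => by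
      have h1 := hmin b' hb'
      push Not at h1
      obtain ⟨x, hx⟩ := h1
      exact ⟨x, x, le_rfl, hx⟩)
  have hp1 : RP ∅ (fun z => (z.unpair.1 = Nat.pair a d ∧ b1 < z.unpair.2.unpair.1) ∧
      ∃ s, Zst p k z s) := by
    refine piece_true p k a b1 (RP.and hS (by with_reducible repeat' first | assumption | exact recT_id | exact recT_const _ | exact RP.const _ | apply RecT.fst | apply RecT.snd | apply RecT.pair' | apply RecT.add | apply RecT.sub | apply RecT.mul | apply RecT.div | apply RecT.mod | apply RecT.twopow | apply RP.halt | apply RP.evalEq | apply RP.eq | apply RP.ne | apply RP.lt | apply RP.le | apply RP.and | apply RP.or | apply RP.not | apply RP.bex' | apply RP.ball' | apply RP.bexle | apply RP.ballle | apply RP.imp | apply RP.iff)) (fun z hz => ?_) hb1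
    refine ⟨?_, hz.2⟩
    rw [hz.1]; simp
  have hp2 : RP ∅ (fun z => z ∈ {z | z.unpair.1 = Nat.pair a d ∧ z.unpair.2.unpair.1 ≤ b1 ∧
      ∃ s, Zst p k z s}) := by
    refine rp_finite ((finite_box (Nat.pair a d) b1 (max m1 m2)).subset ?_)
    rintro z ⟨hz, hzb, s, hs⟩
    refine ⟨hz, hzb, ?_⟩
    by_contra hcon
    have ha : z.unpair.1.unpair.1 = a := by rw [hz]; simp
    have hd : z.unpair.1.unpair.2 = d := by rw [hz]; simp
    have h4 := hs.1.2.2.2.2
    rw [ha, hd] at h4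
    rcases h4 with h4 | ⟨e, he, hne, h4⟩ | ⟨b', hb', h4⟩
    · omega
    · obtain ⟨x, hx, hx'⟩ := hm1 e he hne
      exact hx' s (h4 x (by omega))
    · obtain ⟨x, hx, hx'⟩ := hm2 b' (by omega) trivial
      exact hx' s (h4 x (by omega))
  refine RP.congr (RP.or hp1 hp2) fun z => ?_
  constructor
  · rintro (⟨⟨h1, -⟩, h2⟩ | ⟨h1, -, h2⟩)
    · exact ⟨h1, h2⟩
    · exact ⟨h1, h2⟩
  · rintro ⟨h1, h2⟩
    rcases lt_or_ge b1 z.unpair.2.unpair.1 with h3 | h3
    · exact Or.inl ⟨⟨h1, h3⟩, h2⟩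
    · exact Or.inr ⟨h1, h3, h2⟩

lemma second_dir {P : ℕ → Prop} {p : ℕ} (hp : ∀ n, P n ↔ ∃ s, H s p n) (k : ℕ)
    (h : ∀ a, ∃ b, ∀ c, P (Nat.pair k (Nat.pair a (Nat.pair b c)))) (R : ℕ → Prop)
    (hR : RP ∅ R) (hRW : ∀ z, R z → W z) : RP ∅ (fun z => R z ∧ Z p (Nat.pair k z)) := by
  obtain ⟨e, he⟩ := exists_char_index hR
  have hPa : ∀ a, ∃ b, ∀ c, ∃ s, H s p (Nat.pair k (Nat.pair a (Nat.pair b c))) := by
    intro a
    obtain ⟨b, hb⟩ := h a
    exact ⟨b, fun c => (hp _).1 (hb c)⟩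
  -- the first case
  have hA : ∀ z, R z → e < z.unpair.1.unpair.1 → ¬ mem e z.unpair.1.unpair.2 := by
    intro z hz hez hmem
    obtain ⟨s, hs⟩ := he z
    rw [if_pos hz] at hs
    obtain ⟨t, ht⟩ := hRW z hz
    have hc : Cand e (Nat.pair z s) := by
      unfold Cand
      simp only [Nat.unpair_pair]
      exact ⟨ht.1, hez, hmem, hs⟩
    obtain ⟨u, hu⟩ := exists_first hc
    have hRu : R u.unpair.1 := by
      by_contra hn
      obtain ⟨s', hs'⟩ := he u.unpair.1
      rw [if_neg hn] at hs'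
      exact absurd (V_unique hs' hu.1.2.2.2) zero_ne_one
    obtain ⟨t', ht'⟩ := hRW _ hRu
    obtain ⟨v, -, hv, hv1⟩ := ht'.2 e hu.1.2.1 hu.1.2.2.1
    obtain ⟨u', -, hu', hne⟩ := hv1 (V_unique hv hu.1.2.2.2)
    exact hne (by rw [First.unique hu' hu])
  -- the second case
  have htot : ∀ x, ∃ s, H s e x := fun x => by
    obtain ⟨s, hs⟩ := he x
    exact ⟨s, hs.H⟩
  have hB : RP ∅ (fun z => (e < z.unpair.1.unpair.1 ∧ ¬ mem e z.unpair.1.unpair.2) ∧
      ∃ s, Zst p k z s) :=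
    piece_total p k e (by unfold mem; with_reducible repeat' first | assumption | exact recT_id | exact recT_const _ | exact RP.const _ | apply RecT.fst | apply RecT.snd | apply RecT.pair' | apply RecT.add | apply RecT.sub | apply RecT.mul | apply RecT.div | apply RecT.mod | apply RecT.twopow | apply RP.halt | apply RP.evalEq | apply RP.eq | apply RP.ne | apply RP.lt | apply RP.le | apply RP.and | apply RP.or | apply RP.not | apply RP.bex' | apply RP.ball' | apply RP.bexle | apply RP.ballle | apply RP.imp | apply RP.iff) (fun z hz => hz) htot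
  -- the third case
  obtain ⟨N, hN⟩ : ∃ N, ∀ a d, a ≤ e → d < 2 ^ a → Nat.pair a d < N := by
    have hfin : ((fun q : ℕ × ℕ => Nat.pair q.1 q.2) '' (Set.Iic e ×ˢ Set.Iic (2 ^ e))).Finite :=
      ((Set.finite_Iic _).prod (Set.finite_Iic _)).image _
    obtain ⟨N, hN⟩ := hfin.bddAbove
    refine ⟨N + 1, fun a d ha hd => Nat.lt_succ_of_le (hN ⟨(a, d), ⟨ha, ?_⟩, rfl⟩)⟩
    have h1 : 2 ^ a ≤ 2 ^ e := Nat.pow_le_pow_right (by norm_num) ha
    show d ≤ 2 ^ e
    omega
  have hC : RP ∅ (fun z => ∃ i < N, z.unpair.1 = i ∧ ∃ s, Zst p k z s) := by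
    refine rp_exists_lt N fun i _ => ?_
    have h1 := piece p k i.unpair.1 i.unpair.2 (hPa _)
    rw [Nat.pair_unpair] at h1
    exact h1
  refine RP.congr (RP.and hR (RP.or hB hC)) fun z => ?_
  unfold Z
  simp only [Nat.unpair_pair]
  constructor
  · rintro ⟨h1, ⟨-, h2⟩ | ⟨i, -, -, h2⟩⟩
    · exact ⟨h1, h2⟩
    · exact ⟨h1, h2⟩
  · rintro ⟨h1, h2⟩
    refine ⟨h1, ?_⟩
    rcases lt_or_ge e z.unpair.1.unpair.1 with h3 | h3
    · exact Or.inl ⟨⟨h3, hA z h1 h3⟩, h2⟩
    · obtain ⟨t, ht⟩ := hRW z h1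
      refine Or.inr ⟨z.unpair.1, ?_, rfl, h2⟩
      have h4 := hN _ _ h3 ht.1
      rwa [Nat.pair_unpair] at h4

end LemA

theorem lemA (P : ℕ → Prop) (hP : REPred P) : ∃ W Z : ℕ → Prop, REPred W ∧ REPred Z ∧ ∀ k : ℕ,
    (∀ R : ℕ → Prop, RP ∅ R → (∀ z, R z → W z) → RP ∅ (fun z => R z ∧ Z (Nat.pair k z))) ↔
      ∀ a, ∃ b, ∀ c, P (Nat.pair k (Nat.pair a (Nat.pair b c))) := by
  obtain ⟨p, hp⟩ := exists_index hP
  exact ⟨LemA.W, LemA.Z p, LemA.re_W, LemA.re_Z p, fun k =>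
    ⟨LemA.first_dir hp k, fun h R hR hRW => LemA.second_dir hp k h R hR hRW⟩⟩

end Pool.Agent.Helper206.PC

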