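import Pool.Agent.Helper206.PC.Tree
import Pool.Agent.Helper206.PC.L1
import Pool.Agent.Helper206.PC.LemA
import Pool.Agent.Helper206.PC.L2b

set_option autoImplicit false

/-! The two lattices are not isomorphic. -/

namespace Pool.Agent.Helper206.PC

open Pool.Agent.H166R3.HD

theorem not_iso : ¬ Nonempty (L2 ≃o L1) := by
  rintro ⟨f⟩
  obtain ⟨P, hP, hk⟩ := l1_normal
  obtain ⟨W, Z, hW, hZ, hA⟩ := lemA P hP
  obtain ⟨p, A, U, hU⟩ := l2_realise W Z hW hZ
  obtain ⟨a, ha⟩ := (f p).2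
  obtain ⟨b, hb⟩ := (f A).2
  obtain ⟨c, hc⟩ := (f U).2
  have ha' : f p = oo a := Subtype.ext ha
  have hb' : f A = oo b := Subtype.ext hb
  have hc' : f U = oo c := Subtype.ext hc
  have h1 := hU (Nat.pair a (Nat.pair b c))
  rw [Psi_iff f, ha', hb', hc', hA, ← hk] at h1
  simp only [Nat.unpair_pair] at h1
  exact (not_iff_self (Iff.symm h1)).elim

end Pool.Agent.Helper206.PC
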