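import Pool.Agent.H166R3.HD.Space

set_option autoImplicit false

/-! Recursive functions and predicates, c.e. predicates of numbers: closure properties. -/

namespace Pool.Agent.Helper206.PC

open Pool.Agent.Helper743 (RecT)
open Pool.Agent.H166R3.HD
open Nat.Partrec (Code)
open scoped Classical

lemma RecT.pair' {f g : ℕ → ℕ} (hf : RecT ∅ f) (hg : RecT ∅ g) :
    RecT ∅ (fun n => Nat.pair (f n) (g n)) := Pool.Agent.Helper743.RecT.pair hf hg

lemma recT_computable {f : ℕ → ℕ} (hf : RecT ∅ f) : Computable f := by
  have h : Nat.Partrec (fun n => Part.some (f n)) :=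
    Nat.RecursiveIn.partrec_of_oracle (O := ∅) (by simp) hf
  exact Partrec.nat_iff.2 h

lemma computable_recT {f : ℕ → ℕ} (hf : Computable f) : RecT ∅ f :=
  Pool.Agent.Helper743.Computable.recT hf

/-- recursive predicates -/
lemma rp_iff_computablePred {p : ℕ → Prop} : RP ∅ p ↔ ComputablePred p := by
  constructor
  · intro h
    have h1 : Computable (fun n => if p n then 1 else 0) := recT_computable h
    have h2 : Computable (fun n => decide ((if p n then 1 else 0) = 1)) :=
      (Primrec.eq (α := ℕ)).decide.to_comp.comp h1 (Computable.const 1)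
    refine ComputablePred.computable_iff.2 ⟨_, h2, ?_⟩
    funext n
    by_cases hn : p n <;> simp [hn]
  · intro h
    obtain ⟨f, hf, rfl⟩ := ComputablePred.computable_iff.1 h
    have h : Computable fun n => bif f n then 1 else 0 :=
      Computable.cond hf (Computable.const 1) (Computable.const 0)
    refine RecT.congr (computable_recT h) fun n => ?_
    by_cases hn : f n = true
    · rw [if_pos hn, hn]; rfl
    · rw [if_neg hn, Bool.eq_false_of_not_eq_true hn]; rfl

lemma RP.bex' {p : ℕ → ℕ → Prop} {b : ℕ → ℕ} (hp : RP ∅ (fun z => p z.unpair.1 z.unpair.2))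
    (hb : RecT ∅ b) : RP ∅ (fun n => ∃ i < b n, p n i) := by
  refine RP.congr (RP.bex hp hb) fun n => ?_
  simp

lemma RP.ball' {p : ℕ → ℕ → Prop} {b : ℕ → ℕ} (hp : RP ∅ (fun z => p z.unpair.1 z.unpair.2))
    (hb : RecT ∅ b) : RP ∅ (fun n => ∀ i < b n, p n i) := by
  refine RP.congr (RP.ball hp hb) fun n => ?_
  simp

lemma RP.bexle {p : ℕ → ℕ → Prop} {b : ℕ → ℕ} (hp : RP ∅ (fun z => p z.unpair.1 z.unpair.2))
    (hb : RecT ∅ b) : RP ∅ (fun n => ∃ i ≤ b n, p n i) := by
  refine RP.congr (RP.bex' hp (RecT.add hb (recT_const 1))) fun n => ?_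
  constructor
  · rintro ⟨i, h, h'⟩; exact ⟨i, by omega, h'⟩
  · rintro ⟨i, h, h'⟩; exact ⟨i, by omega, h'⟩

lemma RP.ballle {p : ℕ → ℕ → Prop} {b : ℕ → ℕ} (hp : RP ∅ (fun z => p z.unpair.1 z.unpair.2))
    (hb : RecT ∅ b) : RP ∅ (fun n => ∀ i ≤ b n, p n i) := by
  refine RP.congr (RP.ball' hp (RecT.add hb (recT_const 1))) fun n => ?_
  constructor
  · intro h i hi; exact h i (by omega)
  · intro h i hi; exact h i (by omega)

lemma RP.imp {p q : ℕ → Prop} (hp : RP ∅ p) (hq : RP ∅ q) : RP ∅ (fun n => p n → q n) := by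
  refine RP.congr (RP.or (RP.not hp) hq) fun n => ?_
  tauto

lemma RP.ne {f g : ℕ → ℕ} (hf : RecT ∅ f) (hg : RecT ∅ g) : RP ∅ (fun n => f n ≠ g n) :=
  RP.not (RP.eq hf hg)

lemma RP.const (p : Prop) : RP ∅ (fun _ => p) := by
  by_cases h : p
  · exact RecT.congr (recT_const 1) fun n => by simp [h]
  · exact RecT.congr (recT_const 0) fun n => by simp [h]

/-- halting within `s` steps is a recursive predicate -/
lemma RP.halt {s e x : ℕ → ℕ} (hs : RecT ∅ s) (he : RecT ∅ e) (hx : RecT ∅ x) :
    RP ∅ (fun n => (Code.evaln (s n) (Denumerable.ofNat Code (e n)) (x n)).isSome = true) := by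
  rw [rp_iff_computablePred]
  have h1 : Computable (fun n => Code.evaln (s n) (Denumerable.ofNat Code (e n)) (x n)) :=
    Code.primrec_evaln.to_comp.comp
      (((recT_computable hs).pair ((Computable.ofNat Code).comp (recT_computable he))).pair
      (recT_computable hx))
  exact ComputablePred.computable_iff.2 ⟨_, Primrec.option_isSome.to_comp.comp h1, rfl⟩

/-- the value of a computation within `s` steps -/
lemma RP.evalEq {s e x y : ℕ → ℕ} (hs : RecT ∅ s) (he : RecT ∅ e) (hx : RecT ∅ x)
    (hy : RecT ∅ y) :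
    RP ∅ (fun n => Code.evaln (s n) (Denumerable.ofNat Code (e n)) (x n) = some (y n)) := by
  rw [rp_iff_computablePred]
  have h1 : Computable (fun n => Code.evaln (s n) (Denumerable.ofNat Code (e n)) (x n)) :=
    Code.primrec_evaln.to_comp.comp
      (((recT_computable hs).pair ((Computable.ofNat Code).comp (recT_computable he))).pair
      (recT_computable hx))
  have h2 : Computable (fun n => some (y n)) := Computable.option_some.comp (recT_computable hy)
  have h3 := (Primrec.eq (α := Option ℕ)).decide.to_comp.comp h1 h2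
  exact ComputablePred.computable_iff.2 ⟨_, h3, by funext n; simp⟩


example : RP ∅ (fun z : ℕ => ∀ i < z.unpair.1, ∃ j ≤ z.unpair.2 + i, i + j = 2 ∨ ¬ (i % (j+1) < 3)) := by
  with_reducible repeat' first | assumption | exact recT_id | exact recT_const _ | exact RP.const _ | apply RecT.fst | apply RecT.snd | apply RecT.pair' | apply RecT.add | apply RecT.sub | apply RecT.mul | apply RecT.div | apply RecT.mod | apply RecT.twopow | apply RP.halt | apply RP.evalEq | apply RP.eq | apply RP.ne | apply RP.lt | apply RP.le | apply RP.and | apply RP.or | apply RP.not | apply RP.bex' | apply RP.ball' | apply RP.bexle | apply RP.ballle | apply RP.imp | apply RP.iff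

example : RP ∅ (fun z : ℕ => ∃ m ≤ z.unpair.2.unpair.1, (Code.evaln z.unpair.2.unpair.1
    (Denumerable.ofNat Code z.unpair.1) (Nat.pair m (z.unpair.2.unpair.2 % 2^m))).isSome) := by
  with_reducible repeat' first | assumption | exact recT_id | exact recT_const _ | exact RP.const _ | apply RecT.fst | apply RecT.snd | apply RecT.pair' | apply RecT.add | apply RecT.sub | apply RecT.mul | apply RecT.div | apply RecT.mod | apply RecT.twopow | apply RP.halt | apply RP.evalEq | apply RP.eq | apply RP.ne | apply RP.lt | apply RP.le | apply RP.and | apply RP.or | apply RP.not | apply RP.bex' | apply RP.ball' | apply RP.bexle | apply RP.ballle | apply RP.imp | apply RP.iff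

end Pool.Agent.Helper206.PC
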