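import Pool.Agent.Helper206.PC.Base

set_option autoImplicit false

/-! Computable trees versus c.e. open sets. -/

namespace Pool.Agent.Helper206.PC

open Pool.Agent.Helper743 (RecT)
open Pool.Agent.H166R3.HD
open Nat.Partrec (Code)
open scoped Classical

/-- the first `n` values of the point coded by `k` -/
def bits (n k : ℕ) : List Bool := (List.range n).map (dec k)

lemma bits_enc (x : ℕ → Bool) (n : ℕ) : bits n (enc x n) = (List.range n).map x := by
  unfold bits
  refine List.map_congr_left fun i hi => ?_
  unfold dec
  rw [enc_bit x (List.mem_range.1 hi)]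
  cases x i <;> simp

lemma computable_bits : Computable₂ bits := by
  have h1 : Primrec (fun z : (ℕ × ℕ) × ℕ => decide (z.1.2 / 2 ^ z.2 % 2 = 1)) := by
    have h2 : Primrec (fun z : (ℕ × ℕ) × ℕ => z.1.2 / 2 ^ z.2 % 2) :=
      Primrec.nat_mod.comp (Primrec.nat_div.comp (Primrec.snd.comp Primrec.fst)
        (primrec_twopow.comp Primrec.snd)) (Primrec.const 2)
    exact (Primrec.eq (α := ℕ)).decide.comp h2 (Primrec.const 1)
  exact (Primrec.list_map (Primrec.list_range.comp Primrec.fst) h1.to₂).to_comp

/-- the code of a list of bits -/
def encL : List Bool → ℕ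
  | [] => 0
  | b :: l => b.toNat + 2 * encL l

lemma enc_add (x : ℕ → Bool) (n : ℕ) : enc x (n + 1) = (x 0).toNat + 2 * enc (fun i => x (i + 1)) n := by
  induction n with
  | zero => simp [enc]
  | succ n ih =>
    rw [enc, ih, enc]
    ring

lemma encL_range (x : ℕ → Bool) (n : ℕ) : encL ((List.range n).map x) = enc x n := by
  induction n generalizing x with
  | zero => rfl
  | succ n ih =>
    rw [enc_add, List.range_succ_eq_map, List.map_cons, encL, List.map_map]
    congr 2
    exact ih (fun i => x (i + 1))

lemma primrec_encL : Primrec encL := by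
  have h : Primrec (fun l : List Bool => List.foldr (fun b s => b.toNat + 2 * s) 0 l) := by
    have h0 : Primrec₂ (fun (_ : List Bool) (z : Bool × ℕ) => z.1.toNat + 2 * z.2) := by
      have a1 : Primrec (fun w : List Bool × (Bool × ℕ) => w.2.1.toNat) :=
        (Primrec.dom_finite (fun b : Bool => b.toNat)).comp (Primrec.fst.comp Primrec.snd)
      have a2 : Primrec (fun w : List Bool × (Bool × ℕ) => 2 * w.2.2) :=
        Primrec.nat_mul.comp (Primrec.const 2) (Primrec.snd.comp Primrec.snd)
      exact (Primrec.nat_add.comp a1 a2).to₂
    exact Primrec.list_foldr Primrec.id (Primrec.const 0) h0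
  refine h.of_eq fun l => ?_
  induction l with
  | nil => rfl
  | cons b l ih => rw [List.foldr_cons, ih, encL]

lemma co_iff (X : Set (ℕ → Bool)) : CO X ↔ ∃ T : List Bool → Bool, Computable T ∧
    Xᶜ = {x : ℕ → Bool | ∀ n : ℕ, T ((List.range n).map x) = true} := by
  constructor
  · rintro ⟨e, rfl⟩
    have h1 : ComputablePred (fun z : ℕ => D e z.unpair.1 z.unpair.2) :=
      rp_iff_computablePred.1 (rp_D (by with_reducible repeat' first | assumption | exact recT_id | exact recT_const _ | exact RP.const _ | apply RecT.fst | apply RecT.snd | apply RecT.pair' | apply RecT.add | apply RecT.sub | apply RecT.mul | apply RecT.div | apply RecT.mod | apply RecT.twopow | apply RP.halt | apply RP.evalEq | apply RP.eq | apply RP.ne | apply RP.lt | apply RP.le | apply RP.and | apply RP.or | apply RP.not | apply RP.bex' | apply RP.ball' | apply RP.bexle | apply RP.ballle | apply RP.imp | apply RP.iff) (by with_reducible repeat' first | assumption | exact recT_id | exact recT_const _ | exact RP.const _ | apply RecT.fst | apply RecT.snd | apply RecT.pair' | apply RecT.add | apply RecT.sub | apply RecT.mul | apply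 RecT.div | apply RecT.mod | apply RecT.twopow | apply RP.halt | apply RP.evalEq | apply RP.eq | apply RP.ne | apply RP.lt | apply RP.le | apply RP.and | apply RP.or | apply RP.not | apply RP.bex' | apply RP.ball' | apply RP.bexle | apply RP.ballle | apply RP.imp | apply RP.iff) (by with_reducible repeat' first | assumption | exact recT_id | exact recT_const _ | exact RP.const _ | apply RecT.fst | apply RecT.snd | apply RecT.pair' | apply RecT.add | apply RecT.sub | apply RecT.mul | apply RecT.div | apply RecT.mod | apply RecT.twopow | apply RP.halt | apply RP.evalEq | apply RP.eq | apply RP.ne | apply RP.lt | apply RP.le | apply RP.and | apply RP.or | apply RP.not | apply RP.bex' | apply RP.ball' | apply RP.bexle | apply RP.ballle | apply RP.imp | apply RP.iff))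
    obtain ⟨f, hf, hf2⟩ := ComputablePred.computable_iff.1 h1
    refine ⟨fun l => !(f (Nat.pair l.length (encL l))), ?_, ?_⟩
    · refine Primrec.not.to_comp.comp (hf.comp (Primrec₂.natPair.to_comp.comp ?_ ?_))
      · exact Primrec.list_length.to_comp
      · exact primrec_encL.to_comp
    · ext x
      simp only [Set.mem_compl_iff, OO, Set.mem_ofPred_eq, not_exists]
      refine forall_congr' fun n => ?_
      rw [List.length_map, List.length_range, encL_range]
      have h3 := congrFun hf2 (Nat.pair n (enc x n))
      simp only [Nat.unpair_pair] at h3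
      rw [h3]
      simp
  · rintro ⟨T, hT, hX⟩
    have h1 : X = {x | ∃ n, T (bits n (enc x n)) = false} := by
      rw [← compl_compl X, hX]
      ext x
      simp only [Set.mem_compl_iff, Set.mem_ofPred_eq, not_forall, bits_enc]
      refine exists_congr fun n => ?_
      simp
    rw [h1]
    refine co_of_re' (V := fun n k => T (bits n k) = false) (rp_re (rp_iff_computablePred.2 ?_))
    refine ComputablePred.computable_iff.2 ⟨fun z => !(T (bits z.unpair.1 z.unpair.2)), ?_, ?_⟩
    · refine Primrec.not.to_comp.comp (hT.comp (computable_bits.comp ?_ ?_))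
      · exact Computable.fst.comp Computable.unpair
      · exact Computable.snd.comp Computable.unpair
    · funext z
      simp

end Pool.Agent.Helper206.PC
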